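import Pool.Agent.MalP.CList

/-! # Characteristic 5: the ideal generated by the values of `c`, definitions -/

set_option autoImplicit false

open scoped BigOperators

namespace Pool.Agent.MalP

universe u v w

namespace Z5

/-- `((a b) t_k) ⋯ t_0` for `t = [t_0, …, t_k]` (the head is multiplied last) -/
def mr {A : Type v} [Mul A] (a b : A) (t : List A) : A := t.foldr (fun x y => y * x) (a * b)

theorem mr_nil {A : Type v} [Mul A] (a b : A) : mr a b [] = a * b := rfl

theorem mr_cons {A : Type v} [Mul A] (a b x : A) (t : List A) : mr a b (x :: t) = mr a b t * x := rfl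

/-- a function of six arguments on the lists `a :: b :: w :: z :: p :: q :: r :: s :: t` -/
def GF {A : Type v} {B : Type w} [Mul A] [Zero B] (c : A → A → A → A → A → A → B) : List A → B
  | a :: b :: w :: z :: p :: q :: r :: s :: t => c (mr a b t) (w * z) p q r s
  | _ => 0

/-- six-linear (additive), totally skew functions with the identities (zA), (zC) -/
structure CA {A : Type v} {B : Type w} [NonUnitalNonAssocRing A] [AddCommGroup B]
    (c : A → A → A → A → A → A → B) : Prop where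
  anti : ∀ a b : A, a * b = -(b * a)
  two : ∀ v : B, 2 • v = 0 → v = 0
  add : ∀ a a' x1 x2 x3 x4 x5 : A, c (a + a') x1 x2 x3 x4 x5 = c a x1 x2 x3 x4 x5 + c a' x1 x2 x3 x4 x5
  s01 : ∀ x0 x1 x2 x3 x4 x5 : A, c x0 x1 x2 x3 x4 x5 = - c x1 x0 x2 x3 x4 x5
  s12 : ∀ x0 x1 x2 x3 x4 x5 : A, c x0 x1 x2 x3 x4 x5 = - c x0 x2 x1 x3 x4 x5
  s23 : ∀ x0 x1 x2 x3 x4 x5 : A, c x0 x1 x2 x3 x4 x5 = - c x0 x1 x3 x2 x4 x5
  s34 : ∀ x0 x1 x2 x3 x4 x5 : A, c x0 x1 x2 x3 x4 x5 = - c x0 x1 x2 x4 x3 x5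
  s45 : ∀ x0 x1 x2 x3 x4 x5 : A, c x0 x1 x2 x3 x4 x5 = - c x0 x1 x2 x3 x5 x4
  zA : ∀ u v x y a b : A, c (u * v) (x * y) x y a b = 0
  zC : ∀ u v w x0 x1 x2 x3 x4 : A, 2 • c ((u * v) * w) x0 x1 x2 x3 x4 +
    c (u * v) (x0 * x1) w x2 x3 x4 + c (u * v) (x1 * x2) w x0 x3 x4 + c (u * v) (x2 * x3) w x0 x1 x4 +
    c (u * v) (x3 * x4) w x0 x1 x2 + c (u * v) (x4 * x0) w x1 x2 x3 = 0

/-- functions of the lists of length `n` with the properties of `GF c` -/
structure IsG {A : Type v} {B : Type w} [AddCommGroup B] (n : ℕ) (s : ℤ) (G : List A → B) : Prop where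
  g01 : ∀ (a b w z : A) (U : List A), U.length + 4 = n →
    G (b :: a :: w :: z :: U) = - G (a :: b :: w :: z :: U)
  g23 : ∀ (a b w z : A) (U : List A), U.length + 4 = n →
    G (a :: b :: z :: w :: U) = - G (a :: b :: w :: z :: U)
  gU : ∀ (a b w z : A) (l1 : List A) (x y : A) (l2 : List A), (l1 ++ x :: y :: l2).length + 4 = n →
    G (a :: b :: w :: z :: (l1 ++ x :: y :: l2)) = - G (a :: b :: w :: z :: (l1 ++ y :: x :: l2))
  gs : ∀ (a b w z : A) (U : List A), U.length + 4 = n →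
    G (w :: z :: a :: b :: U) = s • G (a :: b :: w :: z :: U)
  g4 : ∀ (a b w z w' z' : A) (t : List A), t.length + 6 = n →
    G (a :: b :: w :: z :: w' :: z' :: t) + G (a :: b :: w :: z' :: w' :: z :: t) +
      G (a :: b :: w' :: z :: w :: z' :: t) + G (a :: b :: w' :: z' :: w :: z :: t) = 0

/-- the untwisted functions -/
structure IsK {N : Type v} {V : Type w} [AddCommGroup V] (s : ℤ) (K : N → N → N → N → V) : Prop where
  k1 : ∀ a b w z : N, [a, b, w, z].Nodup → K b a w z = K a b w z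
  k2 : ∀ a b w z : N, [a, b, w, z].Nodup → K a b z w = K a b w z
  k3 : ∀ a b w z : N, [a, b, w, z].Nodup → K w z a b = s • K a b w z
  k4 : ∀ a b w z w' z' : N, [a, b, w, z, w', z'].Nodup →
    K a b w z + K a b w' z' = K a b w z' + K a b w' z

end Z5

end Pool.Agent.MalP
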