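import Pool.Agent.MalP.CPhi
import Pool.Agent.MalP.P5.Fv
import Pool.Agent.MalP.Z5.Defs

/-! # The values of `c` in the model algebra -/

set_option autoImplicit false
set_option linter.unusedSimpArgs false

namespace Pool.Agent.MalP

universe u

variable {F : Type u} [Field F]

namespace Z5

open Bh

namespace BhCAux

/-- a sorted product of the reversed form -/
theorem sw2 (a b : VL F) (t : Ex F) : ix b * (ix a * t) = -(ix a * (ix b * t)) := by
  rw [← mul_assoc, ix_anti b a, neg_mul, mul_assoc]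

noncomputable def zH (i j : ℕ) : Bh F →+ Ex F := AddMonoidHom.mk' (fun x => x.z i j) (fun _ _ => rfl)

theorem z_nsmul (n : ℕ) (x : Bh F) (i j : ℕ) : (n • x).z i j = n • x.z i j :=
  map_nsmul (zH (F := F) i j) n x

/-- the `z`-part of `P108` with two arguments without `v`-part -/
theorem P108_z {a x : Bh F} (ha : a.v = 0) (hx : x.v = 0) (b c d : VL F) (i j : ℕ) :
    (P108 a (vl b) (vl c) (vl d) x).z i j = (-24 : ℤ) •
      (x.w j * (ix b * ix c * ix d) * rv (a.w i) + a.w j * (ix b * ix c * ix d) * rv (x.w i)) := by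
  have r1 := ix_anti c b
  have r2 := ix_anti d b
  have r3 := ix_anti d c
  have s1 := fun t => sw2 b c t
  have s2 := fun t => sw2 b d t
  have s3 := fun t => sw2 c d t
  simp only [P108, Jac, z_add, z_sub, z_nsmul, z_mul, w_add, w_mul, v_mul, v_add, v_vl, w_vl,
    ha, hx, Finsupp.coe_zero, Pi.zero_apply, zero_smul, smul_zero, mul_zero, zero_mul, map_zero,
    sub_zero, zero_sub, zero_add, add_zero, map_add, map_sub, map_neg, rv_mul, rv_ix, neg_zero,
    mul_add, add_mul, mul_sub, sub_mul, neg_mul, mul_neg, neg_neg, smul_neg]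
  simp only [mul_assoc, r1, r2, r3, s1, s2, s3, mul_neg, neg_mul, neg_neg]
  module

/-- products with an element without `v`- and `w`-part -/
theorem mul_eq_zero' {p : Bh F} (hv : p.v = 0) (hw : ∀ i, p.w i = 0) (y : Bh F) : p * y = 0 := by
  apply Bh.ext
  · rfl
  · intro i
    simp [w_mul, hv, hw]
  · intro i j
    simp [z_mul, hv, hw]

theorem P108_v (a b c d x : Bh F) : (P108 a b c d x).v = 0 := by
  simp only [P108, Jac, v_add, v_sub, BhEAux.v_nsmul, v_mul, smul_zero, add_zero, sub_zero]

/-- three arguments without `v`-part -/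
theorem P108_zero3 {a b x : Bh F} (ha : a.v = 0) (hb : b.v = 0) (hx : x.v = 0) (c d : VL F) :
    P108 a b (vl c) (vl d) x = 0 := by
  apply Bh.ext
  · exact P108_v _ _ _ _ _
  · intro i
    simp only [P108, Jac, w_add, w_sub, BhEAux.w_nsmul, w_mul, v_mul, v_add, v_vl, w_vl, ha, hb, hx,
      Finsupp.coe_zero, Pi.zero_apply, zero_smul, smul_zero, mul_zero, zero_mul, map_zero,
      sub_zero, zero_sub, zero_add, add_zero, neg_zero, w_zero]
  · intro i j
    simp only [P108, Jac, z_add, z_sub, z_nsmul, z_mul, w_add, w_mul, v_mul, v_add, v_vl, w_vl,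
      ha, hb, hx, Finsupp.coe_zero, Pi.zero_apply, zero_smul, smul_zero, mul_zero, zero_mul, map_zero,
      sub_zero, zero_sub, zero_add, add_zero, neg_zero, z_zero]

/-- two arguments without `v`-part -/
theorem P108_w2 {a b : Bh F} (ha : a.v = 0) (hb : b.v = 0) (c d x : VL F) (i : ℕ) :
    (P108 a b (vl c) (vl d) (vl x)).w i = 0 := by
  simp only [P108, Jac, w_add, w_sub, BhEAux.w_nsmul, w_mul, v_mul, v_add, v_vl, w_vl, ha, hb,
    Finsupp.coe_zero, Pi.zero_apply, zero_smul, smul_zero, mul_zero, zero_mul, map_zero,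
    sub_zero, zero_sub, zero_add, add_zero, neg_zero, w_zero]

/-- two arguments without `v`-part -/
theorem P108_w2' {a x : Bh F} (ha : a.v = 0) (hx : x.v = 0) (b c d : VL F) (i : ℕ) :
    (P108 a (vl b) (vl c) (vl d) x).w i = 0 := by
  simp only [P108, Jac, w_add, w_sub, BhEAux.w_nsmul, w_mul, v_mul, v_add, v_vl, w_vl, ha, hx,
    Finsupp.coe_zero, Pi.zero_apply, zero_smul, smul_zero, mul_zero, zero_mul, map_zero,
    sub_zero, zero_sub, zero_add, add_zero, neg_zero, w_zero]

/-- contraction of a product of four vectors -/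
noncomputable def Ph (a b c d : VL F) (i : ℕ) : Ex F :=
  a i • (ix b * ix c * ix d) - b i • (ix a * ix c * ix d) + c i • (ix a * ix b * ix d) -
    d i • (ix a * ix b * ix c)

/-- the `w`-part of `P108` for vectors -/
theorem P108_w (a b c d v : VL F) (i : ℕ) :
    (P108 (vl a) (vl b) (vl c) (vl d) (vl v)).w i = (-24 : ℤ) •
      (v i • (ix a * ix b * ix c * ix d) + ix v * Ph a b c d i) := by
  have r1 := ix_anti b a
  have r2 := ix_anti c a
  have r3 := ix_anti d a
  have r4 := ix_anti c b
  have r5 := ix_anti d b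
  have r6 := ix_anti d c
  have r7 := ix_anti v a
  have r8 := ix_anti v b
  have r9 := ix_anti v c
  have r10 := ix_anti v d
  have s1 := fun t => sw2 a b t
  have s2 := fun t => sw2 a c t
  have s3 := fun t => sw2 a d t
  have s4 := fun t => sw2 b c t
  have s5 := fun t => sw2 b d t
  have s6 := fun t => sw2 c d t
  have s7 := fun t => sw2 a v t
  have s8 := fun t => sw2 b v t
  have s9 := fun t => sw2 c v t
  have s10 := fun t => sw2 d v t
  simp only [P108, Jac, Ph, w_add, w_sub, BhEAux.w_nsmul, w_mul, v_mul, v_add, v_vl, w_vl,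
    Finsupp.coe_zero, Pi.zero_apply, zero_smul, smul_zero, mul_zero, zero_mul, map_zero,
    sub_zero, zero_sub, zero_add, add_zero, map_add, map_sub, map_neg, rv_mul, rv_ix, neg_zero,
    mul_add, add_mul, mul_sub, sub_mul, neg_mul, mul_neg, neg_neg, smul_neg, smul_mul_assoc,
    mul_smul_comm]
  simp only [mul_assoc, r1, r2, r3, r4, r5, r6, r7, r8, r9, r10, s1, s2, s3, s4, s5, s6, s7, s8, s9,
    s10, mul_neg, neg_mul, neg_neg, smul_neg]
  module

/-- the `z`-part of `P108` for four vectors and an element without `v`-part -/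
theorem P108_z' {x : Bh F} (hx : x.v = 0) (a b c d : VL F) (i j : ℕ) :
    (P108 (vl a) (vl b) (vl c) (vl d) x).z i j = (24 : ℤ) •
      (x.w j * Ph a b c d i + Ph a b c d j * rv (x.w i)) := by
  have r1 := ix_anti b a
  have r2 := ix_anti c a
  have r3 := ix_anti d a
  have r4 := ix_anti c b
  have r5 := ix_anti d b
  have r6 := ix_anti d c
  have s1 := fun t => sw2 a b t
  have s2 := fun t => sw2 a c t
  have s3 := fun t => sw2 a d t
  have s4 := fun t => sw2 b c t
  have s5 := fun t => sw2 b d t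
  have s6 := fun t => sw2 c d t
  simp only [P108, Jac, Ph, z_add, z_sub, z_nsmul, z_mul, w_add, w_mul, v_mul, v_add, v_vl, w_vl,
    hx, Finsupp.coe_zero, Pi.zero_apply, zero_smul, smul_zero, mul_zero, zero_mul, map_zero,
    sub_zero, zero_sub, zero_add, add_zero, map_add, map_sub, map_neg, map_smul, rv_mul, rv_ix,
    neg_zero, mul_add, add_mul, mul_sub, sub_mul, neg_mul, mul_neg, neg_neg, smul_neg,
    smul_mul_assoc, mul_smul_comm]
  simp only [mul_assoc, r1, r2, r3, r4, r5, r6, s1, s2, s3, s4, s5, s6,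
    mul_neg, neg_mul, neg_neg, smul_neg]
  module

/-- the `z`-part of `f` for vectors -/
theorem fv_z (a b c d e v : VL F) (i j : ℕ) :
    (fv (vl a) (vl b) (vl c) (vl d) (vl e) (vl v)).z i j = (24 : ℤ) •
      (v i • (ix e * Ph a b c d j) - v j • (ix e * Ph a b c d i) +
        (e i * v j - e j * v i) • (ix a * ix b * ix c * ix d)) := by
  have r1 := ix_anti b a
  have r2 := ix_anti c a
  have r3 := ix_anti d a
  have r4 := ix_anti c b
  have r5 := ix_anti d b
  have r6 := ix_anti d c
  have r7 := ix_anti v a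
  have r8 := ix_anti v b
  have r9 := ix_anti v c
  have r10 := ix_anti v d
  have r11 := ix_anti e a
  have r12 := ix_anti e b
  have r13 := ix_anti e c
  have r14 := ix_anti e d
  have s1 := fun t => sw2 a b t
  have s2 := fun t => sw2 a c t
  have s3 := fun t => sw2 a d t
  have s4 := fun t => sw2 b c t
  have s5 := fun t => sw2 b d t
  have s6 := fun t => sw2 c d t
  have s7 := fun t => sw2 a v t
  have s8 := fun t => sw2 b v t
  have s9 := fun t => sw2 c v t
  have s10 := fun t => sw2 d v t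
  have s11 := fun t => sw2 a e t
  have s12 := fun t => sw2 b e t
  have s13 := fun t => sw2 c e t
  have s14 := fun t => sw2 d e t
  unfold fv
  rw [z_sub, P108_z' (v_mul _ _), mul_vl_z (P108_v _ _ _ _ _), P108_w, P108_w]
  have e1 : ∀ k, (vl v * vl e).w k = e k • ix v - v k • ix e := by
    intro k
    simp [w_mul]
  rw [e1, e1]
  simp only [Ph, map_add, map_sub, map_neg, map_smul, map_zsmul, rv_mul, rv_ix,
    neg_zero, mul_add, add_mul, mul_sub, sub_mul, neg_mul, mul_neg, neg_neg, smul_neg,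
    smul_mul_assoc, mul_smul_comm]
  simp only [mul_assoc, r1, r2, r3, r4, r5, r6, r7, r8, r9, r10, r11, r12, r13, r14,
    s1, s2, s3, s4, s5, s6, s7, s8, s9, s10, s11, s12, s13, s14,
    mul_neg, neg_mul, neg_neg, smul_neg]
  module

theorem hom_P108 {A : Type*} {B : Type*} [NonUnitalNonAssocRing A] [Module F A]
    [NonUnitalNonAssocRing B] [Module F B] (f : A →ₙₐ[F] B) (a b c d x : A) :
    f (P108 a b c d x) = P108 (f a) (f b) (f c) (f d) (f x) := by
  simp only [P108, Jac, map_add, map_sub, map_mul, CPhiAux.hom_nsmul]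

theorem hom_cc {A : Type*} {B : Type*} [NonUnitalNonAssocRing A] [Module F A]
    [NonUnitalNonAssocRing B] [Module F B] (f : A →ₙₐ[F] B) (x0 x1 x2 x3 x4 x5 : A) :
    f (cc x0 x1 x2 x3 x4 x5) = cc (f x0) (f x1) (f x2) (f x3) (f x4) (f x5) := by
  simp only [cc, fv, map_add, map_sub, map_mul, hom_P108]

theorem hom_mr {A : Type*} {B : Type*} [NonUnitalNonAssocRing A] [Module F A]
    [NonUnitalNonAssocRing B] [Module F B] (f : A →ₙₐ[F] B) (a b : A) (t : List A) :
    f (mr a b t) = mr (f a) (f b) (t.map f) := by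
  induction t with
  | nil => simp only [mr_nil, map_mul, List.map_nil]
  | cons x t ih => rw [mr_cons, map_mul, ih, List.map_cons, mr_cons]

theorem mr_v (a b : Bh F) (t : List (Bh F)) : (mr a b t).v = 0 := by
  cases t with
  | nil => rfl
  | cons x t => rfl

theorem mr_w (a b : Bh F) (t : List ℕ) (i : ℕ) :
    (mr a b (t.map (lt F))).w i = (a * b).w i * px F t.reverse := by
  induction t with
  | nil =>
    rw [List.map_nil, mr_nil, List.reverse_nil, px_nil, mul_one]
  | cons x t ih =>
    rw [List.map_cons, mr_cons]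
    unfold lt
    rw [mul_vl_w (mr_v _ _ _), List.reverse_cons, px_append, px_singleton, ← mul_assoc]
    unfold lt at ih
    rw [ih]
    rfl

theorem lt_mul_w (a b i : ℕ) : (lt F a * lt F b).w i =
    (if i = b then xe F a else 0) - (if i = a then xe F b else 0) := by
  unfold lt
  rw [w_mul]
  simp only [v_vl, w_vl, zero_mul, sub_zero, add_zero]
  rw [BhEAux_single, BhEAux_single]
  unfold xe
  split_ifs <;> simp

theorem phi_GF (a b w z p q r s : ℕ) (t : List ℕ) :
    phi F (GF cc ((a :: b :: w :: z :: p :: q :: r :: s :: t).map FreeMalcev.of)) =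
      cc (mr (lt F a) (lt F b) (t.map (lt F))) (lt F w * lt F z) (lt F p) (lt F q) (lt F r)
        (lt F s) := by
  simp only [List.map_cons, GF]
  rw [hom_cc, hom_mr, map_mul, List.map_map]
  simp only [phi_of]
  congr 2
  exact List.map_congr_left fun i _ => phi_of F i

end BhCAux

open BhCAux

/-- the value of `c` for two elements without `v`-part and four vectors -/
theorem cc_z {q q' : Bh F} (hq : q.v = 0) (hq' : q'.v = 0) (e1 e2 e3 e4 : VL F) (i j : ℕ) :
    (cc q q' (vl e1) (vl e2) (vl e3) (vl e4)).z i j =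
      (-48 : ℤ) • (q'.w j * (ix e1 * ix e2 * ix e3 * ix e4) * rv (q.w i) -
        q.w j * (ix e1 * ix e2 * ix e3 * ix e4) * rv (q'.w i)) := by
  have k1 : ∀ (a b c d : VL F), fv q q' (vl a) (vl b) (vl c) (vl d) = 0 := by
    intro a b c d
    unfold fv
    rw [P108_zero3 hq hq' (v_mul _ _), mul_eq_zero' (P108_v _ _ _ _ _) (P108_w2 hq hq' a b d),
      sub_zero]
  have k2 : ∀ {p p' : Bh F}, p.v = 0 → p'.v = 0 → fv p (vl e1) (vl e2) (vl e3) (vl e4) p' =
      P108 p (vl e1) (vl e2) (vl e3) (p' * vl e4) := by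
    intro p p' hp hp'
    unfold fv
    rw [mul_eq_zero' (P108_v _ _ _ _ _) (P108_w2' hp hp' e1 e2 e3), sub_zero]
  unfold cc
  rw [k1, k1, k1, k1, k2 hq' hq, k2 hq hq']
  simp only [sub_zero, add_zero, z_sub]
  rw [P108_z hq' (v_mul _ _), P108_z hq (v_mul _ _), mul_vl_w hq, mul_vl_w hq, mul_vl_w hq',
    mul_vl_w hq']
  have r1 := ix_anti e4 e1
  have r2 := ix_anti e4 e2
  have r3 := ix_anti e4 e3
  have s1 := fun t => sw2 e1 e4 t
  have s2 := fun t => sw2 e2 e4 t
  have s3 := fun t => sw2 e3 e4 t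
  simp only [rv_mul, rv_ix, mul_assoc, r1, r2, r3, s1, s2, s3, mul_neg, neg_mul, neg_neg]
  module

namespace BhCAux

theorem phi_GF_z' (a b w z p q r s : ℕ) (t : List ℕ) (i j : ℕ) :
    (phi F (GF cc ((a :: b :: w :: z :: p :: q :: r :: s :: t).map FreeMalcev.of))).z i j =
      (-48 : ℤ) • (((if j = z then xe F w else 0) - (if j = w then xe F z else 0)) *
        (xe F p * xe F q * xe F r * xe F s) * (px F t * rv ((if i = b then xe F a else 0) -
          (if i = a then xe F b else 0))) -
        (((if j = b then xe F a else 0) - (if j = a then xe F b else 0)) * px F t.reverse) *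
        (xe F p * xe F q * xe F r * xe F s) * rv ((if i = z then xe F w else 0) -
          (if i = w then xe F z else 0))) := by
  rw [phi_GF]
  have h := cc_z (mr_v (lt F a) (lt F b) (t.map (lt F))) (v_mul (lt F w) (lt F z))
    (Finsupp.single p 1) (Finsupp.single q 1) (Finsupp.single r 1) (Finsupp.single s 1) i j
  rw [mr_w, mr_w, lt_mul_w, lt_mul_w, lt_mul_w, lt_mul_w] at h
  refine h.trans ?_
  rw [rv_mul (_ - _) (px F t.reverse), rv_px, List.reverse_reverse]
  rfl

end BhCAux

/-- products of the letters in the exterior algebra -/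
noncomputable def pl (F : Type u) [Field F] (l : List ℕ) : Ex F :=
  (l.map fun i => ix (Finsupp.single i (1 : F))).prod

theorem pl_eq_px (l : List ℕ) : pl F l = px F l := rfl

theorem pl_skew (n : ℕ) : SkewL n (pl F) := px_skew F n

theorem pl_ne {l : List ℕ} (h : l.Nodup) : pl F l ≠ 0 := px_ne_zero F h

/-- the z-components of the values at letters: the pairs `a`, `w` -/
theorem phi_GF_z (a b w z : ℕ) (U : List ℕ) (hU : 4 ≤ U.length) (h : (a :: b :: w :: z :: U).Nodup) :
    (phi F (GF cc ((a :: b :: w :: z :: U).map FreeMalcev.of))).z a w =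
      (-48 : ℤ) • pl F (z :: (U ++ [b])) := by
  obtain ⟨p, q, r, s, t, rfl⟩ : ∃ p q r s t, U = p :: q :: r :: s :: t := by
    match U, hU with
    | p :: q :: r :: s :: t, _ => exact ⟨p, q, r, s, t, rfl⟩
  have hab : a ≠ b := by
    rintro rfl
    simp at h
  have haw : a ≠ w := by
    rintro rfl
    simp at h
  have haz : a ≠ z := by
    rintro rfl
    simp at h
  have hbw : b ≠ w := by
    rintro rfl
    simp at h
  have hwz : w ≠ z := by
    rintro rfl
    simp at h
  rw [phi_GF_z', if_neg hwz, if_pos rfl, if_neg hab, if_pos rfl, if_neg (Ne.symm hbw),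
    if_neg (Ne.symm haw), if_neg haz, if_neg haw, pl_eq_px]
  simp only [zero_sub, sub_zero, map_neg, zero_mul, mul_neg, neg_mul, neg_neg, map_zero, mul_zero]
  rw [px_cons, px_append, px_singleton]
  simp only [px_cons, xe, rv_ix, mul_assoc]

/-- the z-components of the values at letters: the pairs not joining `{a,b}` and `{w,z}` -/
theorem phi_GF_z0 (a b w z : ℕ) (U : List ℕ) (hU : 4 ≤ U.length) (h : (a :: b :: w :: z :: U).Nodup)
    (i j : ℕ) (h1 : ¬ ((i = a ∨ i = b) ∧ (j = w ∨ j = z))) (h2 : ¬ ((i = w ∨ i = z) ∧ (j = a ∨ j = b))) :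
    (phi F (GF cc ((a :: b :: w :: z :: U).map FreeMalcev.of))).z i j = 0 := by
  obtain ⟨p, q, r, s, t, rfl⟩ : ∃ p q r s t, U = p :: q :: r :: s :: t := by
    match U, hU with
    | p :: q :: r :: s :: t, _ => exact ⟨p, q, r, s, t, rfl⟩
  rw [phi_GF_z']
  have e1 : ((if j = z then xe F w else 0) - (if j = w then xe F z else 0) : Ex F) = 0 ∨
      ((if i = b then xe F a else 0) - (if i = a then xe F b else 0) : Ex F) = 0 := by
    by_cases h3 : i = a ∨ i = b
    · left
      have h4 : ¬ (j = w ∨ j = z) := fun h4 => h1 ⟨h3, h4⟩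
      rw [not_or] at h4
      rw [if_neg h4.2, if_neg h4.1, sub_zero]
    · right
      rw [not_or] at h3
      rw [if_neg h3.2, if_neg h3.1, sub_zero]
  have e2 : ((if j = b then xe F a else 0) - (if j = a then xe F b else 0) : Ex F) = 0 ∨
      ((if i = z then xe F w else 0) - (if i = w then xe F z else 0) : Ex F) = 0 := by
    by_cases h3 : i = w ∨ i = z
    · left
      have h4 : ¬ (j = a ∨ j = b) := fun h4 => h2 ⟨h3, h4⟩
      rw [not_or] at h4
      rw [if_neg h4.2, if_neg h4.1, sub_zero]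
    · right
      rw [not_or] at h3
      rw [if_neg h3.2, if_neg h3.1, sub_zero]
  rcases e1 with e1 | e1 <;> rcases e2 with e2 | e2 <;> rw [e1, e2] <;> simp

/-- six letters -/
theorem phi_cc6 (x0 x1 x2 x3 x4 x5 : ℕ) (h : [x0, x1, x2, x3, x4, x5].Nodup) :
    (phi F (cc (FreeMalcev.of x0) (FreeMalcev.of x1) (FreeMalcev.of x2) (FreeMalcev.of x3)
      (FreeMalcev.of x4) (FreeMalcev.of x5))).z x0 x1 = (-48 : ℤ) • pl F [x2, x3, x4, x5] := by
  simp only [List.nodup_cons, List.mem_cons, List.not_mem_nil, or_false, not_or,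
    not_false_eq_true, List.nodup_nil, and_true] at h
  obtain ⟨⟨h01, h02, h03, h04, h05⟩, ⟨h12, h13, h14, h15⟩, -⟩ := h
  rw [hom_cc]
  simp only [phi_of]
  unfold lt cc
  rw [z_sub, z_add, z_sub, z_add, z_sub]
  simp only [fv_z, Ph]
  have e00 : (Finsupp.single x0 (1 : F)) x0 = 1 := Finsupp.single_eq_same
  have e11 : (Finsupp.single x1 (1 : F)) x1 = 1 := Finsupp.single_eq_same
  have e01 : (Finsupp.single x0 (1 : F)) x1 = 0 := Finsupp.single_eq_of_ne (Ne.symm h01)
  have e10 : (Finsupp.single x1 (1 : F)) x0 = 0 := Finsupp.single_eq_of_ne h01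
  have e20 : (Finsupp.single x2 (1 : F)) x0 = 0 := Finsupp.single_eq_of_ne h02
  have e30 : (Finsupp.single x3 (1 : F)) x0 = 0 := Finsupp.single_eq_of_ne h03
  have e40 : (Finsupp.single x4 (1 : F)) x0 = 0 := Finsupp.single_eq_of_ne h04
  have e50 : (Finsupp.single x5 (1 : F)) x0 = 0 := Finsupp.single_eq_of_ne h05
  have e21 : (Finsupp.single x2 (1 : F)) x1 = 0 := Finsupp.single_eq_of_ne h12
  have e31 : (Finsupp.single x3 (1 : F)) x1 = 0 := Finsupp.single_eq_of_ne h13
  have e41 : (Finsupp.single x4 (1 : F)) x1 = 0 := Finsupp.single_eq_of_ne h14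
  have e51 : (Finsupp.single x5 (1 : F)) x1 = 0 := Finsupp.single_eq_of_ne h15
  simp only [e00, e11, e01, e10, e20, e30, e40, e50, e21, e31, e41, e51, one_smul, zero_smul,
    sub_zero, zero_sub, add_zero, zero_add, mul_zero, zero_mul, mul_one, smul_zero, neg_zero]
  rw [pl_eq_px]
  simp only [px_cons, px_nil, mul_one, xe]
  have r1 := ix_anti (Finsupp.single x5 (1 : F)) (Finsupp.single x2 (1 : F))
  have r2 := ix_anti (Finsupp.single x5 (1 : F)) (Finsupp.single x3 (1 : F))
  have r3 := ix_anti (Finsupp.single x5 (1 : F)) (Finsupp.single x4 (1 : F))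
  have s1 := fun t => sw2 (Finsupp.single x2 (1 : F)) (Finsupp.single x5 (1 : F)) t
  have s2 := fun t => sw2 (Finsupp.single x3 (1 : F)) (Finsupp.single x5 (1 : F)) t
  have s3 := fun t => sw2 (Finsupp.single x4 (1 : F)) (Finsupp.single x5 (1 : F)) t
  simp only [mul_assoc, r1, r2, r3, s1, s2, s3, mul_neg, neg_mul, neg_neg]
  module

end Z5

end Pool.Agent.MalP
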