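import Pool.Agent.MalP.CPhi
import Pool.Agent.MalP.P5.Fv
import Pool.Agent.MalP.Z5.Defs
import Pool.Agent.MalP.Z5.BhC

/-! # The values of `c` at one element without `v`-part and five vectors in the model algebra -/

set_option autoImplicit false
set_option linter.unusedSimpArgs false

namespace Pool.Agent.MalP

universe u

variable {F : Type u} [Field F]

namespace Z5

open Bh

namespace BhC7Aux

open BhCAux

/-- the `w`-part of `P108` for an element without `v`-part in the first place and four vectors -/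
theorem P108_w3 {q : Bh F} (hq : q.v = 0) (b c d v : VL F) (i : ℕ) :
    (P108 q (vl b) (vl c) (vl d) (vl v)).w i = (-24 : ℤ) • (q.w i * (ix b * ix c * ix d * ix v)) := by
  have r1 := ix_anti c b
  have r2 := ix_anti d b
  have r3 := ix_anti d c
  have r4 := ix_anti v b
  have r5 := ix_anti v c
  have r6 := ix_anti v d
  have s1 := fun t => sw2 b c t
  have s2 := fun t => sw2 b d t
  have s3 := fun t => sw2 c d t
  have s4 := fun t => sw2 b v t
  have s5 := fun t => sw2 c v t
  have s6 := fun t => sw2 d v t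
  simp only [P108, Jac, w_add, w_sub, BhEAux.w_nsmul, w_mul, v_mul, v_add, v_vl, w_vl, hq,
    Finsupp.coe_zero, Pi.zero_apply, zero_smul, smul_zero, mul_zero, zero_mul, map_zero,
    sub_zero, zero_sub, zero_add, add_zero, neg_zero,
    mul_add, add_mul, mul_sub, sub_mul, neg_mul, mul_neg, neg_neg, smul_neg]
  simp only [mul_assoc, r1, r2, r3, r4, r5, r6, s1, s2, s3, s4, s5, s6, mul_neg, neg_mul, neg_neg,
    smul_neg]
  module

/-- the `w`-part of `P108` for four vectors and an element without `v`-part -/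
theorem P108_w4 {x : Bh F} (hx : x.v = 0) (a b c d : VL F) (i : ℕ) :
    (P108 (vl a) (vl b) (vl c) (vl d) x).w i = (24 : ℤ) • (x.w i * (ix a * ix b * ix c * ix d)) := by
  have r1 := ix_anti b a
  have r2 := ix_anti c a
  have r3 := ix_anti d a
  have r4 := ix_anti c b
  have r5 := ix_anti d b
  have r6 := ix_anti d c
  have s1 := fun t => sw2 a b t
  have s2 := fun t => sw2 a c t
  have s3 := fun t => sw2 a d t
  have s4 := fun t => sw2 b c t
  have s5 := fun t => sw2 b d t
  have s6 := fun t => sw2 c d t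
  simp only [P108, Jac, w_add, w_sub, BhEAux.w_nsmul, w_mul, v_mul, v_add, v_vl, w_vl, hx,
    Finsupp.coe_zero, Pi.zero_apply, zero_smul, smul_zero, mul_zero, zero_mul, map_zero,
    sub_zero, zero_sub, zero_add, add_zero, neg_zero,
    mul_add, add_mul, mul_sub, sub_mul, neg_mul, mul_neg, neg_neg, smul_neg]
  simp only [mul_assoc, r1, r2, r3, r4, r5, r6, s1, s2, s3, s4, s5, s6, mul_neg, neg_mul, neg_neg,
    smul_neg]
  module

/-- `f` for an element without `v`-part in the first place and five vectors -/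
theorem fv_z1 {q : Bh F} (hq : q.v = 0) (a b c d v : VL F) (i j : ℕ) :
    (fv q (vl a) (vl b) (vl c) (vl d) (vl v)).z i j =
      (24 : ℤ) • (v i • (q.w j * (ix a * ix b * ix c * ix d)) -
        v j • (ix a * ix b * ix c * ix d * rv (q.w i))) := by
  have e1 : ∀ k, (vl v * vl d).w k = d k • ix v - v k • ix d := by
    intro k
    simp [w_mul]
  have r1 := ix_anti b a
  have r2 := ix_anti c a
  have r3 := ix_anti d a
  have r4 := ix_anti c b
  have r5 := ix_anti d b
  have r6 := ix_anti d c
  have r7 := ix_anti v a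
  have r8 := ix_anti v b
  have r9 := ix_anti v c
  have r10 := ix_anti v d
  have s1 := fun t => sw2 a b t
  have s2 := fun t => sw2 a c t
  have s3 := fun t => sw2 a d t
  have s4 := fun t => sw2 b c t
  have s5 := fun t => sw2 b d t
  have s6 := fun t => sw2 c d t
  have s7 := fun t => sw2 a v t
  have s8 := fun t => sw2 b v t
  have s9 := fun t => sw2 c v t
  have s10 := fun t => sw2 d v t
  unfold fv
  rw [z_sub, P108_z hq (v_mul _ _), mul_vl_z (P108_v _ _ _ _ _), P108_w3 hq, P108_w3 hq, e1, e1]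
  simp only [map_add, map_sub, map_neg, map_smul, map_zsmul, rv_mul, rv_ix, sub_mul, mul_sub,
    smul_mul_assoc, mul_smul_comm]
  simp only [mul_assoc, r1, r2, r3, r4, r5, r6, r7, r8, r9, r10, s1, s2, s3, s4, s5, s6, s7, s8, s9,
    s10, mul_neg, neg_mul, neg_neg, smul_neg]
  module

/-- `f` for five vectors and an element without `v`-part in the last place -/
theorem fv_z2 {q : Bh F} (hq : q.v = 0) (a b c d e : VL F) (i j : ℕ) :
    (fv (vl a) (vl b) (vl c) (vl d) (vl e) q).z i j =
      (24 : ℤ) • (q.w j * (ix e * Ph a b c d i) + Ph a b c d j * (ix e * rv (q.w i)) -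
        e i • (q.w j * (ix a * ix b * ix c * ix d)) + e j • (ix a * ix b * ix c * ix d * rv (q.w i))) := by
  have r1 := ix_anti b a
  have r2 := ix_anti c a
  have r3 := ix_anti d a
  have r4 := ix_anti c b
  have r5 := ix_anti d b
  have r6 := ix_anti d c
  have s1 := fun t => sw2 a b t
  have s2 := fun t => sw2 a c t
  have s3 := fun t => sw2 a d t
  have s4 := fun t => sw2 b c t
  have s5 := fun t => sw2 b d t
  have s6 := fun t => sw2 c d t
  unfold fv
  rw [z_sub, P108_z' (v_mul _ _), mul_vl_z (P108_v _ _ _ _ _), P108_w4 hq, P108_w4 hq,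
    mul_vl_w hq, mul_vl_w hq]
  have h1 : rv (ix a * ix b * ix c * ix d : Ex F) = ix a * ix b * ix c * ix d := by
    simp only [rv_mul, rv_ix, mul_assoc, r1, r2, r3, r4, r5, r6, s1, s2, s3, s4, s5, s6, mul_neg,
      neg_mul, neg_neg]
  rw [rv_mul, rv_ix, map_zsmul, rv_mul, h1]
  simp only [mul_assoc]
  module

end BhC7Aux

open BhCAux BhC7Aux in
/-- the value of `c` for an element without `v`-part and five vectors -/
theorem cc_z1 {q : Bh F} (hq : q.v = 0) (e1 e2 e3 e4 e5 : VL F) (i j : ℕ) :
    (cc q (vl e1) (vl e2) (vl e3) (vl e4) (vl e5)).z i j =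
      (48 : ℤ) • ((e1 j • (ix e2 * ix e3 * ix e4 * ix e5 * rv (q.w i)) -
          e1 i • (q.w j * (ix e2 * ix e3 * ix e4 * ix e5))) -
        (e2 j • (ix e1 * ix e3 * ix e4 * ix e5 * rv (q.w i)) -
          e2 i • (q.w j * (ix e1 * ix e3 * ix e4 * ix e5))) +
        (e3 j • (ix e1 * ix e2 * ix e4 * ix e5 * rv (q.w i)) -
          e3 i • (q.w j * (ix e1 * ix e2 * ix e4 * ix e5))) -
        (e4 j • (ix e1 * ix e2 * ix e3 * ix e5 * rv (q.w i)) -
          e4 i • (q.w j * (ix e1 * ix e2 * ix e3 * ix e5))) +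
        (e5 j • (ix e1 * ix e2 * ix e3 * ix e4 * rv (q.w i)) -
          e5 i • (q.w j * (ix e1 * ix e2 * ix e3 * ix e4)))) := by
  have r1 := ix_anti e5 e1
  have r2 := ix_anti e5 e2
  have r3 := ix_anti e5 e3
  have r4 := ix_anti e5 e4
  have s1 := fun t => sw2 e1 e5 t
  have s2 := fun t => sw2 e2 e5 t
  have s3 := fun t => sw2 e3 e5 t
  have s4 := fun t => sw2 e4 e5 t
  unfold cc
  rw [z_sub, z_add, z_sub, z_add, z_sub, fv_z2 hq, fv_z1 hq, fv_z1 hq, fv_z1 hq, fv_z1 hq, fv_z1 hq]
  simp only [Ph, mul_add, add_mul, mul_sub, sub_mul, smul_mul_assoc, mul_smul_comm]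
  simp only [mul_assoc, r1, r2, r3, r4, s1, s2, s3, s4, mul_neg, neg_mul, neg_neg, smul_neg]
  module

end Z5

end Pool.Agent.MalP
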