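import Pool.Agent.MalP.Z5.Final
import Pool.Agent.MalP.Z5.BhC7
import Pool.Agent.MalP.W5.N

/-! # Characteristic 5: the elements of degree 7 -/

set_option autoImplicit false

open scoped BigOperators

namespace Pool.Agent.MalP

namespace Z5

universe u

namespace Z7Aux

open SgnAux

/-- renaming of two letters -/
theorem skew_rename {B : Type*} [AddCommGroup B] {n : ℕ} {f : List ℕ → B} (hf : SkewL n f)
    {l : List ℕ} (hl : l.length = n) (hn : l.Nodup) {i j : ℕ} (hi : i ∈ l) (hj : j ∈ l)
    (hij : i ≠ j) : f (l.map (Equiv.swap i j)) = - f l := by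
  have key : ∀ i j : ℕ, i ≠ j → ∀ l1 l2 l3 : List ℕ, (l1 ++ i :: (l2 ++ j :: l3)).length = n →
      (l1 ++ i :: (l2 ++ j :: l3)).Nodup →
      f ((l1 ++ i :: (l2 ++ j :: l3)).map (Equiv.swap i j)) = - f (l1 ++ i :: (l2 ++ j :: l3)) := by
    intro i j hij l1 l2 l3 hl hn
    have hm : ∀ t : List ℕ, (∀ x ∈ t, x ≠ i ∧ x ≠ j) → t.map (Equiv.swap i j) = t := by
      intro t ht
      conv_rhs => rw [← List.map_id t]
      apply List.map_congr_left
      intro x hx
      exact Equiv.swap_apply_of_ne_of_ne (ht x hx).1 (ht x hx).2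
    have hn' := hn
    rw [List.nodup_middle, List.nodup_cons, ← List.append_assoc, List.nodup_middle,
      List.nodup_cons] at hn'
    obtain ⟨h1, h2, h3⟩ := hn'
    have h1' : i ∉ l1 ∧ i ∉ l2 ∧ i ∉ l3 := by
      simp only [List.mem_append, List.mem_cons, not_or] at h1
      tauto
    have h2' : j ∉ l1 ∧ j ∉ l2 ∧ j ∉ l3 := by
      simp only [List.mem_append, not_or] at h2
      tauto
    have e1 := hm l1 fun x hx => ⟨fun h => h1'.1 (h ▸ hx), fun h => h2'.1 (h ▸ hx)⟩
    have e2 := hm l2 fun x hx => ⟨fun h => h1'.2.1 (h ▸ hx), fun h => h2'.2.1 (h ▸ hx)⟩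
    have e3 := hm l3 fun x hx => ⟨fun h => h1'.2.2 (h ▸ hx), fun h => h2'.2.2 (h ▸ hx)⟩
    rw [List.map_append, List.map_cons, List.map_append, List.map_cons, e1, e2, e3,
      Equiv.swap_apply_left, Equiv.swap_apply_right]
    rw [hf.swap l1 l2 l3 i j hl, neg_neg]
  obtain ⟨s, t, rfl⟩ := List.append_of_mem hi
  rcases List.mem_append.mp hj with h | h
  · obtain ⟨s1, s2, rfl⟩ := List.append_of_mem h
    have e : (s1 ++ j :: s2) ++ i :: t = s1 ++ j :: (s2 ++ i :: t) := by
      rw [List.append_assoc, List.cons_append]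
    rw [e] at hl hn ⊢
    rw [Equiv.swap_comm]
    exact key j i hij.symm s1 s2 t hl hn
  · rcases List.mem_cons.mp h with h | h
    · exact absurd h.symm hij
    · obtain ⟨t1, t2, rfl⟩ := List.append_of_mem h
      exact key i j hij s t1 t2 hl hn

/-- linear algebra on the complete graph with seven vertices in characteristic 5 -/
theorem graph {F N : Type*} [Field F] (h5 : (5 : F) = 0) (h2 : (2 : F) ≠ 0) [Fintype N]
    [DecidableEq N] (hN : Fintype.card N = 7) (c : N → N → F) (h0 : ∀ a, c a a = 0)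
    (h : ∀ i j, i ≠ j → ∑ a, ∑ b, c a b * (if (a = i ∨ a = j) ↔ (b = i ∨ b = j) then 0 else 1) = 0) :
    ∃ t : F, ∀ a b, a ≠ b → c a b + c b a = t := by
  set R : N → F := fun a => ∑ b, (c a b + c b a) with hR
  have h1 : ∀ i j, i ≠ j → R i + R j = 2 * (c i j + c j i) := by
    intro i j hij
    have h3 : ∀ a b, (if (a = i ∨ a = j) ↔ (b = i ∨ b = j) then (0 : F) else 1) =
        ((if a = i then 1 else 0) + (if a = j then 1 else 0)) +
        ((if b = i then 1 else 0) + (if b = j then 1 else 0)) -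
        2 * (((if a = i then 1 else 0) + (if a = j then 1 else 0)) *
          ((if b = i then 1 else 0) + (if b = j then 1 else 0))) := by
      intro a b
      by_cases ha : a = i
      · have ha' : a ≠ j := by rw [ha]; exact hij
        by_cases hb : b = i
        · have hb' : b ≠ j := by rw [hb]; exact hij
          simp [ha, hb, hij]; ring
        · by_cases hb' : b = j
          · simp [ha, hb', hij, hij.symm]; ring
          · simp [ha, hb, hb', hij]
      · by_cases ha' : a = j
        · by_cases hb : b = i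
          · simp [ha', hb, hij, hij.symm]; ring
          · by_cases hb' : b = j
            · simp [ha', hb', hij.symm]; ring
            · simp [ha', hb, hb', hij.symm]
        · by_cases hb : b = i
          · simp [ha, ha', hb, hij]
          · by_cases hb' : b = j
            · simp [ha, ha', hb', hij.symm]
            · simp [ha, ha', hb, hb']
    have h4 := h i j hij
    simp only [h3] at h4
    have h5 : ∀ a b, c a b * (((if a = i then 1 else 0) + (if a = j then 1 else 0)) +
        ((if b = i then 1 else 0) + (if b = j then 1 else 0)) -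
        2 * (((if a = i then 1 else 0) + (if a = j then 1 else 0)) *
          ((if b = i then 1 else 0) + (if b = j then 1 else 0)))) =
        (if a = i then c a b else 0) + (if a = j then c a b else 0) +
        ((if b = i then c a b else 0) + (if b = j then c a b else 0)) -
        2 * ((if a = i then (if b = i then c a b else 0) else 0) +
          (if a = i then (if b = j then c a b else 0) else 0) +
          (if a = j then (if b = i then c a b else 0) else 0) +
          (if a = j then (if b = j then c a b else 0) else 0)) := by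
      intro a b
      split_ifs <;> ring
    simp only [h5, Finset.sum_add_distrib, Finset.sum_sub_distrib, ← Finset.mul_sum,
      Finset.sum_ite_eq', Finset.mem_univ, if_true] at h4
    have h6 : ∀ k, (∑ a, ∑ b, if a = k then c a b else 0) = ∑ b, c k b := by
      intro k
      rw [Finset.sum_eq_single k]
      · simp
      · intro a _ hak
        simp [hak]
      · intro hk
        exact absurd (Finset.mem_univ k) hk
    have h7 : ∀ k l, (∑ a, ∑ b, if a = k then (if b = l then c a b else 0) else 0) = c k l := by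
      intro k l
      rw [Finset.sum_eq_single k]
      · simp
      · intro a _ hak
        simp [hak]
      · intro hk
        exact absurd (Finset.mem_univ k) hk
    rw [h6, h6, h7, h7, h7, h7, h0, h0] at h4
    show (∑ b, (c i b + c b i)) + (∑ b, (c j b + c b j)) = _
    rw [Finset.sum_add_distrib, Finset.sum_add_distrib]
    linear_combination h4
  have h8 : ∀ i, 2 * R i = ∑ j, R j := by
    intro i
    have h9 : ∑ j ∈ Finset.univ.erase i, (R i + R j) = ∑ j ∈ Finset.univ.erase i, 2 * (c i j + c j i) :=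
      Finset.sum_congr rfl fun j hj => h1 i j (Finset.ne_of_mem_erase hj).symm
    rw [Finset.sum_add_distrib, Finset.sum_const, Finset.card_erase_of_mem (Finset.mem_univ i),
      Finset.card_univ, hN, ← Finset.mul_sum] at h9
    have h10 : ∑ j ∈ Finset.univ.erase i, R j = ∑ j, R j - R i := by
      rw [← Finset.sum_erase_add _ _ (Finset.mem_univ i)]
      ring
    have h11 : ∑ j ∈ Finset.univ.erase i, (c i j + c j i) = R i := by
      show _ = ∑ b, (c i b + c b i)
      rw [← Finset.sum_erase_add _ _ (Finset.mem_univ i), h0]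
      ring
    rw [h10, h11] at h9
    simp only [nsmul_eq_mul] at h9
    push_cast at h9
    linear_combination (-1 : F) * h9 + R i * h5
  refine ⟨2⁻¹ * ∑ j, R j, ?_⟩
  intro a b hab
  have h9 := h1 a b hab
  have h10 := h8 a
  have h11 := h8 b
  have h12 : 2 * (2 * (c a b + c b a)) = 2 * ∑ j, R j := by
    rw [← h9]
    linear_combination h10 + h11
  have h13 := mul_left_cancel₀ h2 h12
  rw [← h13, ← mul_assoc, inv_mul_cancel₀ h2, one_mul]

/-- `c (a b) x1 .. x5` as a function of the list -/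
def GB {A B : Type*} [Mul A] [Zero B] (c : A → A → A → A → A → A → B) : List A → B
  | [a, b, x1, x2, x3, x4, x5] => c (a * b) x1 x2 x3 x4 x5
  | _ => 0

section

variable {A B : Type*} [NonUnitalNonAssocRing A] [AddCommGroup B] {c : A → A → A → A → A → A → B}

theorem GB_swap (h : CA c) (a b : A) (U : List A) : GB c (b :: a :: U) = - GB c (a :: b :: U) := by
  match U with
  | [x1, x2, x3, x4, x5] =>
    show c (b * a) x1 x2 x3 x4 x5 = - c (a * b) x1 x2 x3 x4 x5
    rw [h.anti, h.n0]
  | [] => exact neg_zero.symm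
  | [_] => exact neg_zero.symm
  | [_, _] => exact neg_zero.symm
  | [_, _, _] => exact neg_zero.symm
  | [_, _, _, _] => exact neg_zero.symm
  | _ :: _ :: _ :: _ :: _ :: _ :: _ => exact neg_zero.symm

theorem GB_skew (h : CA c) (a b : A) (l1 : List A) (x y : A) (l2 : List A)
    (hl : (l1 ++ x :: y :: l2).length = 5) :
    GB c (a :: b :: (l1 ++ x :: y :: l2)) = - GB c (a :: b :: (l1 ++ y :: x :: l2)) := by
  match l1, l2, hl with
  | [], [p, q, r], _ => exact h.s12 _ _ _ _ _ _
  | [p], [q, r], _ => exact h.s23 _ _ _ _ _ _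
  | [p, q], [r], _ => exact h.s34 _ _ _ _ _ _
  | [p, q, r], [], _ => exact h.s45 _ _ _ _ _ _
  | [], [], h => simp at h
  | [], [_], h => simp at h
  | [], [_, _], h => simp at h
  | [], _ :: _ :: _ :: _ :: _, h => simp at h
  | [_], [], h => simp at h
  | [_], [_], h => simp at h
  | [_], _ :: _ :: _ :: _, h => simp at h
  | [_, _], [], h => simp at h
  | [_, _], _ :: _ :: _, h => simp at h
  | [_, _, _], _ :: _, h => simp at h
  | _ :: _ :: _ :: _ :: _, _, h =>
    simp only [List.length_append, List.length_cons] at h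
    omega

end

variable {F : Type u} [Field F]

variable (F) in
/-- the function on the lists of letters -/
noncomputable def gb (l : List ℕ) : FreeMalcev F ℕ := GB (cc (A := FreeMalcev F ℕ)) (l.map FreeMalcev.of)

/-- the rest of the letters -/
noncomputable def rest2 (L : Finset ℕ) (a b : ℕ) : List ℕ := ((L.erase a).erase b).toList

theorem rest2_of {L : Finset ℕ} {a b : ℕ} (ha : a ∈ L) (hb : b ∈ L) (h : a ≠ b) :
    ((a :: b :: rest2 L a b : List ℕ) : Multiset ℕ) = L.val :=
  cons_of ha (cons_of (Finset.mem_erase.2 ⟨h.symm, hb⟩) (by rw [rest2, Finset.coe_toList]))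

variable (F) in
/-- the untwisted elements -/
noncomputable def BB (L : Finset ℕ) (a b : ℕ) : FreeMalcev F ℕ :=
  sg (a :: b :: rest2 L a b) • gb F (a :: b :: rest2 L a b)

/-- invariance -/
theorem sym2 {V : Type*} [AddCommGroup V] {L : Finset ℕ} {G : List ℕ → V} {n : ℕ} (hn : L.card = n + 2)
    (hG : ∀ (a b : ℕ) (l1 : List ℕ) (x y : ℕ) (l2 : List ℕ), (l1 ++ x :: y :: l2).length = n →
      G (a :: b :: (l1 ++ x :: y :: l2)) = - G (a :: b :: (l1 ++ y :: x :: l2)))
    {a b : ℕ} {U U' : List ℕ} (h : ((a :: b :: U : List ℕ) : Multiset ℕ) = L.val)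
    (h' : ((a :: b :: U' : List ℕ) : Multiset ℕ) = L.val) :
    sg (a :: b :: U) • G (a :: b :: U) = sg (a :: b :: U') • G (a :: b :: U') := by
  have hp : U.Perm U' := by
    rw [← Multiset.coe_eq_coe, tail_of (tail_of h), tail_of (tail_of h')]
  have hlen : U.length = n := by
    have := length_of h
    simp only [List.length_cons] at this
    omega
  exact (sym_smul [a, b] (f := fun l => G (a :: b :: l)) (hG a b)).perm hp hlen

theorem gb_skew (hZ : ZM F) (a b : ℕ) (l1 : List ℕ) (x y : ℕ) (l2 : List ℕ)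
    (hl : (l1 ++ x :: y :: l2).length = 5) :
    gb F (a :: b :: (l1 ++ x :: y :: l2)) = - gb F (a :: b :: (l1 ++ y :: x :: l2)) := by
  unfold gb
  simp only [List.map_cons, List.map_append]
  exact GB_skew hZ.ca _ _ _ _ _ _ (by rw [← hl]; simp)

theorem BB_eq (hZ : ZM F) {L : Finset ℕ} (hL : L.card = 7) {a b : ℕ} {U : List ℕ}
    (h : ((a :: b :: U : List ℕ) : Multiset ℕ) = L.val) :
    BB F L a b = sg (a :: b :: U) • gb F (a :: b :: U) := by
  have hn := nodup_of h
  have ha : a ∈ L := (mem_of h).1 (by simp)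
  have hb : b ∈ L := (mem_of h).1 (by simp)
  have hab : a ≠ b := by
    rintro rfl
    simp at hn
  exact sym2 (G := gb F) (n := 5) (by omega) (gb_skew hZ) (rest2_of ha hb hab) h

theorem BB_symm (hZ : ZM F) {L : Finset ℕ} (hL : L.card = 7) {a b : ℕ} (ha : a ∈ L) (hb : b ∈ L)
    (hab : a ≠ b) : BB F L b a = BB F L a b := by
  have h1 := rest2_of ha hb hab
  have h2 : ((b :: a :: rest2 L a b : List ℕ) : Multiset ℕ) = L.val := by
    rw [← h1]
    exact Multiset.coe_eq_coe.2 (List.Perm.swap a b _)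
  rw [BB_eq hZ hL h2, BB_eq hZ hL h1]
  have h3 : gb F (b :: a :: rest2 L a b) = - gb F (a :: b :: rest2 L a b) := by
    unfold gb
    simp only [List.map_cons]
    exact GB_swap hZ.ca _ _ _
  have h4 : sg (b :: a :: rest2 L a b) = - sg (a :: b :: rest2 L a b) := sg_swap [] b a _
  rw [h3, h4, smul_neg, neg_smul, neg_neg]

/-- the value of the `z`-component -/
noncomputable def kap7 (F : Type u) [Field F] (L : Finset ℕ) (i j : ℕ) : Ex F :=
  (48 : ℤ) • (sg (i :: j :: rest2 L i j) • pl F (rest2 L i j))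

theorem kap7_eq {L : Finset ℕ} {i j : ℕ} {U : List ℕ} (h : ((i :: j :: U : List ℕ) : Multiset ℕ) = L.val) :
    kap7 F L i j = (48 : ℤ) • (sg (i :: j :: U) • pl F U) := by
  have hn := nodup_of h
  have hi : i ∈ L := (mem_of h).1 (by simp)
  have hj : j ∈ L := (mem_of h).1 (by simp)
  have hij : i ≠ j := by
    rintro rfl
    simp at hn
  unfold kap7
  congr 1
  exact sym2 (G := fun l => pl F (l.drop 2)) (n := U.length) (by rw [← length_of h]; rfl)
    (fun a b l1 x y l2 hl => pl_skew U.length l1 x y l2 hl) (rest2_of hi hj hij) h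

theorem phi_gb (a b x1 x2 x3 x4 x5 : ℕ) :
    phi F (gb F [a, b, x1, x2, x3, x4, x5]) =
      cc (Bh.lt F a * Bh.lt F b) (Bh.lt F x1) (Bh.lt F x2) (Bh.lt F x3) (Bh.lt F x4) (Bh.lt F x5) := by
  show phi F (cc (FreeMalcev.of a * FreeMalcev.of b) (FreeMalcev.of x1) (FreeMalcev.of x2)
    (FreeMalcev.of x3) (FreeMalcev.of x4) (FreeMalcev.of x5)) = _
  rw [W5.hom_cc, map_mul]
  simp only [phi_of]

theorem sgl (x i : ℕ) : (Finsupp.single x (1 : F)) i = if x = i then 1 else 0 := by
  rw [Finsupp.single_apply]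

theorem z_gb1 {a b j p q r s : ℕ} (h : [a, b, j, p, q, r, s].Nodup) :
    (phi F (gb F [a, b, j, p, q, r, s])).z a j = (-48 : ℤ) • pl F ([p, q, r, s] ++ [b]) := by
  rw [phi_gb]
  unfold Bh.lt
  rw [cc_z1 rfl]
  have hw : (Bh.vl (Finsupp.single a (1 : F)) * Bh.vl (Finsupp.single b (1 : F))).w a =
      - ix (Finsupp.single b (1 : F)) := by
    rw [Bh.w_mul]
    simp only [Bh.v_vl, Bh.w_vl, sgl]
    simp only [List.nodup_cons, List.mem_cons, List.not_mem_nil, or_false, not_or, not_false_eq_true,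
      List.nodup_nil, and_true] at h
    rw [if_neg (Ne.symm h.1.1)]
    simp
  rw [hw]
  simp only [List.nodup_cons, List.mem_cons, List.not_mem_nil, or_false, not_or, not_false_eq_true,
    List.nodup_nil, and_true] at h
  obtain ⟨⟨h1, h2, h3, h4, h5, h6⟩, ⟨h7, h8, h9, h10, h11⟩, ⟨h12, h13, h14, h15⟩, _⟩ := h
  simp only [sgl, if_neg (Ne.symm h2), if_neg (Ne.symm h3), if_neg (Ne.symm h4), if_neg (Ne.symm h5),
    if_neg (Ne.symm h6), if_neg (Ne.symm h12), if_neg (Ne.symm h13), if_neg (Ne.symm h14),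
    if_neg (Ne.symm h15), if_true, one_smul, zero_smul, sub_zero, add_zero, map_neg, rv_ix, mul_neg,
    smul_neg, neg_smul]
  unfold pl
  simp [mul_assoc]

theorem z_gb2 {a b i p q r s : ℕ} (h : [a, b, i, p, q, r, s].Nodup) :
    (phi F (gb F [a, b, i, p, q, r, s])).z i a = (48 : ℤ) • pl F (b :: [p, q, r, s]) := by
  rw [phi_gb]
  unfold Bh.lt
  rw [cc_z1 rfl]
  have hw : (Bh.vl (Finsupp.single a (1 : F)) * Bh.vl (Finsupp.single b (1 : F))).w a =
      - ix (Finsupp.single b (1 : F)) := by
    rw [Bh.w_mul]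
    simp only [Bh.v_vl, Bh.w_vl, sgl]
    simp only [List.nodup_cons, List.mem_cons, List.not_mem_nil, or_false, not_or, not_false_eq_true,
      List.nodup_nil, and_true] at h
    rw [if_neg (Ne.symm h.1.1)]
    simp
  rw [hw]
  simp only [List.nodup_cons, List.mem_cons, List.not_mem_nil, or_false, not_or, not_false_eq_true,
    List.nodup_nil, and_true] at h
  obtain ⟨⟨h1, h2, h3, h4, h5, h6⟩, ⟨h7, h8, h9, h10, h11⟩, ⟨h12, h13, h14, h15⟩, _⟩ := h
  simp only [sgl, if_neg (Ne.symm h2), if_neg (Ne.symm h3), if_neg (Ne.symm h4), if_neg (Ne.symm h5),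
    if_neg (Ne.symm h6), if_neg (Ne.symm h12), if_neg (Ne.symm h13), if_neg (Ne.symm h14),
    if_neg (Ne.symm h15), if_true, one_smul, zero_smul, sub_zero, add_zero, zero_sub, neg_mul, neg_neg]
  unfold pl
  simp [mul_assoc]

theorem z_gb0 {a b x1 x2 x3 x4 x5 i j : ℕ} (hi : i ≠ a ∧ i ≠ b) (hj : j ≠ a ∧ j ≠ b) :
    (phi F (gb F [a, b, x1, x2, x3, x4, x5])).z i j = 0 := by
  rw [phi_gb]
  unfold Bh.lt
  rw [cc_z1 rfl]
  have hw : ∀ k : ℕ, k ≠ a ∧ k ≠ b → (Bh.vl (Finsupp.single a (1 : F)) *
      Bh.vl (Finsupp.single b (1 : F))).w k = 0 := by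
    intro k hk
    rw [Bh.w_mul]
    simp only [Bh.v_vl, Bh.w_vl, sgl, if_neg (Ne.symm hk.1), if_neg (Ne.symm hk.2)]
    simp
  rw [hw i hi, hw j hj]
  simp

theorem z_gb00 {a b x1 x2 x3 x4 x5 i j : ℕ} (hi : i ∉ [x1, x2, x3, x4, x5])
    (hj : j ∉ [x1, x2, x3, x4, x5]) :
    (phi F (gb F [a, b, x1, x2, x3, x4, x5])).z i j = 0 := by
  rw [phi_gb]
  unfold Bh.lt
  rw [cc_z1 rfl]
  simp only [List.mem_cons, List.not_mem_nil, or_false, not_or] at hi hj
  obtain ⟨h1, h2, h3, h4, h5⟩ := hi
  obtain ⟨g1, g2, g3, g4, g5⟩ := hj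
  simp only [sgl, if_neg (Ne.symm h1), if_neg (Ne.symm h2), if_neg (Ne.symm h3), if_neg (Ne.symm h4),
    if_neg (Ne.symm h5), if_neg (Ne.symm g1), if_neg (Ne.symm g2), if_neg (Ne.symm g3),
    if_neg (Ne.symm g4), if_neg (Ne.symm g5), zero_smul, sub_zero, add_zero, smul_zero]

/-- five letters -/
theorem five_of {L : Finset ℕ} (hL : L.card = 7) {a b : ℕ} {U : List ℕ}
    (h : ((a :: b :: U : List ℕ) : Multiset ℕ) = L.val) :
    ∃ x1 x2 x3 x4 x5, U = [x1, x2, x3, x4, x5] := by
  have h1 := length_of h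
  rw [hL] at h1
  match U, h1 with
  | [x1, x2, x3, x4, x5], _ => exact ⟨x1, x2, x3, x4, x5, rfl⟩

variable [C23 F]

theorem z_BB0 (hZ : ZM F) {L : Finset ℕ} (hL : L.card = 7) {a b : ℕ} (ha : a ∈ L) (hb : b ∈ L)
    (hab : a ≠ b) {i j : ℕ} (hij : i ≠ j) (h : (a = i ∨ a = j) ↔ (b = i ∨ b = j)) :
    (phi F (BB F L a b)).z i j = 0 := by
  have h1 := rest2_of ha hb hab
  obtain ⟨x1, x2, x3, x4, x5, hx⟩ := five_of hL h1
  have hn := nodup_of h1
  unfold BB
  rw [FinalAux.phi_zsmul, hx]
  rw [hx] at hn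
  by_cases hc : a = i ∨ a = j
  · have hd := h.1 hc
    have hi : i ∉ [x1, x2, x3, x4, x5] ∧ j ∉ [x1, x2, x3, x4, x5] := by
      rw [List.nodup_cons, List.nodup_cons] at hn
      have n1 : a ∉ [x1, x2, x3, x4, x5] := fun hh => hn.1 (List.mem_cons_of_mem _ hh)
      have n2 := hn.2.1
      rcases hc with rfl | rfl <;> rcases hd with rfl | rfl
      · exact absurd rfl hab
      · exact ⟨n1, n2⟩
      · exact ⟨n2, n1⟩
      · exact absurd rfl hab
    rw [z_gb00 hi.1 hi.2, smul_zero]
  · have hd : ¬ (b = i ∨ b = j) := fun hh => hc (h.2 hh)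
    push Not at hc hd
    rw [z_gb0 ⟨hc.1.symm, hd.1.symm⟩ ⟨hc.2.symm, hd.2.symm⟩, smul_zero]

/-- the list with a prescribed third letter -/
theorem third {L : Finset ℕ} (hL : L.card = 7) {a b j : ℕ} (ha : a ∈ L) (hb : b ∈ L) (hj : j ∈ L)
    (hab : a ≠ b) (haj : a ≠ j) (hbj : b ≠ j) :
    ∃ p q r s, ((a :: b :: j :: [p, q, r, s] : List ℕ) : Multiset ℕ) = L.val := by
  have h1 := rest2_of ha hb hab
  have h2 : j ∈ rest2 L a b := by
    have := (mem_of h1).2 hj
    simp only [List.mem_cons] at this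
    rcases this with h | h | h
    · exact absurd h.symm haj
    · exact absurd h.symm hbj
    · exact h
  have h3 := List.perm_cons_erase h2
  have h4 : ((a :: b :: j :: (rest2 L a b).erase j : List ℕ) : Multiset ℕ) = L.val := by
    rw [← h1]
    exact Multiset.coe_eq_coe.2 ((h3.symm.cons b).cons a)
  obtain ⟨x1, p, q, r, s, hx⟩ := five_of hL h4
  rw [List.cons.injEq] at hx
  exact ⟨p, q, r, s, by rw [← hx.2]; exact h4⟩

theorem z_BB1 (hZ : ZM F) {L : Finset ℕ} (hL : L.card = 7) {a b j : ℕ} (ha : a ∈ L) (hb : b ∈ L)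
    (hj : j ∈ L) (hab : a ≠ b) (haj : a ≠ j) (hbj : b ≠ j) :
    (phi F (BB F L a b)).z a j = kap7 F L a j := by
  obtain ⟨p, q, r, s, h⟩ := third hL ha hb hj hab haj hbj
  have h' : ((a :: j :: (b :: [p, q, r, s]) : List ℕ) : Multiset ℕ) = L.val := by
    rw [← h]
    exact Multiset.coe_eq_coe.2 ((List.Perm.swap b j _).cons a)
  have h1 : sg (a :: b :: j :: [p, q, r, s]) = - sg (a :: j :: b :: [p, q, r, s]) := sg_swap [a] b j _
  have h2 := (pl_skew (F := F) 5).move [] [p, q, r, s] [] b rfl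
  simp only [List.nil_append, List.append_nil, List.length_cons, List.length_nil] at h2
  have h3 : pl F ([p, q, r, s] ++ [b]) = pl F (b :: [p, q, r, s]) := by
    rw [h2]; norm_num
  rw [BB_eq hZ hL h, FinalAux.phi_zsmul, z_gb1 (nodup_of h), kap7_eq h', h1, h3]
  rw [smul_smul, smul_smul]
  congr 1
  ring

theorem z_BB2 (hZ : ZM F) {L : Finset ℕ} (hL : L.card = 7) {a b i : ℕ} (ha : a ∈ L) (hb : b ∈ L)
    (hi : i ∈ L) (hab : a ≠ b) (hai : a ≠ i) (hbi : b ≠ i) :
    (phi F (BB F L a b)).z i a = kap7 F L i a := by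
  obtain ⟨p, q, r, s, h⟩ := third hL ha hb hi hab hai hbi
  have h' : ((i :: a :: (b :: [p, q, r, s]) : List ℕ) : Multiset ℕ) = L.val := by
    rw [← h]
    exact Multiset.coe_eq_coe.2 ((List.Perm.swap a i _).trans ((List.Perm.swap b i _).cons a))
  have h1 : sg (a :: b :: i :: [p, q, r, s]) = - sg (a :: i :: b :: [p, q, r, s]) := sg_swap [a] b i _
  have h2 : sg (a :: i :: b :: [p, q, r, s]) = - sg (i :: a :: b :: [p, q, r, s]) := sg_swap [] a i _
  rw [BB_eq hZ hL h, FinalAux.phi_zsmul, z_gb2 (nodup_of h), kap7_eq h', h1, h2, neg_neg]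
  rw [smul_smul, smul_smul]
  congr 1
  ring

theorem z_BB (hZ : ZM F) {L : Finset ℕ} (hL : L.card = 7) {a b : ℕ} (ha : a ∈ L) (hb : b ∈ L)
    (hab : a ≠ b) {i j : ℕ} (hi : i ∈ L) (hj : j ∈ L) (hij : i ≠ j) :
    (phi F (BB F L a b)).z i j =
      (if (a = i ∨ a = j) ↔ (b = i ∨ b = j) then (0 : F) else 1) • kap7 F L i j := by
  by_cases h : (a = i ∨ a = j) ↔ (b = i ∨ b = j)
  · rw [if_pos h, zero_smul]
    exact z_BB0 hZ hL ha hb hab hij h
  · rw [if_neg h, one_smul]
    by_cases hc : a = i ∨ a = j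
    · have hd : ¬ (b = i ∨ b = j) := fun hh => h ⟨fun _ => hh, fun _ => hc⟩
      push Not at hd
      rcases hc with rfl | rfl
      · exact z_BB1 hZ hL ha hb hj hab hij hd.2
      · exact z_BB2 hZ hL ha hb hi hab hij.symm hd.1
    · have hd : b = i ∨ b = j := by
        by_contra hh
        exact h ⟨fun x => absurd x hc, fun x => absurd x hh⟩
      push Not at hc
      rw [← BB_symm hZ hL ha hb hab]
      rcases hd with rfl | rfl
      · exact z_BB1 hZ hL hb ha hj hab.symm hij hc.2
      · exact z_BB2 hZ hL hb ha hi hab.symm hij.symm hc.1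

section

omit [C23 F]

/-- a word with two letters -/
theorem two_letters {w : FreeMagma ℕ} (h : Multiset.card (content w) = 2) :
    ∃ a b, w = FreeMagma.mul (FreeMagma.of a) (FreeMagma.of b) := by
  cases w with
  | of i =>
    have : Multiset.card (content (FreeMagma.of i)) = 1 := rfl
    omega
  | mul u v =>
    have h6 : Multiset.card (content (FreeMagma.mul u v)) = Multiset.card (content u) + Multiset.card (content v) := by
      show Multiset.card (content u + content v) = _
      rw [Multiset.card_add]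
    have h7 : ∀ w : FreeMagma ℕ, Multiset.card (content w) = 1 → ∃ a, w = FreeMagma.of a := by
      intro w hw
      cases w with
      | of i => exact ⟨i, rfl⟩
      | mul u v =>
        have h6 : Multiset.card (content (FreeMagma.mul u v)) = Multiset.card (content u) + Multiset.card (content v) := by
          show Multiset.card (content u + content v) = _
          rw [Multiset.card_add]
        have := FinalAux.card_pos u
        have := FinalAux.card_pos v
        omega
    have := FinalAux.card_pos u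
    have := FinalAux.card_pos v
    obtain ⟨a, rfl⟩ := h7 u (by omega)
    obtain ⟨b, rfl⟩ := h7 v (by omega)
    exact ⟨a, b, rfl⟩

end

/-- the elements of degree 7 -/
theorem W6_seven (hZ : ZM F) {L : Finset ℕ} (hL : L.card = 7) :
    W6 F L.val ≤ Submodule.span F {v | ∃ a b, a ∈ L ∧ b ∈ L ∧ a ≠ b ∧ v = BB F L a b} := by
  rw [W6_fl, Submodule.span_le]
  rintro v ⟨ws, hws, hm, rfl⟩
  have hperm : (ws.filter (fun w => !isL w) ++ ws.filter (fun w => !!isL w)).Perm ws :=
    List.filter_append_perm _ ws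
  have h1 := (WordsAux.fl_skew (W := wdM (F := F)) hZ.ca).perm hperm.symm hws
  have h3 : (ws.map content).sum = ((ws.filter (fun w => !isL w)).map content).sum +
      ((ws.filter (fun w => !!isL w)).map content).sum := by
    rw [← List.sum_append, ← List.map_append]
    exact (hperm.symm.map content).sum_eq
  have hP : ∀ w ∈ ws.filter (fun w => !isL w), isL w = false := by
    intro w hw
    have := (List.mem_filter.mp hw).2
    simpa using this
  have hQ : ∀ w ∈ ws.filter (fun w => !!isL w), isL w = true := by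
    intro w hw
    have := (List.mem_filter.mp hw).2
    simpa using this
  have hlen : (ws.filter (fun w => !isL w)).length + (ws.filter (fun w => !!isL w)).length = 6 := by
    rw [← List.length_append, hperm.length_eq, hws]
  rw [hm] at h3
  have key : WordsAux.fl cc (wdM (F := F)) (ws.filter (fun w => !isL w) ++ ws.filter (fun w => !!isL w)) ∈
      Submodule.span F {v | ∃ a b, a ∈ L ∧ b ∈ L ∧ a ≠ b ∧ v = BB F L a b} := by
    clear h1 hperm hws hm
    generalize ws.filter (fun w => !isL w) = P at *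
    generalize ws.filter (fun w => !!isL w) = Q at *
    have hc := congrArg Multiset.card h3
    rw [Finset.card_val, hL, Multiset.card_add, sum_letters Q hQ] at hc
    have hPc : 2 * P.length ≤ Multiset.card (P.map content).sum := by
      clear h3 hc hlen
      induction P with
      | nil => simp
      | cons w P ih =>
        rw [List.map_cons, List.sum_cons, Multiset.card_add, List.length_cons]
        have := ih fun w hw => hP w (List.mem_cons_of_mem _ hw)
        obtain ⟨a, b, rfl⟩ := isL_false (hP w List.mem_cons_self)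
        have h6 : Multiset.card (content (FreeMagma.mul a b)) = Multiset.card (content a) + Multiset.card (content b) := by
          show Multiset.card (content a + content b) = _
          rw [Multiset.card_add]
        have := FinalAux.card_pos a
        have := FinalAux.card_pos b
        omega
    match P, hP, hlen, hc, hPc, h3 with
    | [], hP, hlen, hc, hPc, h3 =>
      simp at hc hlen
      omega
    | [w], hP, hlen, hc, hPc, h3 =>
      have hw : Multiset.card (content w) = 2 := by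
        simp only [List.map_cons, List.map_nil, List.sum_cons, List.sum_nil, add_zero,
          List.length_cons, List.length_nil] at hc hlen
        omega
      obtain ⟨a, b, rfl⟩ := two_letters hw
      have hQ5 : Q.length = 5 := by
        simp only [List.length_cons, List.length_nil] at hlen
        omega
      obtain ⟨xs, hxs, hx⟩ := FinalAux.letters Q (sum_letters Q hQ)
      have hL' : ((a :: b :: xs : List ℕ) : Multiset ℕ) = L.val := by
        rw [h3, ← hx]
        simp only [List.map_cons, List.map_nil, List.sum_cons, List.sum_nil, add_zero,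
          ← Multiset.cons_coe]
        show _ = {a} + {b} + (xs : Multiset ℕ)
        rw [add_assoc, Multiset.singleton_add, Multiset.singleton_add]
      obtain ⟨x1, x2, x3, x4, x5, hx5⟩ := five_of hL hL'
      have hn := nodup_of hL'
      have ha : a ∈ L := (mem_of hL').1 (by simp)
      have hb : b ∈ L := (mem_of hL').1 (by simp)
      have hab : a ≠ b := by
        rintro rfl
        simp at hn
      have e : WordsAux.fl cc (wdM (F := F)) ([FreeMagma.mul (FreeMagma.of a) (FreeMagma.of b)] ++ Q) =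
          gb F (a :: b :: xs) := by
        rw [hxs, hx5]
        show cc (wdM _) (wdM _) (wdM _) (wdM _) (wdM _) (wdM _) = cc (_ * _) _ _ _ _ _
        rw [← wdM_mul]
        simp only [of_eq_wdM]
      have hu := sg_unit hn
      have h4 := BB_eq hZ hL hL'
      have hmem : BB F L a b ∈ Submodule.span F {v | ∃ a b, a ∈ L ∧ b ∈ L ∧ a ≠ b ∧ v = BB F L a b} :=
        Submodule.subset_span ⟨a, b, ha, hb, hab, rfl⟩
      rw [e]
      rcases hu with hu | hu
      · rw [hu, one_smul] at h4
        rw [← h4]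
        exact hmem
      · rw [hu, neg_smul, one_smul] at h4
        rw [← neg_neg (gb F (a :: b :: xs)), ← h4]
        exact Submodule.neg_mem _ hmem
    | w :: w' :: P, hP, hlen, hc, hPc, h3 =>
      simp only [List.length_cons] at hPc hlen
      omega
  rcases h1 with h1 | h1
  · rw [h1]; exact key
  · rw [h1]; exact Submodule.neg_mem _ key

/-- renaming of the letters -/
noncomputable def rn (F : Type u) [Field F] (σ : Equiv.Perm ℕ) : FreeMalcev F ℕ →ₙₐ[F] FreeMalcev F ℕ :=
  FreeMalcev.lift FreeMalcev.isMalcev (fun i => FreeMalcev.of (σ i))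

section

omit [C23 F]

theorem rn_of (σ : Equiv.Perm ℕ) (i : ℕ) : rn F σ (FreeMalcev.of i) = FreeMalcev.of (σ i) :=
  FreeMalcev.lift_of _ _ i

theorem rn_gb (σ : Equiv.Perm ℕ) (l : List ℕ) : rn F σ (gb F l) = gb F (l.map σ) := by
  unfold gb
  match l with
  | [a, b, x1, x2, x3, x4, x5] =>
    show rn F σ (cc _ _ _ _ _ _) = cc _ _ _ _ _ _
    rw [W5.hom_cc, map_mul]
    simp only [rn_of]
  | [] => exact map_zero _
  | [_] => exact map_zero _
  | [_, _] => exact map_zero _
  | [_, _, _] => exact map_zero _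
  | [_, _, _, _] => exact map_zero _
  | [_, _, _, _, _] => exact map_zero _
  | [_, _, _, _, _, _] => exact map_zero _
  | _ :: _ :: _ :: _ :: _ :: _ :: _ :: _ :: _ => exact map_zero _

/-- `c(x0..x5) x6` -/
noncomputable def zl (F : Type u) [Field F] : List ℕ → FreeMalcev F ℕ
  | [x0, x1, x2, x3, x4, x5, x6] => cc (FreeMalcev.of x0) (FreeMalcev.of x1) (FreeMalcev.of x2)
      (FreeMalcev.of x3) (FreeMalcev.of x4) (FreeMalcev.of x5) * FreeMalcev.of x6
  | _ => 0

theorem rn_zl (σ : Equiv.Perm ℕ) (l : List ℕ) : rn F σ (zl F l) = zl F (l.map σ) := by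
  match l with
  | [a, b, x1, x2, x3, x4, x5] =>
    show rn F σ (cc _ _ _ _ _ _ * _) = cc _ _ _ _ _ _ * _
    rw [map_mul, W5.hom_cc]
    simp only [rn_of]
  | [] => exact map_zero _
  | [_] => exact map_zero _
  | [_, _] => exact map_zero _
  | [_, _, _] => exact map_zero _
  | [_, _, _, _] => exact map_zero _
  | [_, _, _, _, _] => exact map_zero _
  | [_, _, _, _, _, _] => exact map_zero _
  | _ :: _ :: _ :: _ :: _ :: _ :: _ :: _ :: _ => exact map_zero _

theorem a5 {A B : Type*} [NonUnitalNonAssocRing A] [AddCommGroup B] {c : A → A → A → A → A → A → B}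
    (h : CA c) (x0 x1 x2 x3 x4 x5 y : A) :
    c x0 x1 x2 x3 x4 (x5 + y) = c x0 x1 x2 x3 x4 x5 + c x0 x1 x2 x3 x4 y := by
  have a4 : ∀ x0 x1 x2 x3 x4 x5 y : A, c x0 x1 x2 x3 (x4 + y) x5 = c x0 x1 x2 x3 x4 x5 + c x0 x1 x2 x3 y x5 := by
    intro x0 x1 x2 x3 x4 x5 y
    rw [h.s34 x0 x1 x2 x3 (x4 + y), h.a3, h.s34 x0 x1 x2 x3 x4, h.s34 x0 x1 x2 x3 y, neg_add]
  rw [h.s45 x0 x1 x2 x3 x4 (x5 + y), a4, h.s45 x0 x1 x2 x3 x4 x5, h.s45 x0 x1 x2 x3 x4 y, neg_add]

theorem zl_skew (hZ : ZM F)
    (z0 : ∀ x0 x1 x2 x3 x4 b : FreeMalcev F ℕ, cc x0 x1 x2 x3 x4 b * b = 0) : SkewL 7 (zl F) := by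
  have z0' : ∀ x0 x1 x2 x3 x4 b d : FreeMalcev F ℕ, cc x0 x1 x2 x3 x4 b * d = - (cc x0 x1 x2 x3 x4 d * b) := by
    intro x0 x1 x2 x3 x4 b d
    have h1 := z0 x0 x1 x2 x3 x4 (b + d)
    rw [a5 hZ.ca, mul_add, add_mul, add_mul, z0, z0, zero_add, add_zero] at h1
    exact eq_neg_of_add_eq_zero_right h1
  intro l1 x y l2 hl
  match l1, l2, hl with
  | [], [a, b, d, e, f], _ =>
    show cc _ _ _ _ _ _ * _ = - (cc _ _ _ _ _ _ * _)
    rw [hZ.ca.s01, neg_mul]
  | [a], [b, d, e, f], _ =>
    show cc _ _ _ _ _ _ * _ = - (cc _ _ _ _ _ _ * _)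
    rw [hZ.ca.s12, neg_mul]
  | [a, b], [d, e, f], _ =>
    show cc _ _ _ _ _ _ * _ = - (cc _ _ _ _ _ _ * _)
    rw [hZ.ca.s23, neg_mul]
  | [a, b, d], [e, f], _ =>
    show cc _ _ _ _ _ _ * _ = - (cc _ _ _ _ _ _ * _)
    rw [hZ.ca.s34, neg_mul]
  | [a, b, d, e], [f], _ =>
    show cc _ _ _ _ _ _ * _ = - (cc _ _ _ _ _ _ * _)
    rw [hZ.ca.s45, neg_mul]
  | [a, b, d, e, f], [], _ => exact z0' _ _ _ _ _ _ _
  | [], [], h => simp at h
  | [], [_], h => simp at h
  | [], [_, _], h => simp at h
  | [], [_, _, _], h => simp at h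
  | [], [_, _, _, _], h => simp at h
  | [], _ :: _ :: _ :: _ :: _ :: _ :: _, h => simp at h
  | [_], [], h => simp at h
  | [_], [_], h => simp at h
  | [_], [_, _], h => simp at h
  | [_], [_, _, _], h => simp at h
  | [_], _ :: _ :: _ :: _ :: _ :: _, h => simp at h
  | [_, _], [], h => simp at h
  | [_, _], [_], h => simp at h
  | [_, _], [_, _], h => simp at h
  | [_, _], _ :: _ :: _ :: _ :: _, h => simp at h
  | [_, _, _], [], h => simp at h
  | [_, _, _], [_], h => simp at h
  | [_, _, _], _ :: _ :: _ :: _, h => simp at h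
  | [_, _, _, _], [], h => simp at h
  | [_, _, _, _], _ :: _ :: _, h => simp at h
  | [_, _, _, _, _], _ :: _, h => simp at h
  | _ :: _ :: _ :: _ :: _ :: _ :: _, _, h =>
    simp only [List.length_append, List.length_cons] at h
    omega

/-- the elements of `W7` are skew -/
theorem W7_skew (hZ : ZM F)
    (z0 : ∀ x0 x1 x2 x3 x4 b : FreeMalcev F ℕ, cc x0 x1 x2 x3 x4 b * b = 0) {L : Finset ℕ}
    {i j : ℕ} (hi : i ∈ L) (hj : j ∈ L) (hij : i ≠ j) {q : FreeMalcev F ℕ} (hq : q ∈ W7 F L.val) :
    rn F (Equiv.swap i j) q = - q := by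
  unfold W7 at hq
  induction hq using Submodule.span_induction with
  | mem q hq =>
    obtain ⟨x0, x1, x2, x3, x4, x5, b, hc, rfl⟩ := hq
    have h1 := skew_rename (zl_skew hZ z0) (l := [x0, x1, x2, x3, x4, x5, b]) rfl (nodup_of hc)
      ((mem_of hc).2 hi) ((mem_of hc).2 hj) hij
    rw [← rn_zl] at h1
    exact h1
  | zero => rw [map_zero, neg_zero]
  | add x y _ _ hx hy => rw [map_add, hx, hy, neg_add]
  | smul r x _ hx => rw [map_smul, hx, smul_neg]

theorem W7_phi (h5 : (5 : F) = 0) {m : Multiset ℕ} {q : FreeMalcev F ℕ} (hq : q ∈ W7 F m) :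
    phi F q = 0 := by
  unfold W7 at hq
  induction hq using Submodule.span_induction with
  | mem q hq =>
    obtain ⟨x0, x1, x2, x3, x4, x5, b, hc, rfl⟩ := hq
    rw [map_mul]
    exact (W5.Kw_mul (W5.phi_Qc h5 (W5.cc_mem_Qc F _ _ _ _ _ _)) _).1
  | zero => rw [map_zero]
  | add x y _ _ hx hy => rw [map_add, hx, hy, add_zero]
  | smul r x _ hx => rw [map_smul, hx, smul_zero]

end

omit [C23 F] in
theorem swap_mem {L : Finset ℕ} {i j : ℕ} (hi : i ∈ L) (hj : j ∈ L) (x : ℕ) :
    Equiv.swap i j x ∈ L ↔ x ∈ L := by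
  by_cases h1 : x = i
  · subst h1
    rw [Equiv.swap_apply_left]
    exact ⟨fun _ => hi, fun _ => hj⟩
  · by_cases h2 : x = j
    · subst h2
      rw [Equiv.swap_apply_right]
      exact ⟨fun _ => hj, fun _ => hi⟩
    · rw [Equiv.swap_apply_of_ne_of_ne h1 h2]

theorem rn_BB (hZ : ZM F) {L : Finset ℕ} (hL : L.card = 7) {i j : ℕ} (hi : i ∈ L) (hj : j ∈ L)
    (hij : i ≠ j) {a b : ℕ} (ha : a ∈ L) (hb : b ∈ L) (hab : a ≠ b) :
    rn F (Equiv.swap i j) (BB F L a b) = - BB F L (Equiv.swap i j a) (Equiv.swap i j b) := by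
  have h1 := rest2_of ha hb hab
  have h2 : (((a :: b :: rest2 L a b).map (Equiv.swap i j) : List ℕ) : Multiset ℕ) = L.val := by
    have hn : (a :: b :: rest2 L a b).Nodup := nodup_of h1
    have hn' : ((a :: b :: rest2 L a b).map (Equiv.swap i j)).Nodup :=
      hn.map (Equiv.injective _)
    refine (Multiset.Nodup.ext (Multiset.coe_nodup.2 hn') L.nodup).2 ?_
    intro x
    rw [Multiset.mem_coe, List.mem_map, Finset.mem_val]
    constructor
    · rintro ⟨y, hy, rfl⟩
      exact (swap_mem hi hj y).2 ((mem_of h1).1 hy)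
    · intro hx
      exact ⟨Equiv.swap i j x, (mem_of h1).2 ((swap_mem hi hj x).2 hx), Equiv.swap_apply_self i j x⟩
  have h3 := skew_rename (sg_skew (a :: b :: rest2 L a b).length) rfl (nodup_of h1)
    ((mem_of h1).2 hi) ((mem_of h1).2 hj) hij
  have h4 : BB F L (Equiv.swap i j a) (Equiv.swap i j b) =
      sg ((a :: b :: rest2 L a b).map (Equiv.swap i j)) •
        gb F ((a :: b :: rest2 L a b).map (Equiv.swap i j)) := BB_eq hZ hL h2
  have h5 : rn F (Equiv.swap i j) (BB F L a b) = sg (a :: b :: rest2 L a b) •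
      rn F (Equiv.swap i j) (gb F (a :: b :: rest2 L a b)) :=
    map_zsmul (rn F (Equiv.swap i j) : FreeMalcev F ℕ →ₙₐ[F] FreeMalcev F ℕ) _ _
  rw [h4, h5, h3, rn_gb, neg_smul, neg_neg]

end Z7Aux

open Z7Aux

variable {F : Type u} [Field F] [C23 F]

/-- (Z7): the elements of degree 7 in the kernel are skew -/
theorem Z7_main (hZ : ZM F) (z0 : ∀ x0 x1 x2 x3 x4 b : FreeMalcev F ℕ, cc x0 x1 x2 x3 x4 b * b = 0)
    (h5 : (5 : F) = 0) {I : Submodule F (FreeMalcev F ℕ)} (hI : IsQc I) {L : Finset ℕ}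
    (hL : L.card = 7) {q : FreeMalcev F ℕ} (hq : q ∈ I) (hm : q ∈ GM F L.val) (h0 : phi F q = 0)
    {i j : ℕ} (hi : i ∈ L) (hj : j ∈ L) (hij : i ≠ j) :
    rn F (Equiv.swap i j) q = - q := by
  obtain ⟨q6, hq6, q7, hq7, rfl⟩ := Submodule.mem_sup.1 (Qc_mem hZ hI hq hm)
  rw [map_add, W7_phi h5 hq7, add_zero] at h0
  rw [map_add, W7_skew hZ z0 hi hj hij hq7, neg_add]
  congr 1
  -- the coefficients
  have h1 : q6 ∈ Submodule.span F (Set.range fun p : {x // x ∈ L} × {x // x ∈ L} =>
      if p.1 = p.2 then (0 : FreeMalcev F ℕ) else BB F L p.1.1 p.2.1) := by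
    refine (Submodule.span_le.mpr ?_) (W6_seven hZ hL hq6)
    rintro v ⟨a, b, ha, hb, hab, rfl⟩
    apply Submodule.subset_span
    refine ⟨(⟨a, ha⟩, ⟨b, hb⟩), ?_⟩
    simp [hab]
  obtain ⟨c, hc⟩ := (Submodule.mem_span_range_iff_exists_fun F).1 h1
  set c0 : {x // x ∈ L} → {x // x ∈ L} → F := fun a b => if a = b then 0 else c (a, b) with hc0
  have h2 : q6 = ∑ a, ∑ b, c0 a b • BB F L a.1 b.1 := by
    rw [← hc, Fintype.sum_prod_type]
    refine Finset.sum_congr rfl fun a _ => Finset.sum_congr rfl fun b _ => ?_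
    simp only [hc0]
    split_ifs
    · rw [smul_zero, zero_smul]
    · rfl
  have hN : Fintype.card {x // x ∈ L} = 7 := by
    rw [Fintype.card_coe]
    exact hL
  obtain ⟨t, ht⟩ := graph h5 (two_ne_zero (α := F)) hN c0 (fun a => if_pos rfl) (by
    intro i j hij
    have hij' : i.1 ≠ j.1 := fun h => hij (Subtype.ext h)
    have h3 : FinalAux.zcm F i.1 j.1 (phi F q6) = 0 := by rw [h0, map_zero]
    have h4 : FinalAux.zcm F i.1 j.1 (phi F q6) =
        (∑ a, ∑ b, c0 a b * (if (a = i ∨ a = j) ↔ (b = i ∨ b = j) then 0 else 1)) •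
          kap7 F L i.1 j.1 := by
      rw [h2]
      have h5 : ∀ f : {x // x ∈ L} → {x // x ∈ L} → FreeMalcev F ℕ,
          FinalAux.zcm F i.1 j.1 (phi F (∑ a, ∑ b, f a b)) =
          ∑ a, ∑ b, FinalAux.zcm F i.1 j.1 (phi F (f a b)) := by
        intro f
        rw [map_sum, map_sum]
        refine Finset.sum_congr rfl fun a _ => ?_
        rw [map_sum, map_sum]
      rw [h5, Finset.sum_smul]
      refine Finset.sum_congr rfl fun a _ => ?_
      rw [Finset.sum_smul]
      refine Finset.sum_congr rfl fun b _ => ?_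
      rw [map_smul, map_smul, mul_smul]
      by_cases hab : a = b
      · simp only [hc0, if_pos hab, zero_smul]
      · congr 1
        have h6 := z_BB hZ hL a.2 b.2 (fun h => hab (Subtype.ext h)) i.2 j.2 hij'
        have e : ((a.1 = i.1 ∨ a.1 = j.1) ↔ (b.1 = i.1 ∨ b.1 = j.1)) ↔
            ((a = i ∨ a = j) ↔ (b = i ∨ b = j)) := by
          simp only [Subtype.ext_iff]
        rw [show FinalAux.zcm F i.1 j.1 (phi F (BB F L a.1 b.1)) = (phi F (BB F L a.1 b.1)).z i.1 j.1
          from rfl, h6]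
        simp only [e]
    rw [h3] at h4
    have hk : kap7 F L i.1 j.1 ≠ 0 := by
      unfold kap7
      have h48 : ∀ {v : Ex F}, v ≠ 0 → (48 : ℤ) • v ≠ 0 := by
        intro v hv h
        apply FinalAux.c48 h5 hv
        rw [show (-48 : ℤ) = -(48 : ℤ) from rfl, neg_smul, h, neg_zero]
      apply h48
      apply FinalAux.unit_ne (sg_unit (SgnAux.nodup_of (rest2_of i.2 j.2 hij')))
      exact pl_ne (Finset.nodup_toList _)
    exact (smul_eq_zero.1 h4.symm).resolve_right hk)
  -- the elements are multiples of the sum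
  set Y : FreeMalcev F ℕ := ∑ a : {x // x ∈ L}, ∑ b : {x // x ∈ L},
    (if a = b then (0 : FreeMalcev F ℕ) else BB F L a.1 b.1) with hY
  have h7 : (2 : F) • q6 = t • Y := by
    have e1 : q6 = ∑ a, ∑ b, c0 b a • BB F L a.1 b.1 := by
      rw [h2, Finset.sum_comm]
      refine Finset.sum_congr rfl fun a _ => Finset.sum_congr rfl fun b _ => ?_
      by_cases hab : a = b
      · subst hab; rfl
      · rw [BB_symm hZ hL a.2 b.2 (fun h => hab (Subtype.ext h))]
    rw [two_smul]
    conv_lhs => rw [h2]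
    conv_lhs => rw [← h2]
    calc q6 + q6 = (∑ a, ∑ b, c0 a b • BB F L a.1 b.1) + ∑ a, ∑ b, c0 b a • BB F L a.1 b.1 := by
          rw [← h2, ← e1]
      _ = ∑ a, ∑ b, (c0 a b + c0 b a) • BB F L a.1 b.1 := by
          rw [← Finset.sum_add_distrib]
          refine Finset.sum_congr rfl fun a _ => ?_
          rw [← Finset.sum_add_distrib]
          exact Finset.sum_congr rfl fun b _ => (add_smul _ _ _).symm
      _ = t • Y := by
          rw [hY, Finset.smul_sum]
          refine Finset.sum_congr rfl fun a _ => ?_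
          rw [Finset.smul_sum]
          refine Finset.sum_congr rfl fun b _ => ?_
          by_cases hab : a = b
          · rw [if_pos hab, smul_zero]
            subst hab
            simp [hc0]
          · rw [if_neg hab, ht a b hab]
  have h8 : rn F (Equiv.swap i j) Y = - Y := by
    let e : Equiv.Perm {x // x ∈ L} := Equiv.swap ⟨i, hi⟩ ⟨j, hj⟩
    have he : ∀ a : {x // x ∈ L}, (e a).1 = Equiv.swap i j a.1 := by
      intro a
      show (Equiv.swap (⟨i, hi⟩ : {x // x ∈ L}) ⟨j, hj⟩ a).1 = Equiv.swap i j a.1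
      rw [Equiv.swap_apply_def, Equiv.swap_apply_def]
      simp only [Subtype.ext_iff]
      split_ifs <;> rfl
    have h9 : rn F (Equiv.swap i j) Y = ∑ a : {x // x ∈ L}, ∑ b : {x // x ∈ L},
        (if e a = e b then (0 : FreeMalcev F ℕ) else - BB F L (e a).1 (e b).1) := by
      rw [hY, map_sum]
      refine Finset.sum_congr rfl fun a _ => ?_
      rw [map_sum]
      refine Finset.sum_congr rfl fun b _ => ?_
      by_cases hab : a = b
      · rw [if_pos hab, if_pos (by rw [hab]), map_zero]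
      · rw [if_neg hab, if_neg (fun h => hab (e.injective h)),
          rn_BB hZ hL hi hj hij a.2 b.2 (fun h => hab (Subtype.ext h)), he, he]
    rw [h9, Equiv.sum_comp e (fun a => ∑ b : {x // x ∈ L},
        (if a = e b then (0 : FreeMalcev F ℕ) else - BB F L a.1 (e b).1)), hY, ← Finset.sum_neg_distrib]
    refine Finset.sum_congr rfl fun a _ => ?_
    rw [Equiv.sum_comp e (fun b => (if a = b then (0 : FreeMalcev F ℕ) else - BB F L a.1 b.1)),
      ← Finset.sum_neg_distrib]
    refine Finset.sum_congr rfl fun b _ => ?_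
    split_ifs
    · exact neg_zero.symm
    · rfl
  have h9 : (2 : F) • rn F (Equiv.swap i j) q6 = (2 : F) • (- q6) := by
    rw [← map_smul, h7, map_smul, h8, smul_neg, smul_neg, ← h7]
  exact smul_right_injective _ (two_ne_zero (α := F)) h9

end Z5

end Pool.Agent.MalP
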