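import Pool.Agent.MalP.Z5.Defs

/-! # Characteristic 5: (zC) follows from (zA), (zC'), (zS) -/

set_option autoImplicit false

namespace Pool.Agent.MalP

namespace Z5

set_option linter.unusedSimpArgs false
set_option linter.unusedTactic false
set_option linter.unreachableTactic false

universe v w

/-- totally skew functions with the identities (zA), (zC'), (zS) in characteristic 5 -/
structure CB {A : Type v} {B : Type w} [NonUnitalNonAssocRing A] [AddCommGroup B]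
    (c : A → A → A → A → A → A → B) : Prop where
  anti : ∀ a b : A, a * b = -(b * a)
  two : ∀ v : B, 2 • v = 0 → v = 0
  five : ∀ v : B, (5 : ℤ) • v = 0
  add : ∀ a a' x1 x2 x3 x4 x5 : A, c (a + a') x1 x2 x3 x4 x5 = c a x1 x2 x3 x4 x5 + c a' x1 x2 x3 x4 x5
  s01 : ∀ x0 x1 x2 x3 x4 x5 : A, c x0 x1 x2 x3 x4 x5 = - c x1 x0 x2 x3 x4 x5
  s12 : ∀ x0 x1 x2 x3 x4 x5 : A, c x0 x1 x2 x3 x4 x5 = - c x0 x2 x1 x3 x4 x5
  s23 : ∀ x0 x1 x2 x3 x4 x5 : A, c x0 x1 x2 x3 x4 x5 = - c x0 x1 x3 x2 x4 x5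
  s34 : ∀ x0 x1 x2 x3 x4 x5 : A, c x0 x1 x2 x3 x4 x5 = - c x0 x1 x2 x4 x3 x5
  s45 : ∀ x0 x1 x2 x3 x4 x5 : A, c x0 x1 x2 x3 x4 x5 = - c x0 x1 x2 x3 x5 x4
  zA : ∀ u v x y a b : A, c (u * v) (x * y) x y a b = 0
  zC2 : ∀ u v y x0 x1 x2 x3 : A, c ((u * v) * y) x0 x1 x2 x3 y = c (u * v) (x0 * y) y x1 x2 x3
  zS : ∀ u v x0 x1 x2 x3 x4 x5 : A, c ((u * v) * x0) x1 x2 x3 x4 x5 - c ((u * v) * x1) x0 x2 x3 x4 x5 +
    c ((u * v) * x2) x0 x1 x3 x4 x5 - c ((u * v) * x3) x0 x1 x2 x4 x5 +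
    c ((u * v) * x4) x0 x1 x2 x3 x5 - c ((u * v) * x5) x0 x1 x2 x3 x4 = 0

variable {A : Type v} {B : Type w} [NonUnitalNonAssocRing A] [AddCommGroup B]
  {c : A → A → A → A → A → A → B}

theorem CB.n0 (h : CB c) (x0 x1 x2 x3 x4 x5 : A) : c (-x0) x1 x2 x3 x4 x5 = - c x0 x1 x2 x3 x4 x5 := by
  have h0 : c 0 x1 x2 x3 x4 x5 = 0 := by
    have := h.add 0 0 x1 x2 x3 x4 x5
    rw [add_zero] at this
    exact left_eq_add.mp this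
  have h1 := h.add x0 (-x0) x1 x2 x3 x4 x5
  rw [add_neg_cancel, h0] at h1
  exact (neg_eq_of_add_eq_zero_right h1.symm).symm

theorem CB.n1 (h : CB c) (x0 x1 x2 x3 x4 x5 : A) : c x0 (-x1) x2 x3 x4 x5 = - c x0 x1 x2 x3 x4 x5 := by
  rw [h.s01 x0 (-x1), h.n0, h.s01 x0 x1]

theorem CB.n2 (h : CB c) (x0 x1 x2 x3 x4 x5 : A) : c x0 x1 (-x2) x3 x4 x5 = - c x0 x1 x2 x3 x4 x5 := by
  rw [h.s12 x0 x1 (-x2), h.n1, h.s12 x0 x1 x2]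

theorem CB.n3 (h : CB c) (x0 x1 x2 x3 x4 x5 : A) : c x0 x1 x2 (-x3) x4 x5 = - c x0 x1 x2 x3 x4 x5 := by
  rw [h.s23 x0 x1 x2 (-x3), h.n2, h.s23 x0 x1 x2 x3]

theorem CB.n4 (h : CB c) (x0 x1 x2 x3 x4 x5 : A) : c x0 x1 x2 x3 (-x4) x5 = - c x0 x1 x2 x3 x4 x5 := by
  rw [h.s34 x0 x1 x2 x3 (-x4), h.n3, h.s34 x0 x1 x2 x3 x4]

theorem CB.n5 (h : CB c) (x0 x1 x2 x3 x4 x5 : A) : c x0 x1 x2 x3 x4 (-x5) = - c x0 x1 x2 x3 x4 x5 := by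
  rw [h.s45 x0 x1 x2 x3 x4 (-x5), h.n4, h.s45 x0 x1 x2 x3 x4 x5]

theorem CB.a1 (h : CB c) (x0 x1 y x2 x3 x4 x5 : A) :
    c x0 (x1 + y) x2 x3 x4 x5 = c x0 x1 x2 x3 x4 x5 + c x0 y x2 x3 x4 x5 := by
  rw [h.s01 x0 (x1 + y), h.add, h.s01 x0 x1, h.s01 x0 y, neg_add]

theorem CB.a2 (h : CB c) (x0 x1 x2 y x3 x4 x5 : A) :
    c x0 x1 (x2 + y) x3 x4 x5 = c x0 x1 x2 x3 x4 x5 + c x0 x1 y x3 x4 x5 := by
  rw [h.s12 x0 x1 (x2 + y), h.a1, h.s12 x0 x1 x2, h.s12 x0 x1 y, neg_add]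

theorem CB.a3 (h : CB c) (x0 x1 x2 x3 y x4 x5 : A) :
    c x0 x1 x2 (x3 + y) x4 x5 = c x0 x1 x2 x3 x4 x5 + c x0 x1 x2 y x4 x5 := by
  rw [h.s23 x0 x1 x2 (x3 + y), h.a2, h.s23 x0 x1 x2 x3, h.s23 x0 x1 x2 y, neg_add]

theorem CB.neg_self (h : CB c) {b : B} (hb : b = - b) : b = 0 := by
  apply h.two
  rw [two_nsmul]
  nth_rewrite 1 [hb]
  exact neg_add_cancel b

theorem CB.al01 (h : CB c) (x y z t s : A) : c x x y z t s = 0 := h.neg_self (h.s01 _ _ _ _ _ _)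

theorem CB.al12 (h : CB c) (y x z t s : A) : c y x x z t s = 0 := h.neg_self (h.s12 _ _ _ _ _ _)

theorem CB.al23 (h : CB c) (y z x t s : A) : c y z x x t s = 0 := h.neg_self (h.s23 _ _ _ _ _ _)

theorem CB.al34 (h : CB c) (y z t x s : A) : c y z t x x s = 0 := h.neg_self (h.s34 _ _ _ _ _ _)

theorem CB.al45 (h : CB c) (y z t s x : A) : c y z t s x x = 0 := h.neg_self (h.s45 _ _ _ _ _ _)

/-- (zA), polarised -/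
theorem CB.zA1 (h : CB c) (u v x x' y a b : A) :
    c (u * v) (x * y) x' y a b + c (u * v) (x' * y) x y a b = 0 := by
  have h1 := h.zA u v (x + x') y a b
  rw [add_mul, h.a1, h.a2, h.a2, h.zA, h.zA, zero_add, add_zero] at h1
  exact h1

theorem CB.a5 (h : CB c) (x0 x1 x2 x3 x4 x5 y : A) :
    c x0 x1 x2 x3 x4 (x5 + y) = c x0 x1 x2 x3 x4 x5 + c x0 x1 x2 x3 x4 y := by
  have a4 : ∀ x0 x1 x2 x3 x4 x5 y : A, c x0 x1 x2 x3 (x4 + y) x5 = c x0 x1 x2 x3 x4 x5 + c x0 x1 x2 x3 y x5 := by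
    intro x0 x1 x2 x3 x4 x5 y
    rw [h.s34 x0 x1 x2 x3 (x4 + y), h.a3, h.s34 x0 x1 x2 x3 x4, h.s34 x0 x1 x2 x3 y, neg_add]
  rw [h.s45 x0 x1 x2 x3 x4 (x5 + y), a4, h.s45 x0 x1 x2 x3 x4 x5, h.s45 x0 x1 x2 x3 x4 y, neg_add]

/-- (zA), polarised twice -/
theorem CB.zA2 (h : CB c) (u v x y x' y' a b : A) :
    c (u * v) (x * y) x' y' a b + c (u * v) (x * y') x' y a b + c (u * v) (x' * y) x y' a b +
      c (u * v) (x' * y') x y a b = 0 := by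
  have h1 := h.zA1 u v x x' (y + y') a b
  rw [mul_add, mul_add, h.a1, h.a1, h.a3, h.a3, h.a3, h.a3] at h1
  have h2 := h.zA1 u v x x' y a b
  have h3 := h.zA1 u v x x' y' a b
  linear_combination (norm := abel) h1 - h2 - h3

/-- (zC'), polarised -/
theorem CB.zC2p (h : CB c) (u v y y' x0 x1 x2 x3 : A) :
    c ((u * v) * y) x0 x1 x2 x3 y' + c ((u * v) * y') x0 x1 x2 x3 y +
      (-1 : ℤ) • c (u * v) (x0 * y) y' x1 x2 x3 + (-1 : ℤ) • c (u * v) (x0 * y') y x1 x2 x3 = 0 := by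
  have h1 := h.zC2 u v (y + y') x0 x1 x2 x3
  rw [mul_add, mul_add, h.add, h.a5, h.a5, h.a1, h.a2, h.a2] at h1
  have h2 := h.zC2 u v y x0 x1 x2 x3
  have h3 := h.zC2 u v y' x0 x1 x2 x3
  linear_combination (norm := abel) h1 - h2 - h3

/-- (zC) -/
theorem CB.zC (h : CB c) (u v w x0 x1 x2 x3 x4 : A) : 2 • c ((u * v) * w) x0 x1 x2 x3 x4 +
    c (u * v) (x0 * x1) w x2 x3 x4 + c (u * v) (x1 * x2) w x0 x3 x4 + c (u * v) (x2 * x3) w x0 x1 x4 +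
    c (u * v) (x3 * x4) w x0 x1 x2 + c (u * v) (x4 * x0) w x1 x2 x3 = 0 := by
  have e0 := h.zS u v w x0 x1 x2 x3 x4
  have e2 := h.zC2p u v w x1 x0 x2 x3 x4
  have e3 := h.zC2p u v w x2 x0 x1 x3 x4
  have e4 := h.zC2p u v w x3 x0 x1 x2 x4
  have e5 := h.zC2p u v w x4 x0 x1 x2 x3
  have e7 := h.zC2p u v x0 x2 w x1 x3 x4
  have e8 := h.zC2p u v x0 x3 w x1 x2 x4
  have e9 := h.zC2p u v x0 x4 w x1 x2 x3
  have e16 := h.zA2 u v w x0 x1 x2 x3 x4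
  have e25 := h.zA2 u v w x0 x2 x3 x1 x4
  have e31 := h.zA2 u v w x0 x3 x4 x1 x2
  have f0 : c (u * v) (x4 * x0) w x1 x2 x3 = - c (u * v) (x0 * x4) w x1 x2 x3 := by
    simp only [h.anti x4 x0, neg_mul, mul_neg, h.n0, h.n1, h.n2, h.n3, h.n4, h.n5, neg_neg]
  have f1 : c ((u * v) * w) x0 x2 x3 x4 x1 = - c ((u * v) * w) x0 x1 x2 x3 x4 := by
    rw [h.s45 ((u * v) * w) x0 x2 x3 x4 x1, h.s34 ((u * v) * w) x0 x2 x3 x1 x4, h.s23 ((u * v) * w) x0 x2 x1 x3 x4] <;> simp only [neg_neg]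
  have f2 : c ((u * v) * x1) x0 x2 x3 x4 w = c ((u * v) * x1) w x0 x2 x3 x4 := by
    rw [h.s45 ((u * v) * x1) x0 x2 x3 x4 w, h.s34 ((u * v) * x1) x0 x2 x3 w x4, h.s23 ((u * v) * x1) x0 x2 w x3 x4, h.s12 ((u * v) * x1) x0 w x2 x3 x4] <;> simp only [neg_neg]
  have f3 : c (u * v) (x0 * w) x1 x2 x3 x4 = - c (u * v) (w * x0) x1 x2 x3 x4 := by
    simp only [h.anti x0 w, neg_mul, mul_neg, h.n0, h.n1, h.n2, h.n3, h.n4, h.n5, neg_neg]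
  have f4 : c ((u * v) * w) x0 x1 x3 x4 x2 = c ((u * v) * w) x0 x1 x2 x3 x4 := by
    rw [h.s45 ((u * v) * w) x0 x1 x3 x4 x2, h.s34 ((u * v) * w) x0 x1 x3 x2 x4] <;> simp only [neg_neg]
  have f5 : c ((u * v) * x2) x0 x1 x3 x4 w = c ((u * v) * x2) w x0 x1 x3 x4 := by
    rw [h.s45 ((u * v) * x2) x0 x1 x3 x4 w, h.s34 ((u * v) * x2) x0 x1 x3 w x4, h.s23 ((u * v) * x2) x0 x1 w x3 x4, h.s12 ((u * v) * x2) x0 w x1 x3 x4] <;> simp only [neg_neg]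
  have f6 : c (u * v) (x0 * w) x2 x1 x3 x4 = c (u * v) (w * x0) x1 x2 x3 x4 := by
    simp only [h.anti x0 w, neg_mul, mul_neg, h.n0, h.n1, h.n2, h.n3, h.n4, h.n5, neg_neg]
    rw [h.s23 (u * v) (w * x0) x2 x1 x3 x4] <;> simp only [neg_neg]
  have f7 : c ((u * v) * w) x0 x1 x2 x4 x3 = - c ((u * v) * w) x0 x1 x2 x3 x4 := by
    rw [h.s45 ((u * v) * w) x0 x1 x2 x4 x3]
  have f8 : c ((u * v) * x3) x0 x1 x2 x4 w = c ((u * v) * x3) w x0 x1 x2 x4 := by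
    rw [h.s45 ((u * v) * x3) x0 x1 x2 x4 w, h.s34 ((u * v) * x3) x0 x1 x2 w x4, h.s23 ((u * v) * x3) x0 x1 w x2 x4, h.s12 ((u * v) * x3) x0 w x1 x2 x4] <;> simp only [neg_neg]
  have f9 : c (u * v) (x0 * w) x3 x1 x2 x4 = - c (u * v) (w * x0) x1 x2 x3 x4 := by
    simp only [h.anti x0 w, neg_mul, mul_neg, h.n0, h.n1, h.n2, h.n3, h.n4, h.n5, neg_neg]
    rw [h.s23 (u * v) (w * x0) x3 x1 x2 x4, h.s34 (u * v) (w * x0) x1 x3 x2 x4] <;> simp only [neg_neg]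
  have f10 : c ((u * v) * x4) x0 x1 x2 x3 w = c ((u * v) * x4) w x0 x1 x2 x3 := by
    rw [h.s45 ((u * v) * x4) x0 x1 x2 x3 w, h.s34 ((u * v) * x4) x0 x1 x2 w x3, h.s23 ((u * v) * x4) x0 x1 w x2 x3, h.s12 ((u * v) * x4) x0 w x1 x2 x3] <;> simp only [neg_neg]
  have f11 : c (u * v) (x0 * w) x4 x1 x2 x3 = c (u * v) (w * x0) x1 x2 x3 x4 := by
    simp only [h.anti x0 w, neg_mul, mul_neg, h.n0, h.n1, h.n2, h.n3, h.n4, h.n5, neg_neg]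
    rw [h.s23 (u * v) (w * x0) x4 x1 x2 x3, h.s34 (u * v) (w * x0) x1 x4 x2 x3, h.s45 (u * v) (w * x0) x1 x2 x4 x3] <;> simp only [neg_neg]
  have f12 : c ((u * v) * x0) w x1 x3 x4 x2 = c ((u * v) * x0) w x1 x2 x3 x4 := by
    rw [h.s45 ((u * v) * x0) w x1 x3 x4 x2, h.s34 ((u * v) * x0) w x1 x3 x2 x4] <;> simp only [neg_neg]
  have f13 : c ((u * v) * x2) w x1 x3 x4 x0 = - c ((u * v) * x2) w x0 x1 x3 x4 := by
    rw [h.s45 ((u * v) * x2) w x1 x3 x4 x0, h.s34 ((u * v) * x2) w x1 x3 x0 x4, h.s23 ((u * v) * x2) w x1 x0 x3 x4] <;> simp only [neg_neg]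
  have f14 : c (u * v) (w * x0) x2 x1 x3 x4 = - c (u * v) (w * x0) x1 x2 x3 x4 := by
    rw [h.s23 (u * v) (w * x0) x2 x1 x3 x4]
  have f15 : c ((u * v) * x0) w x1 x2 x4 x3 = - c ((u * v) * x0) w x1 x2 x3 x4 := by
    rw [h.s45 ((u * v) * x0) w x1 x2 x4 x3]
  have f16 : c ((u * v) * x3) w x1 x2 x4 x0 = - c ((u * v) * x3) w x0 x1 x2 x4 := by
    rw [h.s45 ((u * v) * x3) w x1 x2 x4 x0, h.s34 ((u * v) * x3) w x1 x2 x0 x4, h.s23 ((u * v) * x3) w x1 x0 x2 x4] <;> simp only [neg_neg]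
  have f17 : c (u * v) (w * x0) x3 x1 x2 x4 = c (u * v) (w * x0) x1 x2 x3 x4 := by
    rw [h.s23 (u * v) (w * x0) x3 x1 x2 x4, h.s34 (u * v) (w * x0) x1 x3 x2 x4] <;> simp only [neg_neg]
  have f18 : c ((u * v) * x4) w x1 x2 x3 x0 = - c ((u * v) * x4) w x0 x1 x2 x3 := by
    rw [h.s45 ((u * v) * x4) w x1 x2 x3 x0, h.s34 ((u * v) * x4) w x1 x2 x0 x3, h.s23 ((u * v) * x4) w x1 x0 x2 x3] <;> simp only [neg_neg]
  have f19 : c (u * v) (w * x0) x4 x1 x2 x3 = - c (u * v) (w * x0) x1 x2 x3 x4 := by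
    rw [h.s23 (u * v) (w * x0) x4 x1 x2 x3, h.s34 (u * v) (w * x0) x1 x4 x2 x3, h.s45 (u * v) (w * x0) x1 x2 x4 x3] <;> simp only [neg_neg]
  have f20 : c (u * v) (w * x2) x1 x0 x3 x4 = - c (u * v) (w * x2) x0 x1 x3 x4 := by
    rw [h.s23 (u * v) (w * x2) x1 x0 x3 x4]
  have f21 : c (u * v) (x1 * x0) w x2 x3 x4 = - c (u * v) (x0 * x1) w x2 x3 x4 := by
    simp only [h.anti x1 x0, neg_mul, mul_neg, h.n0, h.n1, h.n2, h.n3, h.n4, h.n5, neg_neg]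
  have f22 : c (u * v) (w * x0) x2 x3 x1 x4 = c (u * v) (w * x0) x1 x2 x3 x4 := by
    rw [h.s34 (u * v) (w * x0) x2 x3 x1 x4, h.s23 (u * v) (w * x0) x2 x1 x3 x4] <;> simp only [neg_neg]
  have f23 : c (u * v) (w * x3) x2 x0 x1 x4 = c (u * v) (w * x3) x0 x1 x2 x4 := by
    rw [h.s23 (u * v) (w * x3) x2 x0 x1 x4, h.s34 (u * v) (w * x3) x0 x2 x1 x4] <;> simp only [neg_neg]
  have f24 : c (u * v) (x2 * x0) w x3 x1 x4 = c (u * v) (x0 * x2) w x1 x3 x4 := by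
    simp only [h.anti x2 x0, neg_mul, mul_neg, h.n0, h.n1, h.n2, h.n3, h.n4, h.n5, neg_neg]
    rw [h.s34 (u * v) (x0 * x2) w x3 x1 x4] <;> simp only [neg_neg]
  have f25 : c (u * v) (w * x0) x3 x4 x1 x2 = c (u * v) (w * x0) x1 x2 x3 x4 := by
    rw [h.s34 (u * v) (w * x0) x3 x4 x1 x2, h.s45 (u * v) (w * x0) x3 x1 x4 x2, h.s23 (u * v) (w * x0) x3 x1 x2 x4, h.s34 (u * v) (w * x0) x1 x3 x2 x4] <;> simp only [neg_neg]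
  have f26 : c (u * v) (w * x4) x3 x0 x1 x2 = - c (u * v) (w * x4) x0 x1 x2 x3 := by
    rw [h.s23 (u * v) (w * x4) x3 x0 x1 x2, h.s34 (u * v) (w * x4) x0 x3 x1 x2, h.s45 (u * v) (w * x4) x0 x1 x3 x2] <;> simp only [neg_neg]
  have f27 : c (u * v) (x3 * x0) w x4 x1 x2 = - c (u * v) (x0 * x3) w x1 x2 x4 := by
    simp only [h.anti x3 x0, neg_mul, mul_neg, h.n0, h.n1, h.n2, h.n3, h.n4, h.n5, neg_neg]
    rw [h.s34 (u * v) (x0 * x3) w x4 x1 x2, h.s45 (u * v) (x0 * x3) w x1 x4 x2] <;> simp only [neg_neg]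
  linear_combination (norm := abel) (2:ℤ) • e0 + (-2:ℤ) • e2 + (1:ℤ) • e3 + (-1:ℤ) • e4 + (1:ℤ) • e5 + (-1:ℤ) • e7 + (1:ℤ) • e8 + (-1:ℤ) • e9 + (1:ℤ) • e16 + (1:ℤ) • e25 + (1:ℤ) • e31 + (1:ℤ) • f0 + (2:ℤ) • f1 + (2:ℤ) • f2 + (-2:ℤ) • f3 + (-1:ℤ) • f4 + (-1:ℤ) • f5 + (1:ℤ) • f6 + (1:ℤ) • f7 + (1:ℤ) • f8 + (-1:ℤ) • f9 + (-1:ℤ) • f10 + (1:ℤ) • f11 + (1:ℤ) • f12 + (1:ℤ) • f13 + (-1:ℤ) • f14 + (-1:ℤ) • f15 + (-1:ℤ) • f16 + (1:ℤ) • f17 + (1:ℤ) • f18 + (-1:ℤ) • f19 + (-1:ℤ) • f20 + (-1:ℤ) • f21 + (-1:ℤ) • f22 + (-1:ℤ) • f23 + (-1:ℤ) • f24 + (-1:ℤ) • f25 + (-1:ℤ) • f26 + (-1:ℤ) • f27 + (-1:ℤ) • h.five (c ((u * v) * w) x0 x1 x2 x3 x4) + (1:ℤ) • h.five (c ((u * v) * x0) w x1 x2 x3 x4) + (1:ℤ) • h.five (c (u * v) (w * x0) x1 x2 x3 x4)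

/-- (zA), (zC) -/
theorem CB.toCA (h : CB c) : CA c where
  anti := h.anti
  two := h.two
  add := h.add
  s01 := h.s01
  s12 := h.s12
  s23 := h.s23
  s34 := h.s34
  s45 := h.s45
  zA := h.zA
  zC := h.zC

end Z5

end Pool.Agent.MalP
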