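import Pool.Agent.MalP.Z5.Defs

/-! # Characteristic 5: consequences of (zA), (zC) -/

set_option autoImplicit false

namespace Pool.Agent.MalP

namespace Z5

set_option linter.unusedSimpArgs false
set_option linter.unusedTactic false
set_option linter.unreachableTactic false

universe v w

variable {A : Type v} {B : Type w} [NonUnitalNonAssocRing A] [AddCommGroup B]
  {c : A → A → A → A → A → A → B}

theorem CA.n0 (h : CA c) (x0 x1 x2 x3 x4 x5 : A) : c (-x0) x1 x2 x3 x4 x5 = - c x0 x1 x2 x3 x4 x5 := by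
  have h0 : c 0 x1 x2 x3 x4 x5 = 0 := by
    have := h.add 0 0 x1 x2 x3 x4 x5
    rw [add_zero] at this
    exact left_eq_add.mp this
  have h1 := h.add x0 (-x0) x1 x2 x3 x4 x5
  rw [add_neg_cancel, h0] at h1
  exact (neg_eq_of_add_eq_zero_right h1.symm).symm

theorem CA.n1 (h : CA c) (x0 x1 x2 x3 x4 x5 : A) : c x0 (-x1) x2 x3 x4 x5 = - c x0 x1 x2 x3 x4 x5 := by
  rw [h.s01 x0 (-x1), h.n0, h.s01 x0 x1]

theorem CA.n2 (h : CA c) (x0 x1 x2 x3 x4 x5 : A) : c x0 x1 (-x2) x3 x4 x5 = - c x0 x1 x2 x3 x4 x5 := by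
  rw [h.s12 x0 x1 (-x2), h.n1, h.s12 x0 x1 x2]

theorem CA.n3 (h : CA c) (x0 x1 x2 x3 x4 x5 : A) : c x0 x1 x2 (-x3) x4 x5 = - c x0 x1 x2 x3 x4 x5 := by
  rw [h.s23 x0 x1 x2 (-x3), h.n2, h.s23 x0 x1 x2 x3]

theorem CA.n4 (h : CA c) (x0 x1 x2 x3 x4 x5 : A) : c x0 x1 x2 x3 (-x4) x5 = - c x0 x1 x2 x3 x4 x5 := by
  rw [h.s34 x0 x1 x2 x3 (-x4), h.n3, h.s34 x0 x1 x2 x3 x4]

theorem CA.n5 (h : CA c) (x0 x1 x2 x3 x4 x5 : A) : c x0 x1 x2 x3 x4 (-x5) = - c x0 x1 x2 x3 x4 x5 := by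
  rw [h.s45 x0 x1 x2 x3 x4 (-x5), h.n4, h.s45 x0 x1 x2 x3 x4 x5]

theorem CA.a1 (h : CA c) (x0 x1 y x2 x3 x4 x5 : A) :
    c x0 (x1 + y) x2 x3 x4 x5 = c x0 x1 x2 x3 x4 x5 + c x0 y x2 x3 x4 x5 := by
  rw [h.s01 x0 (x1 + y), h.add, h.s01 x0 x1, h.s01 x0 y, neg_add]

theorem CA.a2 (h : CA c) (x0 x1 x2 y x3 x4 x5 : A) :
    c x0 x1 (x2 + y) x3 x4 x5 = c x0 x1 x2 x3 x4 x5 + c x0 x1 y x3 x4 x5 := by
  rw [h.s12 x0 x1 (x2 + y), h.a1, h.s12 x0 x1 x2, h.s12 x0 x1 y, neg_add]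

theorem CA.a3 (h : CA c) (x0 x1 x2 x3 y x4 x5 : A) :
    c x0 x1 x2 (x3 + y) x4 x5 = c x0 x1 x2 x3 x4 x5 + c x0 x1 x2 y x4 x5 := by
  rw [h.s23 x0 x1 x2 (x3 + y), h.a2, h.s23 x0 x1 x2 x3, h.s23 x0 x1 x2 y, neg_add]

theorem CA.neg_self (h : CA c) {b : B} (hb : b = - b) : b = 0 := by
  apply h.two
  rw [two_nsmul]
  nth_rewrite 1 [hb]
  exact neg_add_cancel b

theorem CA.al01 (h : CA c) (x y z t s : A) : c x x y z t s = 0 := h.neg_self (h.s01 _ _ _ _ _ _)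

theorem CA.al12 (h : CA c) (y x z t s : A) : c y x x z t s = 0 := h.neg_self (h.s12 _ _ _ _ _ _)

theorem CA.al23 (h : CA c) (y z x t s : A) : c y z x x t s = 0 := h.neg_self (h.s23 _ _ _ _ _ _)

theorem CA.al34 (h : CA c) (y z t x s : A) : c y z t x x s = 0 := h.neg_self (h.s34 _ _ _ _ _ _)

theorem CA.al45 (h : CA c) (y z t s x : A) : c y z t s x x = 0 := h.neg_self (h.s45 _ _ _ _ _ _)

/-- (zA), polarised -/
theorem CA.zA1 (h : CA c) (u v x x' y a b : A) :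
    c (u * v) (x * y) x' y a b + c (u * v) (x' * y) x y a b = 0 := by
  have h1 := h.zA u v (x + x') y a b
  rw [add_mul, h.a1, h.a2, h.a2, h.zA, h.zA, zero_add, add_zero] at h1
  exact h1

/-- (zC) with two equal letters -/
theorem CA.zC2 (h : CA c) (u v y x0 x1 x2 x3 : A) :
    c ((u * v) * y) x0 x1 x2 x3 y + (-1:ℤ) • c (u * v) (x0 * y) y x1 x2 x3 = 0 := by
  have e0 := h.zC u v y x0 x1 x2 x3 y
  have e1 := h.zA1 u v x0 x3 y x1 x2
  have f0 : c (u * v) (x0 * y) y x1 x2 x3 = - c (u * v) (x0 * y) x1 x2 x3 y := by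
    rw [h.s23 (u * v) (x0 * y) y x1 x2 x3, h.s34 (u * v) (x0 * y) x1 y x2 x3, h.s45 (u * v) (x0 * y) x1 x2 y x3] <;> simp only [neg_neg]
  have f1a : c (u * v) (x0 * x1) y x2 x3 y = c (u * v) (x0 * x1) x2 x3 y y := by
    rw [h.s23 (u * v) (x0 * x1) y x2 x3 y, h.s34 (u * v) (x0 * x1) x2 y x3 y] <;> simp only [neg_neg]
  have f1 : c (u * v) (x0 * x1) y x2 x3 y = 0 := by rw [f1a, h.al45]
  have f2a : c (u * v) (x1 * x2) y x0 x3 y = c (u * v) (x1 * x2) x0 x3 y y := by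
    rw [h.s23 (u * v) (x1 * x2) y x0 x3 y, h.s34 (u * v) (x1 * x2) x0 y x3 y] <;> simp only [neg_neg]
  have f2 : c (u * v) (x1 * x2) y x0 x3 y = 0 := by rw [f2a, h.al45]
  have f3a : c (u * v) (x2 * x3) y x0 x1 y = c (u * v) (x2 * x3) x0 x1 y y := by
    rw [h.s23 (u * v) (x2 * x3) y x0 x1 y, h.s34 (u * v) (x2 * x3) x0 y x1 y] <;> simp only [neg_neg]
  have f3 : c (u * v) (x2 * x3) y x0 x1 y = 0 := by rw [f3a, h.al45]
  have f4 : c (u * v) (x3 * y) y x0 x1 x2 = - c (u * v) (x3 * y) x0 x1 x2 y := by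
    rw [h.s23 (u * v) (x3 * y) y x0 x1 x2, h.s34 (u * v) (x3 * y) x0 y x1 x2, h.s45 (u * v) (x3 * y) x0 x1 y x2] <;> simp only [neg_neg]
  have f5 : c (u * v) (y * x0) y x1 x2 x3 = c (u * v) (x0 * y) x1 x2 x3 y := by
    simp only [h.anti y x0, neg_mul, mul_neg, h.n0, h.n1, h.n2, h.n3, h.n4, h.n5, neg_neg]
    rw [h.s23 (u * v) (x0 * y) y x1 x2 x3, h.s34 (u * v) (x0 * y) x1 y x2 x3, h.s45 (u * v) (x0 * y) x1 x2 y x3] <;> simp only [neg_neg]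
  have f6 : c (u * v) (x0 * y) x3 y x1 x2 = c (u * v) (x0 * y) x1 x2 x3 y := by
    rw [h.s34 (u * v) (x0 * y) x3 y x1 x2, h.s45 (u * v) (x0 * y) x3 x1 y x2, h.s23 (u * v) (x0 * y) x3 x1 x2 y, h.s34 (u * v) (x0 * y) x1 x3 x2 y] <;> simp only [neg_neg]
  have f7 : c (u * v) (x3 * y) x0 y x1 x2 = c (u * v) (x3 * y) x0 x1 x2 y := by
    rw [h.s34 (u * v) (x3 * y) x0 y x1 x2, h.s45 (u * v) (x3 * y) x0 x1 y x2] <;> simp only [neg_neg]
  apply h.two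
  linear_combination (norm := abel) (1:ℤ) • e0 + (1:ℤ) • e1 + (-2:ℤ) • f0 + (-1:ℤ) • f1 + (-1:ℤ) • f2 + (-1:ℤ) • f3 + (-1:ℤ) • f4 + (-1:ℤ) • f5 + (-1:ℤ) • f6 + (-1:ℤ) • f7

/-- three products with an equal letter -/
theorem CA.F1p (h : CA c) (u v x y a b d e : A) :
    c (u * v) (x * y) (a * b) y d e = 0 := by
  have e0 := h.zA1 u v x (a * b) y d e
  have e1 := h.zA1 a b x (u * v) y d e
  have e2 := h.zC2 a b y (u * v) x d e
  have f0 : c (u * v) (x * y) (a * b) y d e = c (a * b) (u * v) (x * y) d e y := by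
    rw [h.s12 (u * v) (x * y) (a * b) y d e, h.s34 (u * v) (a * b) (x * y) y d e, h.s45 (u * v) (a * b) (x * y) d y e, h.s01 (u * v) (a * b) (x * y) d e y] <;> simp only [neg_neg]
  have f1 : c (u * v) ((a * b) * y) x y d e = - c ((a * b) * y) (u * v) d e x y := by
    rw [h.s01 (u * v) ((a * b) * y) x y d e, h.s34 ((a * b) * y) (u * v) x y d e, h.s45 ((a * b) * y) (u * v) x d y e, h.s23 ((a * b) * y) (u * v) x d e y, h.s34 ((a * b) * y) (u * v) d x e y] <;> simp only [neg_neg]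
  have f2 : c (a * b) (x * y) (u * v) y d e = - c (a * b) (u * v) (x * y) d e y := by
    rw [h.s12 (a * b) (x * y) (u * v) y d e, h.s34 (a * b) (u * v) (x * y) y d e, h.s45 (a * b) (u * v) (x * y) d y e] <;> simp only [neg_neg]
  have f3 : c (a * b) ((u * v) * y) x y d e = - c ((u * v) * y) (a * b) d e x y := by
    rw [h.s01 (a * b) ((u * v) * y) x y d e, h.s34 ((u * v) * y) (a * b) x y d e, h.s45 ((u * v) * y) (a * b) x d y e, h.s23 ((u * v) * y) (a * b) x d e y, h.s34 ((u * v) * y) (a * b) d x e y] <;> simp only [neg_neg]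
  have f4 : c ((a * b) * y) (u * v) x d e y = c ((a * b) * y) (u * v) d e x y := by
    rw [h.s23 ((a * b) * y) (u * v) x d e y, h.s34 ((a * b) * y) (u * v) d x e y] <;> simp only [neg_neg]
  have f5 : c (a * b) ((u * v) * y) y x d e = c ((u * v) * y) (a * b) d e x y := by
    rw [h.s01 (a * b) ((u * v) * y) y x d e, h.s23 ((u * v) * y) (a * b) y x d e, h.s34 ((u * v) * y) (a * b) x y d e, h.s45 ((u * v) * y) (a * b) x d y e, h.s23 ((u * v) * y) (a * b) x d e y, h.s34 ((u * v) * y) (a * b) d x e y] <;> simp only [neg_neg]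
  apply h.two
  linear_combination (norm := abel) (1:ℤ) • e0 + (-1:ℤ) • e1 + (1:ℤ) • e2 + (1:ℤ) • f0 + (-1:ℤ) • f1 + (1:ℤ) • f2 + (1:ℤ) • f3 + (-1:ℤ) • f4 + (1:ℤ) • f5

/-- polarised -/
theorem CA.F1p1 (h : CA c) (u v x y a b y' d e : A) :
    c (u * v) (x * y) (a * b) y' d e + c (u * v) (x * y') (a * b) y d e = 0 := by
  have h1 := h.F1p u v x (y + y') a b d e
  rw [mul_add, h.a1, h.a3, h.a3, h.F1p, h.F1p, zero_add, add_zero] at h1
  exact h1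

/-- (F1) -/
theorem CA.F1 (h : CA c) (a b u v w z x y t : A) :
    c (a * b) (u * v) (w * z) x y t = 0 := by
  have e0 := h.F1p1 u v b a w z x y t
  have e1 := h.F1p1 x b v u w z a y t
  have e2 := h.F1p1 a v b x w z u y t
  have e3 := h.F1p1 a v u b w z x y t
  have e4 := h.F1p1 u x a v w z b y t
  have e5 := h.F1p1 a b u x w z v y t
  have f0 : c (a * b) (u * v) (w * z) x y t = c (a * b) (u * v) (w * z) t x y := by
    rw [h.s45 (a * b) (u * v) (w * z) x y t, h.s34 (a * b) (u * v) (w * z) x t y] <;> simp only [neg_neg]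
  have f1 : c (u * v) (b * a) (w * z) x y t = c (a * b) (u * v) (w * z) t x y := by
    simp only [h.anti b a, neg_mul, mul_neg, h.n0, h.n1, h.n2, h.n3, h.n4, h.n5, neg_neg]
    rw [h.s01 (u * v) (a * b) (w * z) x y t, h.s45 (a * b) (u * v) (w * z) x y t, h.s34 (a * b) (u * v) (w * z) x t y] <;> simp only [neg_neg]
  have f2 : c (u * v) (b * x) (w * z) a y t = c (b * x) (u * v) (w * z) a t y := by
    rw [h.s01 (u * v) (b * x) (w * z) a y t, h.s45 (b * x) (u * v) (w * z) a y t] <;> simp only [neg_neg]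
  have f3 : c (x * b) (v * u) (w * z) a y t = - c (b * x) (u * v) (w * z) a t y := by
    simp only [h.anti x b, h.anti v u, neg_mul, mul_neg, h.n0, h.n1, h.n2, h.n3, h.n4, h.n5, neg_neg]
    rw [h.s45 (b * x) (u * v) (w * z) a y t] <;> simp only [neg_neg]
  have f4 : c (x * b) (v * a) (w * z) u y t = - c (a * v) (b * x) (w * z) t u y := by
    simp only [h.anti x b, h.anti v a, neg_mul, mul_neg, h.n0, h.n1, h.n2, h.n3, h.n4, h.n5, neg_neg]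
    rw [h.s01 (b * x) (a * v) (w * z) u y t, h.s45 (a * v) (b * x) (w * z) u y t, h.s34 (a * v) (b * x) (w * z) u t y] <;> simp only [neg_neg]
  have f5 : c (a * v) (b * x) (w * z) u y t = c (a * v) (b * x) (w * z) t u y := by
    rw [h.s45 (a * v) (b * x) (w * z) u y t, h.s34 (a * v) (b * x) (w * z) u t y] <;> simp only [neg_neg]
  have f6 : c (a * v) (b * u) (w * z) x y t = c (a * v) (b * u) (w * z) t x y := by
    rw [h.s45 (a * v) (b * u) (w * z) x y t, h.s34 (a * v) (b * u) (w * z) x t y] <;> simp only [neg_neg]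
  have f7 : c (a * v) (u * b) (w * z) x y t = - c (a * v) (b * u) (w * z) t x y := by
    simp only [h.anti u b, neg_mul, mul_neg, h.n0, h.n1, h.n2, h.n3, h.n4, h.n5, neg_neg]
    rw [h.s45 (a * v) (b * u) (w * z) x y t, h.s34 (a * v) (b * u) (w * z) x t y] <;> simp only [neg_neg]
  have f8 : c (a * v) (u * x) (w * z) b y t = - c (a * v) (u * x) (w * z) b t y := by
    rw [h.s45 (a * v) (u * x) (w * z) b y t]
  have f9 : c (u * x) (a * v) (w * z) b y t = c (a * v) (u * x) (w * z) b t y := by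
    rw [h.s01 (u * x) (a * v) (w * z) b y t, h.s45 (a * v) (u * x) (w * z) b y t] <;> simp only [neg_neg]
  have f10 : c (u * x) (a * b) (w * z) v y t = - c (a * b) (u * x) (w * z) t v y := by
    rw [h.s01 (u * x) (a * b) (w * z) v y t, h.s45 (a * b) (u * x) (w * z) v y t, h.s34 (a * b) (u * x) (w * z) v t y] <;> simp only [neg_neg]
  have f11 : c (a * b) (u * x) (w * z) v y t = c (a * b) (u * x) (w * z) t v y := by
    rw [h.s45 (a * b) (u * x) (w * z) v y t, h.s34 (a * b) (u * x) (w * z) v t y] <;> simp only [neg_neg]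
  apply h.two
  linear_combination (norm := abel) (1:ℤ) • e0 + (1:ℤ) • e1 + (1:ℤ) • e2 + (1:ℤ) • e3 + (1:ℤ) • e4 + (1:ℤ) • e5 + (1:ℤ) • f0 + (-1:ℤ) • f1 + (-1:ℤ) • f2 + (-1:ℤ) • f3 + (-1:ℤ) • f4 + (-1:ℤ) • f5 + (-1:ℤ) • f6 + (-1:ℤ) • f7 + (-1:ℤ) • f8 + (-1:ℤ) • f9 + (-1:ℤ) • f10 + (-1:ℤ) • f11

/-- (F3) -/
theorem CA.F3 (h : CA c) (u v a b x y d e : A) :
    c (u * v) ((a * b) * y) x y d e = 0 := by
  have e0 := h.zA1 u v x (a * b) y d e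
  have e1 := h.F1p u v x y a b d e
  linear_combination (norm := abel) (1:ℤ) • e0 + (-1:ℤ) • e1

/-- (F3), polarised -/
theorem CA.F31 (h : CA c) (u v a b x y y' d e : A) :
    c (u * v) ((a * b) * y) x y' d e + c (u * v) ((a * b) * y') x y d e = 0 := by
  have h1 := h.F3 u v a b x (y + y') d e
  rw [mul_add, h.a1, h.a3, h.a3, h.F3, h.F3, zero_add, add_zero] at h1
  exact h1

/-- (F2) -/
theorem CA.F2 (h : CA c) (a b u v r x1 x2 x3 x4 : A) :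
    c ((a * b) * r) (u * v) x1 x2 x3 x4 + (-1:ℤ) • c (a * b) ((u * v) * r) x1 x2 x3 x4 = 0 := by
  have e0 := h.zC a b r (u * v) x1 x2 x3 x4
  have e1 := h.F1 a b x1 x2 u v r x3 x4
  have e2 := h.F1 a b x2 x3 u v r x1 x4
  have e3 := h.F1 a b x3 x4 u v r x1 x2
  have e4 := h.F31 a b u v x2 r x1 x3 x4
  have e5 := h.F31 a b u v x2 r x4 x3 x1
  have f0 : c (a * b) ((u * v) * r) x1 x2 x3 x4 = - c ((u * v) * r) (a * b) x1 x2 x3 x4 := by
    rw [h.s01 (a * b) ((u * v) * r) x1 x2 x3 x4]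
  have f1 : c (a * b) ((u * v) * x1) r x2 x3 x4 = - c ((u * v) * x1) (a * b) r x2 x3 x4 := by
    rw [h.s01 (a * b) ((u * v) * x1) r x2 x3 x4]
  have f2 : c (a * b) (x1 * x2) r (u * v) x3 x4 = c (a * b) (u * v) (x1 * x2) r x3 x4 := by
    rw [h.s23 (a * b) (x1 * x2) r (u * v) x3 x4, h.s12 (a * b) (x1 * x2) (u * v) r x3 x4] <;> simp only [neg_neg]
  have f3 : c (a * b) (x2 * x3) r (u * v) x1 x4 = c (a * b) (u * v) (x2 * x3) r x1 x4 := by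
    rw [h.s23 (a * b) (x2 * x3) r (u * v) x1 x4, h.s12 (a * b) (x2 * x3) (u * v) r x1 x4] <;> simp only [neg_neg]
  have f4 : c (a * b) (x3 * x4) r (u * v) x1 x2 = c (a * b) (u * v) (x3 * x4) r x1 x2 := by
    rw [h.s23 (a * b) (x3 * x4) r (u * v) x1 x2, h.s12 (a * b) (x3 * x4) (u * v) r x1 x2] <;> simp only [neg_neg]
  have f5 : c (a * b) (x4 * (u * v)) r x1 x2 x3 = c ((u * v) * x4) (a * b) r x1 x2 x3 := by
    simp only [h.anti x4 (u * v), neg_mul, mul_neg, h.n0, h.n1, h.n2, h.n3, h.n4, h.n5, neg_neg]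
    rw [h.s01 (a * b) ((u * v) * x4) r x1 x2 x3] <;> simp only [neg_neg]
  have f6 : c (a * b) (x1 * x2) (u * v) r x3 x4 = - c (a * b) (u * v) (x1 * x2) r x3 x4 := by
    rw [h.s12 (a * b) (x1 * x2) (u * v) r x3 x4]
  have f7 : c (a * b) (x2 * x3) (u * v) r x1 x4 = - c (a * b) (u * v) (x2 * x3) r x1 x4 := by
    rw [h.s12 (a * b) (x2 * x3) (u * v) r x1 x4]
  have f8 : c (a * b) (x3 * x4) (u * v) r x1 x2 = - c (a * b) (u * v) (x3 * x4) r x1 x2 := by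
    rw [h.s12 (a * b) (x3 * x4) (u * v) r x1 x2]
  have f9 : c (a * b) ((u * v) * r) x2 x1 x3 x4 = c ((u * v) * r) (a * b) x1 x2 x3 x4 := by
    rw [h.s01 (a * b) ((u * v) * r) x2 x1 x3 x4, h.s23 ((u * v) * r) (a * b) x2 x1 x3 x4] <;> simp only [neg_neg]
  have f10 : c (a * b) ((u * v) * x1) x2 r x3 x4 = c ((u * v) * x1) (a * b) r x2 x3 x4 := by
    rw [h.s01 (a * b) ((u * v) * x1) x2 r x3 x4, h.s23 ((u * v) * x1) (a * b) x2 r x3 x4] <;> simp only [neg_neg]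
  have f11 : c (a * b) ((u * v) * r) x2 x4 x3 x1 = - c ((u * v) * r) (a * b) x1 x2 x3 x4 := by
    rw [h.s01 (a * b) ((u * v) * r) x2 x4 x3 x1, h.s34 ((u * v) * r) (a * b) x2 x4 x3 x1, h.s45 ((u * v) * r) (a * b) x2 x3 x4 x1, h.s34 ((u * v) * r) (a * b) x2 x3 x1 x4, h.s23 ((u * v) * r) (a * b) x2 x1 x3 x4] <;> simp only [neg_neg]
  have f12 : c (a * b) ((u * v) * x4) x2 r x3 x1 = c ((u * v) * x4) (a * b) r x1 x2 x3 := by
    rw [h.s01 (a * b) ((u * v) * x4) x2 r x3 x1, h.s23 ((u * v) * x4) (a * b) x2 r x3 x1, h.s45 ((u * v) * x4) (a * b) r x2 x3 x1, h.s34 ((u * v) * x4) (a * b) r x2 x1 x3] <;> simp only [neg_neg]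
  apply h.two
  linear_combination (norm := abel) (1:ℤ) • e0 + (1:ℤ) • e1 + (1:ℤ) • e2 + (1:ℤ) • e3 + (1:ℤ) • e4 + (-1:ℤ) • e5 + (-2:ℤ) • f0 + (-1:ℤ) • f1 + (-1:ℤ) • f2 + (-1:ℤ) • f3 + (-1:ℤ) • f4 + (-1:ℤ) • f5 + (-1:ℤ) • f6 + (-1:ℤ) • f7 + (-1:ℤ) • f8 + (-1:ℤ) • f9 + (-1:ℤ) • f10 + (1:ℤ) • f11 + (1:ℤ) • f12

/-- (F4) -/
theorem CA.F4 (h : CA c) (a b u v r s x1 x2 x3 x4 : A) :
    c ((a * b) * r) ((u * v) * s) x1 x2 x3 x4 + c ((a * b) * s) ((u * v) * r) x1 x2 x3 x4 = 0 := by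
  have e0 := h.F31 (a * b) r u v x2 s x1 x3 x4
  have e1 := h.F31 (u * v) x1 a b x2 r s x3 x4
  have e2 := h.F31 (a * b) s u v x2 x1 r x3 x4
  have f0 : c ((a * b) * r) ((u * v) * s) x2 x1 x3 x4 = - c ((a * b) * r) ((u * v) * s) x1 x2 x3 x4 := by
    rw [h.s23 ((a * b) * r) ((u * v) * s) x2 x1 x3 x4]
  have f1 : c ((a * b) * r) ((u * v) * x1) x2 s x3 x4 = - c ((a * b) * r) ((u * v) * x1) s x2 x3 x4 := by
    rw [h.s23 ((a * b) * r) ((u * v) * x1) x2 s x3 x4]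
  have f2 : c ((u * v) * x1) ((a * b) * r) x2 s x3 x4 = c ((a * b) * r) ((u * v) * x1) s x2 x3 x4 := by
    rw [h.s01 ((u * v) * x1) ((a * b) * r) x2 s x3 x4, h.s23 ((a * b) * r) ((u * v) * x1) x2 s x3 x4] <;> simp only [neg_neg]
  have f3 : c ((u * v) * x1) ((a * b) * s) x2 r x3 x4 = c ((a * b) * s) ((u * v) * x1) r x2 x3 x4 := by
    rw [h.s01 ((u * v) * x1) ((a * b) * s) x2 r x3 x4, h.s23 ((a * b) * s) ((u * v) * x1) x2 r x3 x4] <;> simp only [neg_neg]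
  have f4 : c ((a * b) * s) ((u * v) * x1) x2 r x3 x4 = - c ((a * b) * s) ((u * v) * x1) r x2 x3 x4 := by
    rw [h.s23 ((a * b) * s) ((u * v) * x1) x2 r x3 x4]
  have f5 : c ((a * b) * s) ((u * v) * r) x2 x1 x3 x4 = - c ((a * b) * s) ((u * v) * r) x1 x2 x3 x4 := by
    rw [h.s23 ((a * b) * s) ((u * v) * r) x2 x1 x3 x4]
  linear_combination (norm := abel) (-1:ℤ) • e0 + (-1:ℤ) • e1 + (-1:ℤ) • e2 + (1:ℤ) • f0 + (1:ℤ) • f1 + (1:ℤ) • f2 + (1:ℤ) • f3 + (1:ℤ) • f4 + (1:ℤ) • f5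

/-- (F4') -/
theorem CA.F4b (h : CA c) (a b u v r s x1 x2 x3 x4 : A) :
    c (((a * b) * r) * s) (u * v) x1 x2 x3 x4 + c (((a * b) * s) * r) (u * v) x1 x2 x3 x4 = 0 := by
  have e0 := h.F2 (a * b) r u v s x1 x2 x3 x4
  have e1 := h.F2 (a * b) s u v r x1 x2 x3 x4
  have e2 := h.F4 a b u v r s x1 x2 x3 x4
  linear_combination (norm := abel) (1:ℤ) • e0 + (1:ℤ) • e1 + (1:ℤ) • e2

/-- (F5) -/
theorem CA.F5a (h : CA c) (a b w z u v x1 x2 x3 x4 : A) :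
    c ((a * b) * (w * z)) (u * v) x1 x2 x3 x4 = 0 := by
  have e0 := h.F2 a b u v (w * z) x1 x2 x3 x4
  have e1 := h.F31 a b u v x2 (w * z) x1 x3 x4
  have e2 := h.F1 a b (u * v) x1 w z x2 x3 x4
  have f0 : c (a * b) ((u * v) * (w * z)) x1 x2 x3 x4 = - c ((u * v) * (w * z)) (a * b) x1 x2 x3 x4 := by
    rw [h.s01 (a * b) ((u * v) * (w * z)) x1 x2 x3 x4]
  have f1 : c (a * b) ((u * v) * (w * z)) x2 x1 x3 x4 = c ((u * v) * (w * z)) (a * b) x1 x2 x3 x4 := by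
    rw [h.s01 (a * b) ((u * v) * (w * z)) x2 x1 x3 x4, h.s23 ((u * v) * (w * z)) (a * b) x2 x1 x3 x4] <;> simp only [neg_neg]
  have f2 : c (a * b) ((u * v) * x1) x2 (w * z) x3 x4 = c ((u * v) * x1) (a * b) (w * z) x2 x3 x4 := by
    rw [h.s01 (a * b) ((u * v) * x1) x2 (w * z) x3 x4, h.s23 ((u * v) * x1) (a * b) x2 (w * z) x3 x4] <;> simp only [neg_neg]
  have f3 : c (a * b) ((u * v) * x1) (w * z) x2 x3 x4 = - c ((u * v) * x1) (a * b) (w * z) x2 x3 x4 := by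
    rw [h.s01 (a * b) ((u * v) * x1) (w * z) x2 x3 x4]
  linear_combination (norm := abel) (1:ℤ) • e0 + (-1:ℤ) • e1 + (-1:ℤ) • e2 + (1:ℤ) • f0 + (1:ℤ) • f1 + (1:ℤ) • f2 + (1:ℤ) • f3

/-- (F5) -/
theorem CA.F5b (h : CA c) (a b w z x0 x1 x2 x3 x4 : A) :
    c ((a * b) * (w * z)) x0 x1 x2 x3 x4 = 0 := by
  have e0 := h.zC a b (w * z) x0 x1 x2 x3 x4
  have e1 := h.F1 a b x0 x1 w z x2 x3 x4
  have e2 := h.F1 a b x1 x2 w z x0 x3 x4
  have e3 := h.F1 a b x2 x3 w z x0 x1 x4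
  have e4 := h.F1 a b x3 x4 w z x0 x1 x2
  have e5 := h.F1 a b x4 x0 w z x1 x2 x3
  apply h.two
  linear_combination (norm := abel) (1:ℤ) • e0 + (-1:ℤ) • e1 + (-1:ℤ) • e2 + (-1:ℤ) • e3 + (-1:ℤ) • e4 + (-1:ℤ) • e5

end Z5

end Pool.Agent.MalP
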