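import Pool.Agent.MalP.Z5.Defs

/-! # The functions `K` are sums over the vertices: independence -/

set_option autoImplicit false

namespace Pool.Agent.MalP

namespace Z5

namespace LinAux

variable {F N V : Type*} [Field F] [Fintype N] [DecidableEq N] [AddCommGroup V] [Module F V]

theorem two_cancel (h2 : (2 : F) ≠ 0) {v : V} (hv : v + v = 0) : v = 0 := by
  have h : (2 : F) • v = 0 := by rw [two_smul]; exact hv
  exact (smul_eq_zero.mp h).resolve_left h2

/-- two other points of a set of at least three points -/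
theorem exists_two {S : Finset N} (hS : 3 ≤ S.card) {w : N} :
    ∃ z ∈ S, ∃ z' ∈ S, z ≠ w ∧ z' ≠ w ∧ z ≠ z' := by
  have h : 1 < (S.erase w).card := by
    have := Finset.pred_card_le_card_erase (s := S) (a := w)
    omega
  obtain ⟨z, hz, z', hz', hne⟩ := Finset.one_lt_card.mp h
  rw [Finset.mem_erase] at hz hz'
  exact ⟨z, hz.2, z', hz'.2, hz.1, hz'.1, hne⟩

/-- a function with `d w + d z = 0` for all pairs of a set of at least three points is zero -/
theorem edge_zero (h2 : (2 : F) ≠ 0) {S : Finset N} (hS : 3 ≤ S.card) {d : N → V}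
    (h : ∀ w ∈ S, ∀ z ∈ S, w ≠ z → d w + d z = 0) : ∀ w ∈ S, d w = 0 := by
  intro w hw
  obtain ⟨z, hz, z', hz', hzw, hzw', hne⟩ := exists_two hS (w := w)
  apply two_cancel h2
  have e1 := h w hw z hz hzw.symm
  have e2 := h w hw z' hz' hzw'.symm
  have e3 := h z hz z' hz' hne
  have : d w + d w = (d w + d z) + (d w + d z') - (d z + d z') := by abel
  rw [this, e1, e2, e3]
  simp

/-- the vertex lemma -/
theorem vertex (h2 : (2 : F) ≠ 0) {S : Finset N} (hS : 3 ≤ S.card) {f : N → N → V}
    (hs : ∀ w ∈ S, ∀ z ∈ S, w ≠ z → f w z = f z w)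
    (h4 : ∀ w ∈ S, ∀ z ∈ S, ∀ w' ∈ S, ∀ z' ∈ S, [w, z, w', z'].Nodup →
      f w z + f w' z' = f w z' + f w' z) :
    ∃ g : N → V, ∀ w ∈ S, ∀ z ∈ S, w ≠ z → f w z = g w + g z := by
  -- independence of the third point
  have key1 : ∀ w ∈ S, ∀ z ∈ S, ∀ z' ∈ S, ∀ y ∈ S, z ≠ w → z' ≠ w → y ≠ w → z ≠ z' → z ≠ y →
      f w z + f w z' - f z z' = f w z + f w y - f z y := by
    intro w hw z hz z' hz' y hy h1 h1' h1'' h3 h3'
    by_cases e : z' = y
    · rw [e]
    · have := h4 w hw z' hz' z hz y hy (by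
        simp only [List.nodup_cons, List.mem_cons, List.not_mem_nil, or_false, not_or,
          not_false_eq_true, List.nodup_nil, and_true]
        exact ⟨⟨h1'.symm, h1.symm, h1''.symm⟩, ⟨h3.symm, e⟩, h3'⟩)
      -- f w z' + f z y = f w y + f z z'
      have e2 : f w z' - f z z' = f w y - f z y := by
        rw [sub_eq_sub_iff_add_eq_add, this]
      rw [add_sub_assoc, e2, ← add_sub_assoc]
  have key2 : ∀ w ∈ S, ∀ z ∈ S, ∀ z' ∈ S, ∀ y ∈ S, ∀ y' ∈ S, z ≠ w → z' ≠ w → y ≠ w → y' ≠ w →
      z ≠ z' → y ≠ y' → f w z + f w z' - f z z' = f w y + f w y' - f y y' := by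
    intro w hw z hz z' hz' y hy y' hy' h1 h1' h5 h5' h3 h6
    have sy : ∀ p ∈ S, ∀ q ∈ S, p ≠ q → f w p + f w q - f p q = f w q + f w p - f q p := by
      intro p hp q hq hpq
      rw [hs p hp q hq hpq, add_comm (f w p)]
    by_cases e : z = y'
    · subst e
      rw [key1 w hw z hz z' hz' y hy h1 h1' h5 h3 h6.symm]
      exact sy z hz y hy h6.symm
    · rw [key1 w hw z hz z' hz' y' hy' h1 h1' h5' h3 e, sy z hz y' hy' e,
        key1 w hw y' hy' z hz y hy h5' h1 h5 (Ne.symm e) h6.symm]
      exact sy y' hy' y hy h6.symm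
  have ex : ∀ w, ∃ v : V, w ∈ S → ∀ z ∈ S, ∀ z' ∈ S, z ≠ w → z' ≠ w → z ≠ z' →
      f w z + f w z' - f z z' = v + v := by
    intro w
    obtain ⟨y, hy, y', hy', h1, h1', h3⟩ := exists_two hS (w := w)
    refine ⟨(2 : F)⁻¹ • (f w y + f w y' - f y y'), ?_⟩
    intro hw z hz z' hz' h5 h5' h6
    rw [key2 w hw z hz z' hz' y hy y' hy' h5 h5' h1 h1' h6 h3, ← two_smul F, smul_smul,
      mul_inv_cancel₀ h2, one_smul]
  choose g hg using ex
  refine ⟨g, ?_⟩
  intro w hw z hz hwz
  have h : 0 < ((S.erase w).erase z).card := by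
    have h1 := Finset.pred_card_le_card_erase (s := S) (a := w)
    have h3 := Finset.pred_card_le_card_erase (s := S.erase w) (a := z)
    omega
  obtain ⟨y, hy⟩ := Finset.card_pos.mp h
  rw [Finset.mem_erase, Finset.mem_erase] at hy
  obtain ⟨hyz, hyw, hyS⟩ := hy
  have e1 := hg w hw z hz y hyS hwz.symm hyw hyz.symm
  have e2 := hg z hz w hw y hyS hwz hyz hyw.symm
  have e3 : (f w z - (g w + g z)) + (f w z - (g w + g z)) = 0 := by
    have : (f w z - (g w + g z)) + (f w z - (g w + g z)) =
      ((f w z + f w y - f z y) - (g w + g w)) + ((f w z + f z y - f w y) - (g z + g z)) := by abel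
    rw [this, e1, sub_self, zero_add, hs w hw z hz hwz, e2, sub_self]
  exact sub_eq_zero.mp (two_cancel h2 e3)

/-- the complement of a few points -/
theorem compl_card (hN : 8 ≤ Fintype.card N) (T : Finset N) (hT : T.card ≤ 4) :
    3 ≤ (Finset.univ \ T).card := by
  have := Finset.le_card_sdiff T (Finset.univ : Finset N)
  rw [Finset.card_univ] at this
  omega

/-- a function of pairs whose four-sums vanish is zero -/
theorem four_zero (h2 : (2 : F) ≠ 0) (hN : 8 ≤ Fintype.card N) {χ : N → N → V}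
    (h : ∀ a b w z, [a, b, w, z].Nodup → χ a w + χ b w + χ a z + χ b z = 0) :
    ∀ a w, a ≠ w → χ a w = 0 := by
  have h1 : ∀ a b, a ≠ b → ∀ w, w ≠ a → w ≠ b → χ a w + χ b w = 0 := by
    intro a b hab w hwa hwb
    refine edge_zero h2 (compl_card hN {a, b} ((Finset.card_le_two).trans (by norm_num)))
      (d := fun w => χ a w + χ b w) ?_ w ?_
    · intro w hw z hz hwz
      simp only [Finset.mem_sdiff, Finset.mem_univ, true_and, Finset.mem_insert,
        Finset.mem_singleton, not_or] at hw hz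
      have := h a b w z (by
        simp only [List.nodup_cons, List.mem_cons, List.not_mem_nil, or_false, not_or,
          not_false_eq_true, List.nodup_nil, and_true]
        exact ⟨⟨hab, (Ne.symm hw.1), (Ne.symm hz.1)⟩, ⟨(Ne.symm hw.2), (Ne.symm hz.2)⟩, hwz⟩)
      rw [← this]
      abel
    · simp [hwa, hwb]
  intro a w haw
  refine edge_zero h2 (compl_card hN {w} (by simp)) (d := fun a => χ a w) ?_ a (by simp [haw])
  intro a ha b hb hab
  simp only [Finset.mem_sdiff, Finset.mem_univ, true_and, Finset.mem_singleton] at ha hb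
  exact h1 a b hab w (Ne.symm ha) (Ne.symm hb)

theorem s_mul_self {s : ℤ} (hs : s = 1 ∨ s = -1) (v : V) : s • s • v = v := by
  rcases hs with rfl | rfl <;> simp

end LinAux

open LinAux

variable {F N V W E : Type*} [Field F] [Fintype N] [LinearOrder N] [AddCommGroup V] [Module F V]
  [AddCommGroup W] [Module F W] [AddCommGroup E] [Module F E]

/-- `K a b w z = ψ a w + ψ b w + ψ a z + ψ b z` -/
theorem IsK.exists_psi (h2 : (2 : F) ≠ 0) (hN : 8 ≤ Fintype.card N) {s : ℤ} (hs : s = 1 ∨ s = -1)
    {K : N → N → N → N → V} (hK : IsK s K) :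
    ∃ ψ : N → N → V, (∀ a w, a ≠ w → ψ a w = s • ψ w a) ∧
      ∀ a b w z, [a, b, w, z].Nodup → K a b w z = ψ a w + ψ b w + ψ a z + ψ b z := by
  classical
  have nd4 : ∀ {a b c d : N}, a ≠ b → a ≠ c → a ≠ d → b ≠ c → b ≠ d → c ≠ d →
      [a, b, c, d].Nodup := by
    intro a b c d h1 h3 h4 h5 h6 h7
    simp only [List.nodup_cons, List.mem_cons, List.not_mem_nil, or_false, not_or,
      not_false_eq_true, List.nodup_nil, and_true]
    exact ⟨⟨h1, h3, h4⟩, ⟨h5, h6⟩, h7⟩
  -- first step
  have st1 : ∀ a b, ∃ g : N → V, a ≠ b → ∀ w z, [a, b, w, z].Nodup → K a b w z = g w + g z := by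
    intro a b
    by_cases hab : a = b
    · exact ⟨0, fun h => absurd hab h⟩
    · have hc := compl_card hN {a, b} ((Finset.card_le_two).trans (by norm_num))
      obtain ⟨g, hg⟩ := vertex (f := K a b) h2 hc (by
        intro w hw z hz hwz
        simp only [Finset.mem_sdiff, Finset.mem_univ, true_and, Finset.mem_insert,
          Finset.mem_singleton, not_or] at hw hz
        exact (hK.k2 a b w z (nd4 hab (Ne.symm hw.1) (Ne.symm hz.1) (Ne.symm hw.2) (Ne.symm hz.2) hwz)).symm) (by
        intro w hw z hz w' hw' z' hz' hnd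
        simp only [Finset.mem_sdiff, Finset.mem_univ, true_and, Finset.mem_insert,
          Finset.mem_singleton, not_or] at hw hz hw' hz'
        refine hK.k4 a b w z w' z' ?_
        rw [List.nodup_cons, List.nodup_cons]
        refine ⟨?_, ?_, hnd⟩
        · simp only [List.mem_cons, List.not_mem_nil, or_false, not_or]
          exact ⟨hab, (Ne.symm hw.1), (Ne.symm hz.1), (Ne.symm hw'.1), (Ne.symm hz'.1)⟩
        · simp only [List.mem_cons, List.not_mem_nil, or_false, not_or]
          exact ⟨(Ne.symm hw.2), (Ne.symm hz.2), (Ne.symm hw'.2), (Ne.symm hz'.2)⟩)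
      refine ⟨g, fun _ w z hnd => ?_⟩
      simp only [List.nodup_cons, List.mem_cons, List.not_mem_nil, or_false, not_or,
        not_false_eq_true, List.nodup_nil, and_true] at hnd
      obtain ⟨⟨_, h3, h4⟩, ⟨h5, h6⟩, h7⟩ := hnd
      exact hg w (by simp [Ne.symm h3, Ne.symm h5]) z (by simp [Ne.symm h4, Ne.symm h6]) h7
  choose g hg using st1
  -- symmetry of g
  have gsym : ∀ a b w, a ≠ b → w ≠ a → w ≠ b → g a b w = g b a w := by
    intro a b w hab hwa hwb
    rw [← sub_eq_zero]
    refine edge_zero h2 (compl_card hN {a, b} ((Finset.card_le_two).trans (by norm_num)))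
      (d := fun w => g a b w - g b a w) ?_ w (by simp [hwa, hwb])
    intro w hw z hz hwz
    simp only [Finset.mem_sdiff, Finset.mem_univ, true_and, Finset.mem_insert,
      Finset.mem_singleton, not_or] at hw hz
    have n1 : [a, b, w, z].Nodup := nd4 hab (Ne.symm hw.1) (Ne.symm hz.1) (Ne.symm hw.2) (Ne.symm hz.2) hwz
    have n2 : [b, a, w, z].Nodup := nd4 (Ne.symm hab) (Ne.symm hw.2) (Ne.symm hz.2) (Ne.symm hw.1) (Ne.symm hz.1) hwz
    have e1 := hg a b hab w z n1
    have e2 := hg b a (Ne.symm hab) w z n2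
    have e3 := hK.k1 a b w z n1
    have : g a b w - g b a w + (g a b z - g b a z) = (g a b w + g a b z) - (g b a w + g b a z) := by
      abel
    rw [this, ← e1, ← e2, e3, sub_self]
  -- four-cycle relation of g
  have g4 : ∀ w a b a' b', [a, b, a', b'].Nodup → w ≠ a → w ≠ b → w ≠ a' → w ≠ b' →
      g a b w + g a' b' w = g a b' w + g a' b w := by
    intro w a b a' b' hnd h1 h3 h4 h5
    rw [← sub_eq_zero]
    have hnd' := hnd
    simp only [List.nodup_cons, List.mem_cons, List.not_mem_nil, or_false, not_or,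
      not_false_eq_true, List.nodup_nil, and_true] at hnd'
    obtain ⟨⟨d1, d2, d3⟩, ⟨d4, d5⟩, d6⟩ := hnd'
    refine edge_zero h2 (compl_card hN {a, b, a', b'} Finset.card_le_four)
      (d := fun w => g a b w + g a' b' w - (g a b' w + g a' b w)) ?_ w (by simp [h1, h3, h4, h5])
    intro w hw z hz hwz
    simp only [Finset.mem_sdiff, Finset.mem_univ, true_and, Finset.mem_insert,
      Finset.mem_singleton, not_or] at hw hz
    obtain ⟨w1, w2, w3, w4⟩ := hw
    obtain ⟨z1, z2, z3, z4⟩ := hz
    have e1 := hg a b d1 w z (nd4 d1 (Ne.symm w1) (Ne.symm z1) (Ne.symm w2) (Ne.symm z2) hwz)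
    have e2 := hg a' b' d6 w z (nd4 d6 (Ne.symm w3) (Ne.symm z3) (Ne.symm w4) (Ne.symm z4) hwz)
    have e3 := hg a b' d3 w z (nd4 d3 (Ne.symm w1) (Ne.symm z1) (Ne.symm w4) (Ne.symm z4) hwz)
    have e4 := hg a' b (Ne.symm d4) w z (nd4 (Ne.symm d4) (Ne.symm w3) (Ne.symm z3) (Ne.symm w2) (Ne.symm z2) hwz)
    -- the relation in the first variables
    have k := hK.k4 w z a b a' b' (by
      rw [List.nodup_cons, List.nodup_cons]
      refine ⟨?_, ?_, hnd⟩
      · simp only [List.mem_cons, List.not_mem_nil, or_false, not_or]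
        exact ⟨hwz, w1, w2, w3, w4⟩
      · simp only [List.mem_cons, List.not_mem_nil, or_false, not_or]
        exact ⟨z1, z2, z3, z4⟩)
    rw [hK.k3 a b w z (nd4 d1 (Ne.symm w1) (Ne.symm z1) (Ne.symm w2) (Ne.symm z2) hwz),
      hK.k3 a' b' w z (nd4 d6 (Ne.symm w3) (Ne.symm z3) (Ne.symm w4) (Ne.symm z4) hwz),
      hK.k3 a b' w z (nd4 d3 (Ne.symm w1) (Ne.symm z1) (Ne.symm w4) (Ne.symm z4) hwz),
      hK.k3 a' b w z (nd4 (Ne.symm d4) (Ne.symm w3) (Ne.symm z3) (Ne.symm w2) (Ne.symm z2) hwz),
      ← smul_add, ← smul_add] at k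
    have k' := congrArg (fun v => s • v) k
    simp only [s_mul_self hs] at k'
    rw [e1, e2, e3, e4] at k'
    have : g a b w + g a' b' w - (g a b' w + g a' b w) +
        (g a b z + g a' b' z - (g a b' z + g a' b z)) =
        (g a b w + g a b z + (g a' b' w + g a' b' z)) -
          (g a b' w + g a b' z + (g a' b w + g a' b z)) := by abel
    rw [this, k', sub_self]
  -- second step
  have st2 : ∀ w, ∃ p : N → V, ∀ a b, a ≠ b → w ≠ a → w ≠ b → g a b w = p a + p b := by
    intro w
    have hc := compl_card hN {w} (by simp)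
    obtain ⟨p, hp⟩ := vertex (f := fun a b => g a b w) h2 hc (by
      intro a ha b hb hab
      simp only [Finset.mem_sdiff, Finset.mem_univ, true_and, Finset.mem_singleton] at ha hb
      exact gsym a b w hab (Ne.symm ha) (Ne.symm hb)) (by
      intro a ha b hb a' ha' b' hb' hnd
      simp only [Finset.mem_sdiff, Finset.mem_univ, true_and, Finset.mem_singleton] at ha hb ha' hb'
      exact g4 w a b a' b' hnd (Ne.symm ha) (Ne.symm hb) (Ne.symm ha') (Ne.symm hb'))
    refine ⟨p, fun a b hab hwa hwb => ?_⟩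
    exact hp a (by simp [Ne.symm hwa]) b (by simp [Ne.symm hwb]) hab
  choose p hp using st2
  have main : ∀ a b w z, [a, b, w, z].Nodup → K a b w z = p w a + p w b + p z a + p z b := by
    intro a b w z hnd
    have hnd' := hnd
    simp only [List.nodup_cons, List.mem_cons, List.not_mem_nil, or_false, not_or,
      not_false_eq_true, List.nodup_nil, and_true] at hnd'
    obtain ⟨⟨d1, d2, d3⟩, ⟨d4, d5⟩, d6⟩ := hnd'
    rw [hg a b d1 w z hnd, hp w a b d1 (Ne.symm d2) (Ne.symm d4),
      hp z a b d1 (Ne.symm d3) (Ne.symm d5)]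
    abel
  refine ⟨fun a w => p w a, ?_, main⟩
  -- third step
  intro a w haw
  rw [← sub_eq_zero]
  refine four_zero h2 hN (χ := fun a w => p w a - s • p a w) ?_ a w haw
  intro a b w z hnd
  have hnd' := hnd
  simp only [List.nodup_cons, List.mem_cons, List.not_mem_nil, or_false, not_or,
    not_false_eq_true, List.nodup_nil, and_true] at hnd'
  obtain ⟨⟨d1, d2, d3⟩, ⟨d4, d5⟩, d6⟩ := hnd'
  have m1 := main a b w z hnd
  have m2 := main w z a b (nd4 d6 (Ne.symm d2) (Ne.symm d4) (Ne.symm d3) (Ne.symm d5) d1)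
  rw [hK.k3 a b w z hnd] at m2
  have m3 := congrArg (fun v => s • v) m2
  simp only [s_mul_self hs] at m3
  rw [m1] at m3
  have : p w a - s • p a w + (p w b - s • p b w) + (p z a - s • p a z) + (p z b - s • p b z) =
      (p w a + p w b + p z a + p z b) - s • (p a w + p a z + p b w + p b z) := by
    simp only [smul_add]
    abel
  rw [this, m3, sub_self]

/-- independence -/
theorem inj_of_K (h2 : (2 : F) ≠ 0) (hN : 8 ≤ Fintype.card N) {s : ℤ} (hs : s = 1 ∨ s = -1)
    {K : N → N → N → N → V} (hK : IsK s K) (Φ : V →ₗ[F] W) (zc : N → N → W →ₗ[F] E)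
    (κ : N → N → E) (hκ : ∀ i j, i < j → κ i j ≠ 0)
    (hz : ∀ a b w z, [a, b, w, z].Nodup → ∀ i j, i < j → zc i j (Φ (K a b w z)) =
      (if (i = a ∨ i = b) ∧ (j = w ∨ j = z) then κ i j else 0) +
        (if (i = w ∨ i = z) ∧ (j = a ∨ j = b) then s • κ i j else 0))
    {q : V} (hq : q ∈ Submodule.span F {v | ∃ a b w z, [a, b, w, z].Nodup ∧ v = K a b w z})
    (h0 : Φ q = 0) : q = 0 := by
  classical
  obtain ⟨ψ, hψ, hm⟩ := IsK.exists_psi (F := F) h2 hN hs hK
  -- the components of `ψ a w`
  have comp : ∀ i j, i < j → ∀ a w, a ≠ w → zc i j (Φ (ψ a w)) =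
      (if i = a ∧ j = w then κ i j else 0) + (if i = w ∧ j = a then s • κ i j else 0) := by
    intro i j hij a w haw
    rw [← sub_eq_zero]
    refine four_zero h2 hN (χ := fun a w => zc i j (Φ (ψ a w)) -
      ((if i = a ∧ j = w then κ i j else 0) + (if i = w ∧ j = a then s • κ i j else 0))) ?_ a w haw
    intro a b w z hnd
    have hnd' := hnd
    simp only [List.nodup_cons, List.mem_cons, List.not_mem_nil, or_false, not_or,
      not_false_eq_true, List.nodup_nil, and_true] at hnd'
    obtain ⟨⟨d1, d2, d3⟩, ⟨d4, d5⟩, d6⟩ := hnd'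
    have e := hz a b w z hnd i j hij
    rw [hm a b w z hnd, map_add, map_add, map_add, map_add, map_add, map_add] at e
    have r1 : (if (i = a ∨ i = b) ∧ (j = w ∨ j = z) then κ i j else 0) =
        (if i = a ∧ j = w then κ i j else 0) + (if i = b ∧ j = w then κ i j else 0) +
        (if i = a ∧ j = z then κ i j else 0) + (if i = b ∧ j = z then κ i j else 0) := by
      by_cases h1 : i = a
      · have h3 : i ≠ b := fun h => d1 (h1.symm.trans h)
        by_cases h4 : j = w
        · have h5 : j ≠ z := fun h => d6 (h4.symm.trans h)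
          simp only [h1, h4, true_or, true_and, and_self, if_true]
          simp [d1, d6]
        · by_cases h5 : j = z
          · simp [h1, h5, d1, Ne.symm d6]
          · simp [h4, h5]
      · by_cases h3 : i = b
        · by_cases h4 : j = w
          · simp [h3, h4, Ne.symm d1, d6]
          · by_cases h5 : j = z
            · simp [h3, h5, Ne.symm d1, Ne.symm d6]
            · simp [h4, h5]
        · simp [h1, h3]
    have r2 : (if (i = w ∨ i = z) ∧ (j = a ∨ j = b) then s • κ i j else 0) =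
        (if i = w ∧ j = a then s • κ i j else 0) + (if i = w ∧ j = b then s • κ i j else 0) +
        (if i = z ∧ j = a then s • κ i j else 0) + (if i = z ∧ j = b then s • κ i j else 0) := by
      by_cases h1 : i = w
      · by_cases h4 : j = a
        · simp [h1, h4, d1, d6]
        · by_cases h5 : j = b
          · simp [h1, h5, Ne.symm d1, d6]
          · simp [h4, h5]
      · by_cases h3 : i = z
        · by_cases h4 : j = a
          · simp [h3, h4, d1, Ne.symm d6]
          · by_cases h5 : j = b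
            · simp [h3, h5, Ne.symm d1, Ne.symm d6]
            · simp [h4, h5]
        · simp [h1, h3]
    rw [r1, r2] at e
    rw [← sub_eq_zero] at e
    refine Eq.trans ?_ e
    abel
  -- `q` is a combination of the `ψ a w`, `a < w`
  have hq' : q ∈ Submodule.span F (Set.range fun x : {x : N × N // x.1 < x.2} =>
      ψ x.1.1 x.1.2) := by
    have hmem : ∀ a w, a ≠ w → ψ a w ∈ Submodule.span F
        (Set.range fun x : {x : N × N // x.1 < x.2} => ψ x.1.1 x.1.2) := by
      intro a w haw
      rcases lt_or_gt_of_ne haw with h | h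
      · exact Submodule.subset_span ⟨⟨(a, w), h⟩, rfl⟩
      · rw [hψ a w haw]
        have h3 : ψ w a ∈ Submodule.span F
            (Set.range fun x : {x : N × N // x.1 < x.2} => ψ x.1.1 x.1.2) :=
          Submodule.subset_span ⟨⟨(w, a), h⟩, rfl⟩
        exact zsmul_mem h3 s
    refine (Submodule.span_le.mpr ?_) hq
    rintro v ⟨a, b, w, z, hnd, rfl⟩
    have hnd' := hnd
    simp only [List.nodup_cons, List.mem_cons, List.not_mem_nil, or_false, not_or,
      not_false_eq_true, List.nodup_nil, and_true] at hnd'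
    obtain ⟨⟨d1, d2, d3⟩, ⟨d4, d5⟩, d6⟩ := hnd'
    rw [hm a b w z hnd]
    exact add_mem (add_mem (add_mem (hmem a w d2) (hmem b w d4)) (hmem a z d3)) (hmem b z d5)
  obtain ⟨c, hc⟩ := (Submodule.mem_span_range_iff_exists_fun F).mp hq'
  have hc0 : ∀ x : {x : N × N // x.1 < x.2}, c x = 0 := by
    rintro ⟨⟨i, j⟩, hij⟩
    have e : zc i j (Φ q) = 0 := by rw [h0, map_zero]
    rw [← hc, map_sum, map_sum, Finset.sum_eq_single ⟨(i, j), hij⟩] at e
    · rw [map_smul, map_smul, comp i j hij i j hij.ne] at e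
      simp only [and_self, if_true] at e
      rw [if_neg (fun h => hij.ne h.1), add_zero] at e
      exact (smul_eq_zero.mp e).resolve_right (hκ i j hij)
    · rintro ⟨⟨a, w⟩, haw⟩ _ hne
      rw [map_smul, map_smul, comp i j hij a w haw.ne]
      rw [if_neg, if_neg, add_zero, smul_zero]
      · rintro ⟨h1, h3⟩
        subst h1; subst h3
        exact absurd haw (not_lt.mpr hij.le)
      · rintro ⟨h1, h3⟩
        subst h1; subst h3
        exact hne rfl
    · intro h
      exact absurd (Finset.mem_univ _) h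
  rw [← hc]
  exact Finset.sum_eq_zero fun x _ => by rw [hc0 x, zero_smul]

end Z5

end Pool.Agent.MalP
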