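import Pool.Agent.MalP.Z5.Defs

/-! # Signs of lists, the function `K` -/

set_option autoImplicit false

open scoped BigOperators

namespace Pool.Agent.MalP

namespace Z5

/-- the sign of a list (0 if there is a repetition) -/
def sg : List ℕ → ℤ
  | [] => 1
  | x :: l => (l.map fun y => Int.sign ((y : ℤ) - x)).prod * sg l

namespace SgnAux

/-- functions which are invariant under the adjacent swaps of lists of length `n` -/
def SymL {A : Type*} {B : Type*} (n : ℕ) (f : List A → B) : Prop :=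
  ∀ (l1 : List A) (x y : A) (l2 : List A), (l1 ++ x :: y :: l2).length = n →
    f (l1 ++ x :: y :: l2) = f (l1 ++ y :: x :: l2)

theorem SymL.perm {A : Type*} {B : Type*} {n : ℕ} {f : List A → B} (hf : SymL n f)
    {l l' : List A} (h : l.Perm l') (hn : l.length = n) : f l = f l' := by
  have key : ∀ l1 : List A, (l1 ++ l).length = n → f (l1 ++ l) = f (l1 ++ l') := by
    clear hn
    induction h with
    | nil => exact fun l1 _ => rfl
    | cons x h ih =>
      rename_i l l'
      intro l1 hn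
      have h1 := ih (l1 ++ [x]) (by
        rw [← hn]
        simp)
      have h2 : l1 ++ [x] ++ l = l1 ++ x :: l := by simp
      have h3 : l1 ++ [x] ++ l' = l1 ++ x :: l' := by simp
      rwa [h2, h3] at h1
    | swap x y l => exact fun l1 hn => hf l1 y x l hn
    | trans h1 h2 ih1 ih2 =>
      intro l1 hn
      exact (ih1 l1 hn).trans (ih2 l1 (by
        rw [← hn, List.length_append, List.length_append, h1.length_eq]))
  exact key [] hn

theorem sg_cons (x : ℕ) (l : List ℕ) :
    sg (x :: l) = (l.map fun y : ℕ => Int.sign ((y : ℤ) - (x : ℤ))).prod * sg l := by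
  rw [sg]
  congr 2
  show List.map (fun y : ℤ => (y - (x : ℤ)).sign) (l >>= fun a => pure (a : ℤ)) = _
  rw [bind_pure_comp]
  show List.map _ (List.map _ l) = _
  rw [List.map_map]
  rfl

theorem sg_swap (l1 : List ℕ) (x y : ℕ) (l2 : List ℕ) :
    sg (l1 ++ x :: y :: l2) = - sg (l1 ++ y :: x :: l2) := by
  induction l1 with
  | nil =>
    have hxy : Int.sign ((x : ℤ) - y) = - Int.sign ((y : ℤ) - x) := by
      rw [← Int.sign_neg, neg_sub]
    rw [List.nil_append, List.nil_append, sg_cons, sg_cons, sg_cons, sg_cons, List.map_cons,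
      List.map_cons, List.prod_cons, List.prod_cons, hxy]
    ring
  | cons a l1 ih =>
    rw [List.cons_append, List.cons_append, sg_cons, sg_cons, ih]
    have hp : (((l1 ++ x :: y :: l2).map fun t : ℕ => Int.sign ((t : ℤ) - (a : ℤ)))).prod =
        (((l1 ++ y :: x :: l2).map fun t : ℕ => Int.sign ((t : ℤ) - (a : ℤ)))).prod := by
      apply List.Perm.prod_eq
      apply List.Perm.map
      exact List.Perm.append_left l1 (List.Perm.swap y x l2)
    rw [hp]
    ring

theorem prod_unit (l : List ℤ) (h : ∀ x ∈ l, x = 1 ∨ x = -1) : l.prod = 1 ∨ l.prod = -1 := by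
  induction l with
  | nil => exact Or.inl rfl
  | cons x l ih =>
    rw [List.prod_cons]
    rcases h x List.mem_cons_self with hx | hx <;>
      rcases ih (fun y hy => h y (List.mem_cons_of_mem _ hy)) with hl | hl <;>
      rw [hx, hl] <;> simp

/-- the product of a skew function with the sign is symmetric -/
theorem sym_smul {B : Type*} [AddCommGroup B] {m : ℕ} (p : List ℕ) {f : List ℕ → B}
    (hf : ∀ (l1 : List ℕ) (x y : ℕ) (l2 : List ℕ), (l1 ++ x :: y :: l2).length = m →
      f (l1 ++ x :: y :: l2) = - f (l1 ++ y :: x :: l2)) :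
    SymL m (fun l => sg (p ++ l) • f l) := by
  intro l1 x y l2 h
  show sg (p ++ (l1 ++ x :: y :: l2)) • f (l1 ++ x :: y :: l2) =
    sg (p ++ (l1 ++ y :: x :: l2)) • f (l1 ++ y :: x :: l2)
  rw [hf l1 x y l2 h, ← List.append_assoc, sg_swap, List.append_assoc, smul_neg, neg_smul,
    neg_neg]

theorem nodup_of {L : Finset ℕ} {l : List ℕ} (h : (l : Multiset ℕ) = L.val) : l.Nodup := by
  rw [← Multiset.coe_nodup, h]
  exact L.nodup

theorem mem_of {L : Finset ℕ} {l : List ℕ} (h : (l : Multiset ℕ) = L.val) {x : ℕ} :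
    x ∈ l ↔ x ∈ L := by
  rw [← Multiset.mem_coe, h]
  exact Iff.rfl

theorem length_of {L : Finset ℕ} {l : List ℕ} (h : (l : Multiset ℕ) = L.val) :
    l.length = L.card := by
  rw [← Multiset.coe_card, h]
  rfl

/-- a list with a head: the tail is an arrangement of the rest -/
theorem tail_of {L : Finset ℕ} {a : ℕ} {l : List ℕ} (h : ((a :: l : List ℕ) : Multiset ℕ) = L.val) :
    (l : Multiset ℕ) = (L.erase a).val := by
  rw [Finset.erase_val, ← h]
  simp

/-- conversely -/
theorem cons_of {L : Finset ℕ} {a : ℕ} {l : List ℕ} (ha : a ∈ L)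
    (h : (l : Multiset ℕ) = (L.erase a).val) : ((a :: l : List ℕ) : Multiset ℕ) = L.val := by
  rw [← Multiset.cons_coe, h, Finset.erase_val]
  exact Multiset.cons_erase ha

end SgnAux

open SgnAux

theorem sg_skew (n : ℕ) : SkewL n sg := fun l1 x y l2 _ => sg_swap l1 x y l2

theorem sg_unit {l : List ℕ} (h : l.Nodup) : sg l = 1 ∨ sg l = -1 := by
  induction l with
  | nil => exact Or.inl rfl
  | cons x l ih =>
    rw [List.nodup_cons] at h
    rw [sg_cons]
    have h1 : (l.map fun y : ℕ => Int.sign ((y : ℤ) - (x : ℤ))).prod = 1 ∨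
        (l.map fun y : ℕ => Int.sign ((y : ℤ) - (x : ℤ))).prod = -1 := by
      apply prod_unit
      intro t ht
      obtain ⟨y, hy, rfl⟩ := List.mem_map.1 ht
      have hne : y ≠ x := by
        rintro rfl
        exact h.1 hy
      rcases Nat.lt_or_gt_of_ne hne with h2 | h2
      · right
        apply Int.sign_eq_neg_one_of_neg
        omega
      · left
        apply Int.sign_eq_one_of_pos
        omega
    rcases h1 with h1 | h1 <;> rcases ih h.2 with h2 | h2 <;> rw [h1, h2] <;> simp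

variable {V : Type*} [AddCommGroup V]

/-- the rest of the letters -/
noncomputable def rest (L : Finset ℕ) (a b w z : ℕ) : List ℕ :=
  ((((L.erase a).erase b).erase w).erase z).toList

/-- the function `K` -/
noncomputable def KK (L : Finset ℕ) (G : List ℕ → V) (a b w z : {x // x ∈ L}) : V :=
  sg (a.1 :: b.1 :: w.1 :: z.1 :: rest L a.1 b.1 w.1 z.1) •
    G (a.1 :: b.1 :: w.1 :: z.1 :: rest L a.1 b.1 w.1 z.1)

/-- the lists are determined up to sign by the first four entries -/
theorem KK_eq (L : Finset ℕ) {s : ℤ} {G : List ℕ → V} (hG : IsG L.card s G) (a b w z : {x // x ∈ L})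
    (U : List ℕ) (h : ((a.1 :: b.1 :: w.1 :: z.1 :: U : List ℕ) : Multiset ℕ) = L.val) :
    KK L G a b w z = sg (a.1 :: b.1 :: w.1 :: z.1 :: U) • G (a.1 :: b.1 :: w.1 :: z.1 :: U) := by
  have hU : (U : Multiset ℕ) = ((((L.erase a.1).erase b.1).erase w.1).erase z.1).val :=
    tail_of (tail_of (tail_of (tail_of h)))
  have hperm : U.Perm (rest L a.1 b.1 w.1 z.1) := by
    rw [← Multiset.coe_eq_coe, hU, rest, Finset.coe_toList]
  have hlen : U.length + 4 = L.card := by
    rw [← length_of h]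
    rfl
  have hsym : SymL U.length (fun l => sg ([a.1, b.1, w.1, z.1] ++ l) •
      G (a.1 :: b.1 :: w.1 :: z.1 :: l)) := by
    refine sym_smul [a.1, b.1, w.1, z.1] (f := fun l => G (a.1 :: b.1 :: w.1 :: z.1 :: l)) ?_
    intro l1 x y l2 hl
    exact hG.gU a.1 b.1 w.1 z.1 l1 x y l2 (by rw [hl]; exact hlen)
  exact (hsym.perm hperm rfl).symm

namespace SgnAux

variable {L : Finset ℕ}

theorem rest_of {a b w z : {x // x ∈ L}} (h : [a, b, w, z].Nodup) :
    ((a.1 :: b.1 :: w.1 :: z.1 :: rest L a.1 b.1 w.1 z.1 : List ℕ) : Multiset ℕ) = L.val := by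
  simp only [List.nodup_cons, List.mem_cons, List.not_mem_nil, or_false, not_or, not_false_eq_true,
    List.nodup_nil, and_true] at h
  obtain ⟨⟨hab, haw, haz⟩, ⟨hbw, hbz⟩, hwz⟩ := h
  have e : ∀ {x y : {x // x ∈ L}}, ¬ x = y → y.1 ≠ x.1 := fun h h' => h (Subtype.ext h'.symm)
  refine cons_of a.2 (cons_of ?_ (cons_of ?_ (cons_of ?_ ?_)))
  · exact Finset.mem_erase.2 ⟨e hab, b.2⟩
  · exact Finset.mem_erase.2 ⟨e hbw, Finset.mem_erase.2 ⟨e haw, w.2⟩⟩
  · exact Finset.mem_erase.2 ⟨e hwz, Finset.mem_erase.2 ⟨e hbz, Finset.mem_erase.2 ⟨e haz, z.2⟩⟩⟩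
  · rw [rest, Finset.coe_toList]

/-- the first four letters can be rearranged -/
theorem perm_of {l l' : List ℕ} (h : (l : Multiset ℕ) = L.val) (hp : l'.Perm l) :
    (l' : Multiset ℕ) = L.val := by
  rw [← h]
  exact Multiset.coe_eq_coe.2 hp

end SgnAux

theorem isK_KK (L : Finset ℕ) (hL : 6 ≤ L.card) {s : ℤ} (hs : s = 1 ∨ s = -1) {G : List ℕ → V}
    (hG : IsG L.card s G) : IsK s (KK L G) := by
  refine ⟨?_, ?_, ?_, ?_⟩
  · intro a b w z hn
    have h := rest_of hn
    have hlen : (rest L a.1 b.1 w.1 z.1).length + 4 = L.card := by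
      rw [← length_of h]
      rfl
    rw [KK_eq L hG a b w z _ h, KK_eq L hG b a w z _ (perm_of h (List.Perm.swap _ _ _)),
      hG.g01 _ _ _ _ _ hlen, show sg (b.1 :: a.1 :: w.1 :: z.1 :: rest L a.1 b.1 w.1 z.1) =
        - sg (a.1 :: b.1 :: w.1 :: z.1 :: rest L a.1 b.1 w.1 z.1) from sg_swap [] _ _ _,
      smul_neg, neg_smul, neg_neg]
  · intro a b w z hn
    have h := rest_of hn
    have hlen : (rest L a.1 b.1 w.1 z.1).length + 4 = L.card := by
      rw [← length_of h]
      rfl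
    rw [KK_eq L hG a b w z _ h, KK_eq L hG a b z w _
        (perm_of h (((List.Perm.swap _ _ _).cons _).cons _)),
      hG.g23 _ _ _ _ _ hlen, show sg (a.1 :: b.1 :: z.1 :: w.1 :: rest L a.1 b.1 w.1 z.1) =
        - sg (a.1 :: b.1 :: w.1 :: z.1 :: rest L a.1 b.1 w.1 z.1) from sg_swap [_, _] _ _ _,
      smul_neg, neg_smul, neg_neg]
  · intro a b w z hn
    have h := rest_of hn
    have hlen : (rest L a.1 b.1 w.1 z.1).length + 4 = L.card := by
      rw [← length_of h]
      rfl
    have e1 : sg (w.1 :: z.1 :: a.1 :: b.1 :: rest L a.1 b.1 w.1 z.1) =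
        sg (a.1 :: b.1 :: w.1 :: z.1 :: rest L a.1 b.1 w.1 z.1) := by
      have q1 : ∀ x1 x2 x3 x4 : ℕ, ∀ U : List ℕ, sg (x1 :: x2 :: x3 :: x4 :: U) =
          - sg (x2 :: x1 :: x3 :: x4 :: U) := fun x1 x2 x3 x4 U => sg_swap [] x1 x2 (x3 :: x4 :: U)
      have q2 : ∀ x1 x2 x3 x4 : ℕ, ∀ U : List ℕ, sg (x1 :: x2 :: x3 :: x4 :: U) =
          - sg (x1 :: x3 :: x2 :: x4 :: U) := fun x1 x2 x3 x4 U => sg_swap [x1] x2 x3 (x4 :: U)
      have q3 : ∀ x1 x2 x3 x4 : ℕ, ∀ U : List ℕ, sg (x1 :: x2 :: x3 :: x4 :: U) =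
          - sg (x1 :: x2 :: x4 :: x3 :: U) := fun x1 x2 x3 x4 U => sg_swap [x1, x2] x3 x4 U
      rw [q2 w.1 z.1 a.1 b.1, q1 w.1 a.1 z.1 b.1, q3 a.1 w.1 z.1 b.1, q2 a.1 w.1 b.1 z.1]
      ring
    rw [KK_eq L hG a b w z _ h, KK_eq L hG w z a b (rest L a.1 b.1 w.1 z.1) ?_,
      hG.gs _ _ _ _ _ hlen, e1, smul_comm]
    refine perm_of h ?_
    exact List.perm_append_comm_assoc [w.1, z.1] [a.1, b.1] (rest L a.1 b.1 w.1 z.1)
  · intro a b w z w' z' hn
    -- the list of the six letters and the rest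
    have hn' : [a, b, w, z].Nodup := hn.sublist (by
      exact List.sublist_append_left [a, b, w, z] [w', z'])
    have h0 := rest_of hn'
    simp only [List.nodup_cons, List.mem_cons, List.not_mem_nil, or_false, not_or,
      not_false_eq_true, List.nodup_nil, and_true] at hn
    obtain ⟨⟨_, _, _, haw', haz'⟩, ⟨_, _, hbw', hbz'⟩, ⟨_, hww', hwz'⟩, ⟨hzw', hzz'⟩, hw'z'⟩ := hn
    have e : ∀ {x y : {x // x ∈ L}}, ¬ x = y → y.1 ≠ x.1 := fun h h' => h (Subtype.ext h'.symm)
    set M : Finset ℕ := (((L.erase a.1).erase b.1).erase w.1).erase z.1 with hM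
    have hw'M : w'.1 ∈ M := by
      rw [hM]
      simp only [Finset.mem_erase]
      exact ⟨e hzw', e hww', e hbw', e haw', w'.2⟩
    have hz'M : z'.1 ∈ M.erase w'.1 := by
      rw [hM]
      simp only [Finset.mem_erase]
      exact ⟨e hw'z', e hzz', e hwz', e hbz', e haz', z'.2⟩
    set t : List ℕ := ((M.erase w'.1).erase z'.1).toList with ht
    have hU : ((w'.1 :: z'.1 :: t : List ℕ) : Multiset ℕ) = M.val := by
      refine cons_of hw'M (cons_of hz'M ?_)
      rw [ht, Finset.coe_toList]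
    have hp : (w'.1 :: z'.1 :: t).Perm (rest L a.1 b.1 w.1 z.1) := by
      rw [← Multiset.coe_eq_coe, hU, rest, Finset.coe_toList]
    have h1 : ((a.1 :: b.1 :: w.1 :: z.1 :: w'.1 :: z'.1 :: t : List ℕ) : Multiset ℕ) = L.val :=
      perm_of h0 ((((hp.cons _).cons _).cons _).cons _)
    have hlen : t.length + 6 = L.card := by
      rw [← length_of h1]
      rfl
    have h2 : ((a.1 :: b.1 :: w.1 :: z'.1 :: w'.1 :: z.1 :: t : List ℕ) : Multiset ℕ) = L.val := by
      refine perm_of h1 ?_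
      refine ((List.Perm.cons _ (List.Perm.cons _ (List.Perm.cons _ ?_))))
      exact ((List.Perm.swap _ _ _).trans ((List.Perm.cons _ (List.Perm.swap _ _ _)).trans
        (List.Perm.swap _ _ _))).symm.trans (List.Perm.refl _)
    have h3 : ((a.1 :: b.1 :: w'.1 :: z.1 :: w.1 :: z'.1 :: t : List ℕ) : Multiset ℕ) = L.val := by
      refine perm_of h1 ?_
      refine ((List.Perm.cons _ (List.Perm.cons _ ?_)))
      exact ((List.Perm.swap _ _ _).trans ((List.Perm.cons _ (List.Perm.swap _ _ _)).trans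
        (List.Perm.swap _ _ _))).symm.trans (List.Perm.refl _)
    have h4 : ((a.1 :: b.1 :: w'.1 :: z'.1 :: w.1 :: z.1 :: t : List ℕ) : Multiset ℕ) = L.val := by
      refine perm_of h1 ?_
      refine ((List.Perm.cons _ (List.Perm.cons _ ?_)))
      exact List.perm_append_comm_assoc [w'.1, z'.1] [w.1, z.1] t
    have s2 : sg (a.1 :: b.1 :: w.1 :: z'.1 :: w'.1 :: z.1 :: t) =
        - sg (a.1 :: b.1 :: w.1 :: z.1 :: w'.1 :: z'.1 :: t) :=
      (sg_skew _).swap [a.1, b.1, w.1] [w'.1] t z'.1 z.1 rfl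
    have s3 : sg (a.1 :: b.1 :: w'.1 :: z.1 :: w.1 :: z'.1 :: t) =
        - sg (a.1 :: b.1 :: w.1 :: z.1 :: w'.1 :: z'.1 :: t) :=
      (sg_skew _).swap [a.1, b.1] [z.1] (z'.1 :: t) w'.1 w.1 rfl
    have s4 : sg (a.1 :: b.1 :: w'.1 :: z'.1 :: w.1 :: z.1 :: t) =
        sg (a.1 :: b.1 :: w.1 :: z.1 :: w'.1 :: z'.1 :: t) := by
      have q := (sg_skew _).swap [a.1, b.1] [z'.1] (z.1 :: t) w'.1 w.1 rfl
      have q' : sg (a.1 :: b.1 :: w'.1 :: z'.1 :: w.1 :: z.1 :: t) =
        - sg (a.1 :: b.1 :: w.1 :: z'.1 :: w'.1 :: z.1 :: t) := q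
      rw [q', s2, neg_neg]
    rw [KK_eq L hG a b w z _ h1, KK_eq L hG a b w' z' _ h4, KK_eq L hG a b w z' _ h2,
      KK_eq L hG a b w' z _ h3, s2, s3, s4]
    have hg := congrArg (fun v => sg (a.1 :: b.1 :: w.1 :: z.1 :: w'.1 :: z'.1 :: t) • v)
      (hG.g4 a.1 b.1 w.1 z.1 w'.1 z'.1 t hlen)
    simp only [smul_add, smul_zero] at hg
    rw [neg_smul, neg_smul, ← sub_eq_zero]
    rw [← hg]
    abel

theorem G_eq_KK (L : Finset ℕ) (hL : 6 ≤ L.card) {s : ℤ} {G : List ℕ → V}
    (hG : IsG L.card s G) (l : List ℕ) (h : (l : Multiset ℕ) = L.val) :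
    ∃ a b w z : {x // x ∈ L}, [a, b, w, z].Nodup ∧ (G l = KK L G a b w z ∨ G l = - KK L G a b w z) := by
  have hlen := length_of h
  match l, h, hlen with
  | [], _, hlen => simp at hlen; omega
  | [_], _, hlen => simp at hlen; omega
  | [_, _], _, hlen => simp at hlen; omega
  | [_, _, _], _, hlen => simp at hlen; omega
  | a :: b :: w :: z :: U, h, _ =>
    have hm : ∀ x, x ∈ (a :: b :: w :: z :: U) → x ∈ L := fun x hx => (mem_of h).1 hx
    have hnd := nodup_of h
    refine ⟨⟨a, hm a (by simp)⟩, ⟨b, hm b (by simp)⟩, ⟨w, hm w (by simp)⟩, ⟨z, hm z (by simp)⟩,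
      ?_, ?_⟩
    · have h4 : [a, b, w, z].Nodup := hnd.sublist (List.sublist_append_left [a, b, w, z] U)
      simp only [List.nodup_cons, List.mem_cons, List.not_mem_nil, or_false, not_or,
        not_false_eq_true, List.nodup_nil, and_true, Subtype.mk.injEq] at h4 ⊢
      exact h4
    · rw [KK_eq L hG _ _ _ _ U h]
      rcases sg_unit hnd with h1 | h1
      · left
        show G (a :: b :: w :: z :: U) = sg (a :: b :: w :: z :: U) • G (a :: b :: w :: z :: U)
        rw [h1, one_smul]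
      · right
        show G (a :: b :: w :: z :: U) = -(sg (a :: b :: w :: z :: U) • G (a :: b :: w :: z :: U))
        rw [h1, neg_smul, one_smul, neg_neg]

/-- the `z`-components in the end: `κ i j` -/
theorem sg_px {E : Type*} [AddCommGroup E] (L : Finset ℕ) (P : List ℕ → E) (hP : ∀ n, SkewL n P)
    (a b w z : ℕ) (U : List ℕ) (h : ((a :: b :: w :: z :: U : List ℕ) : Multiset ℕ) = L.val) :
    sg (a :: b :: w :: z :: U) • P (z :: (U ++ [b])) =
      ((-1) ^ L.card * sg (a :: w :: ((L.erase a).erase w).toList)) •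
        P ((L.erase a).erase w).toList := by
  have hlen : U.length + 4 = L.card := by
    rw [← length_of h]
    rfl
  -- move `b` to the end
  have h1 : sg (a :: b :: w :: z :: U) = (-1) ^ (U.length + 2) * sg (a :: w :: z :: (U ++ [b])) := by
    have q := (sg_skew ((a :: b :: w :: z :: U).length)).move [a] (w :: z :: U) [] b (by simp)
    have q' : sg ([a] ++ b :: (w :: z :: U ++ [])) = sg (a :: b :: w :: z :: U) := by simp
    rw [q'] at q
    rw [q, smul_eq_mul]
    rfl
  have h2 : ((-1 : ℤ)) ^ L.card = (-1) ^ (U.length + 2) := by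
    rw [← hlen, show U.length + 4 = (U.length + 2) + 2 by ring, pow_add]
    norm_num
  -- the symmetric function
  have h3 : (z :: (U ++ [b])).Perm (((L.erase a).erase w).toList) := by
    rw [← Multiset.coe_eq_coe, Finset.coe_toList]
    have h4 : ((a :: w :: z :: (U ++ [b]) : List ℕ) : Multiset ℕ) = L.val := by
      refine perm_of h ?_
      refine List.Perm.cons _ ?_
      exact List.perm_append_comm (l₁ := w :: z :: U) (l₂ := [b])
    exact tail_of (tail_of h4)
  have hsym : SymL (z :: (U ++ [b])).length (fun l => sg ([a, w] ++ l) • P l) :=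
    sym_smul [a, w] (fun l1 x y l2 hl => hP _ l1 x y l2 hl)
  have h5 := hsym.perm h3 rfl
  have h6 : sg (a :: w :: z :: (U ++ [b])) • P (z :: (U ++ [b])) =
      sg (a :: w :: ((L.erase a).erase w).toList) • P ((L.erase a).erase w).toList := h5
  rw [h1, h2, mul_smul, h6, ← mul_smul]

end Z5

end Pool.Agent.MalP
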