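import Pool.Agent.MalP.MGrad
import Pool.Agent.MalP.PSkew
import Pool.Agent.MalP.P5.Fv
import Pool.Agent.MalP.Z5.Defs

/-! # The homogeneous elements of the ideal generated by the values of `c` -/

set_option autoImplicit false

namespace Pool.Agent.MalP

universe u v w

variable {F : Type u} [Field F]

namespace Z5

variable (F) in
/-- the span of the values of `c` at words of total content `m` -/
noncomputable def W6 (m : Multiset ℕ) : Submodule F (FreeMalcev F ℕ) :=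
  Submodule.span F {v | ∃ w0 w1 w2 w3 w4 w5 : FreeMagma ℕ,
    content w0 + content w1 + content w2 + content w3 + content w4 + content w5 = m ∧
    v = cc (wdM w0) (wdM w1) (wdM w2) (wdM w3) (wdM w4) (wdM w5)}

variable (F) in
/-- the span of the elements `c(letters) letter` -/
noncomputable def W7 (m : Multiset ℕ) : Submodule F (FreeMalcev F ℕ) :=
  Submodule.span F {v | ∃ x0 x1 x2 x3 x4 x5 b : ℕ, (([x0, x1, x2, x3, x4, x5, b] : List ℕ) : Multiset ℕ) = m ∧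
    v = cc (FreeMalcev.of x0) (FreeMalcev.of x1) (FreeMalcev.of x2) (FreeMalcev.of x3)
      (FreeMalcev.of x4) (FreeMalcev.of x5) * FreeMalcev.of b}

namespace SpanAux

section linear

variable (F) {A : Type v} [NonUnitalNonAssocRing A] [Module F A] [IsScalarTower F A A]
  [SMulCommClass F A A]

theorem fv_lin0 (x1 x2 x3 x4 v : A) : ∃ g : A →ₗ[F] A, ∀ x, g x = fv x x1 x2 x3 x4 v := by
  obtain ⟨f1, h1⟩ := P108_lin_a F x1 x2 x3 (v * x4)
  obtain ⟨f2, h2⟩ := P108_lin_a F x1 x2 x3 v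
  refine ⟨f1 - LinearMap.mulRight F x4 ∘ₗ f2, fun x => ?_⟩
  rw [LinearMap.sub_apply, LinearMap.comp_apply, LinearMap.mulRight_apply, h1, h2]
  rfl

theorem fv_lin5 (x0 x1 x2 x3 x4 : A) : ∃ g : A →ₗ[F] A, ∀ x, g x = fv x0 x1 x2 x3 x4 x := by
  obtain ⟨f1, h1⟩ := P108_lin_x F x0 x1 x2 x3
  refine ⟨f1 ∘ₗ LinearMap.mulRight F x4 - LinearMap.mulRight F x4 ∘ₗ f1, fun x => ?_⟩
  rw [LinearMap.sub_apply, LinearMap.comp_apply, LinearMap.comp_apply, LinearMap.mulRight_apply,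
    LinearMap.mulRight_apply, h1, h1]
  rfl

theorem cc_lin0 (x1 x2 x3 x4 x5 : A) : ∃ g : A →ₗ[F] A, ∀ x, g x = cc x x1 x2 x3 x4 x5 := by
  obtain ⟨g0, h0⟩ := fv_lin5 F x1 x2 x3 x4 x5
  obtain ⟨g1, h1⟩ := fv_lin0 F x2 x3 x4 x5 x1
  obtain ⟨g2, h2⟩ := fv_lin0 F x1 x3 x4 x5 x2
  obtain ⟨g3, h3⟩ := fv_lin0 F x1 x2 x4 x5 x3
  obtain ⟨g4, h4⟩ := fv_lin0 F x1 x2 x3 x5 x4
  obtain ⟨g5, h5⟩ := fv_lin0 F x1 x2 x3 x4 x5
  refine ⟨g0 - g1 + g2 - g3 + g4 - g5, fun x => ?_⟩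
  rw [LinearMap.sub_apply, LinearMap.add_apply, LinearMap.sub_apply, LinearMap.add_apply,
    LinearMap.sub_apply, h0, h1, h2, h3, h4, h5]
  rfl

end linear

theorem red {V : Type w} [AddCommGroup V] [Module F V] (g : FreeMalcev F ℕ →ₗ[F] V)
    (S : Submodule F V) (h : ∀ w : FreeMagma ℕ, g (wdM w) ∈ S) (x : FreeMalcev F ℕ) : g x ∈ S := by
  have hx : x ∈ Submodule.span F (Set.range (wdM : FreeMagma ℕ → FreeMalcev F ℕ)) := by
    rw [span_wdM]; trivial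
  induction hx using Submodule.span_induction with
  | mem x hx =>
    obtain ⟨w, rfl⟩ := hx
    exact h w
  | zero => rw [map_zero]; exact Submodule.zero_mem _
  | add x y _ _ hx hy => rw [map_add]; exact Submodule.add_mem _ hx hy
  | smul r x _ hx => rw [map_smul]; exact Submodule.smul_mem _ _ hx

section skew

variable (s01 : ∀ x0 x1 x2 x3 x4 x5 : FreeMalcev F ℕ, cc x0 x1 x2 x3 x4 x5 = - cc x1 x0 x2 x3 x4 x5)
  (s12 : ∀ x0 x1 x2 x3 x4 x5 : FreeMalcev F ℕ, cc x0 x1 x2 x3 x4 x5 = - cc x0 x2 x1 x3 x4 x5)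
  (s23 : ∀ x0 x1 x2 x3 x4 x5 : FreeMalcev F ℕ, cc x0 x1 x2 x3 x4 x5 = - cc x0 x1 x3 x2 x4 x5)
  (s34 : ∀ x0 x1 x2 x3 x4 x5 : FreeMalcev F ℕ, cc x0 x1 x2 x3 x4 x5 = - cc x0 x1 x2 x4 x3 x5)
  (s45 : ∀ x0 x1 x2 x3 x4 x5 : FreeMalcev F ℕ, cc x0 x1 x2 x3 x4 x5 = - cc x0 x1 x2 x3 x5 x4)

include s01 s12 s23 s34 s45

theorem cyc (x0 x1 x2 x3 x4 x5 : FreeMalcev F ℕ) :
    cc x0 x1 x2 x3 x4 x5 = - cc x1 x2 x3 x4 x5 x0 := by
  rw [s01 x0, s12 x1 x0, s23 x1 x2 x0, s34 x1 x2 x3 x0, s45 x1 x2 x3 x4 x0]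
  simp only [neg_neg]

/-- membership of all values of `cc` (after a linear map) follows from the values at words -/
theorem cc_mem {V : Type w} [AddCommGroup V] [Module F V] (g : FreeMalcev F ℕ →ₗ[F] V)
    (S : Submodule F V) (h : ∀ w0 w1 w2 w3 w4 w5 : FreeMagma ℕ,
      g (cc (wdM w0) (wdM w1) (wdM w2) (wdM w3) (wdM w4) (wdM w5)) ∈ S)
    (x0 x1 x2 x3 x4 x5 : FreeMalcev F ℕ) : g (cc x0 x1 x2 x3 x4 x5) ∈ S := by
  have step : ∀ x1 x2 x3 x4 x5 : FreeMalcev F ℕ,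
      (∀ w : FreeMagma ℕ, g (cc x1 x2 x3 x4 x5 (wdM w)) ∈ S) →
      ∀ x0, g (cc x0 x1 x2 x3 x4 x5) ∈ S := by
    intro x1 x2 x3 x4 x5 hw x0
    obtain ⟨g0, h0⟩ := cc_lin0 F x1 x2 x3 x4 x5
    have h1 := red (g ∘ₗ g0) S (fun w => by
      rw [LinearMap.comp_apply, h0, cyc s01 s12 s23 s34 s45, map_neg]
      exact Submodule.neg_mem _ (hw w)) x0
    rwa [LinearMap.comp_apply, h0] at h1
  refine step _ _ _ _ _ (fun w0 => ?_) _
  refine step _ _ _ _ _ (fun w1 => ?_) _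
  refine step _ _ _ _ _ (fun w2 => ?_) _
  refine step _ _ _ _ _ (fun w3 => ?_) _
  refine step _ _ _ _ _ (fun w4 => ?_) _
  refine step _ _ _ _ _ (fun w5 => ?_) _
  exact h _ _ _ _ _ _

end skew

theorem fv_Hg {x0 x1 x2 x3 x4 v : FA F} {c0 c1 c2 c3 c4 d : Multiset ℕ}
    (h0 : x0 ∈ Hg F c0) (h1 : x1 ∈ Hg F c1) (h2 : x2 ∈ Hg F c2) (h3 : x3 ∈ Hg F c3)
    (h4 : x4 ∈ Hg F c4) (hv : v ∈ Hg F d) :
    fv x0 x1 x2 x3 x4 v ∈ Hg F (c0 + c1 + c2 + c3 + c4 + d) := by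
  unfold fv
  have e1 := P108_mem h0 h1 h2 h3 (Hg_mul hv h4)
  have e2 := Hg_mul (P108_mem h0 h1 h2 h3 hv) h4
  have f1 : c0 + c1 + c2 + c3 + (d + c4) = c0 + c1 + c2 + c3 + c4 + d := by abel
  have f2 : c0 + c1 + c2 + c3 + d + c4 = c0 + c1 + c2 + c3 + c4 + d := by abel
  rw [f1] at e1
  rw [f2] at e2
  exact Submodule.sub_mem _ e1 e2

theorem cc_Hg {x0 x1 x2 x3 x4 x5 : FA F} {c0 c1 c2 c3 c4 c5 : Multiset ℕ}
    (h0 : x0 ∈ Hg F c0) (h1 : x1 ∈ Hg F c1) (h2 : x2 ∈ Hg F c2) (h3 : x3 ∈ Hg F c3)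
    (h4 : x4 ∈ Hg F c4) (h5 : x5 ∈ Hg F c5) :
    cc x0 x1 x2 x3 x4 x5 ∈ Hg F (c0 + c1 + c2 + c3 + c4 + c5) := by
  unfold cc
  have e0 := fv_Hg h1 h2 h3 h4 h5 h0
  have e1 := fv_Hg h0 h2 h3 h4 h5 h1
  have e2 := fv_Hg h0 h1 h3 h4 h5 h2
  have e3 := fv_Hg h0 h1 h2 h4 h5 h3
  have e4 := fv_Hg h0 h1 h2 h3 h5 h4
  have e5 := fv_Hg h0 h1 h2 h3 h4 h5
  have f0 : c1 + c2 + c3 + c4 + c5 + c0 = c0 + c1 + c2 + c3 + c4 + c5 := by abel
  have f1 : c0 + c2 + c3 + c4 + c5 + c1 = c0 + c1 + c2 + c3 + c4 + c5 := by abel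
  have f2 : c0 + c1 + c3 + c4 + c5 + c2 = c0 + c1 + c2 + c3 + c4 + c5 := by abel
  have f3 : c0 + c1 + c2 + c4 + c5 + c3 = c0 + c1 + c2 + c3 + c4 + c5 := by abel
  have f4 : c0 + c1 + c2 + c3 + c5 + c4 = c0 + c1 + c2 + c3 + c4 + c5 := by abel
  rw [f0] at e0
  rw [f1] at e1
  rw [f2] at e2
  rw [f3] at e3
  rw [f4] at e4
  exact Submodule.sub_mem _ (Submodule.add_mem _ (Submodule.sub_mem _ (Submodule.add_mem _
    (Submodule.sub_mem _ e0 e1) e2) e3) e4) e5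

theorem hom_P {A : Type v} [NonUnitalNonAssocRing A] [Module F A]
    {B : Type w} [NonUnitalNonAssocRing B] [Module F B] (f : A →ₙₐ[F] B) (a b c d x : A) :
    f (P108 a b c d x) = P108 (f a) (f b) (f c) (f d) (f x) := by
  unfold P108 Jac
  simp only [map_sub, map_add, map_mul, map_nsmul]

theorem hom_cc {A : Type v} [NonUnitalNonAssocRing A] [Module F A]
    {B : Type w} [NonUnitalNonAssocRing B] [Module F B] (f : A →ₙₐ[F] B) (x0 x1 x2 x3 x4 x5 : A) :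
    f (cc x0 x1 x2 x3 x4 x5) = cc (f x0) (f x1) (f x2) (f x3) (f x4) (f x5) := by
  unfold cc fv
  simp only [map_add, map_sub, map_mul, hom_P]

theorem cc_GM (w0 w1 w2 w3 w4 w5 : FreeMagma ℕ) :
    (cc (wdM w0) (wdM w1) (wdM w2) (wdM w3) (wdM w4) (wdM w5) : FreeMalcev F ℕ) ∈
      GM F (content w0 + content w1 + content w2 + content w3 + content w4 + content w5) := by
  refine ⟨_, cc_Hg (wd_mem (F := F) w0) (wd_mem w1) (wd_mem w2) (wd_mem w3) (wd_mem w4) (wd_mem w5),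
    ?_⟩
  exact hom_cc (FreeMalcev.mkHom : FA F →ₙₐ[F] FreeMalcev F ℕ) (wd w0) (wd w1) (wd w2) (wd w3)
    (wd w4) (wd w5)

variable (F) in
/-- the values of `cc` at words -/
def S6 : Set (FreeMalcev F ℕ) :=
  {v | ∃ w0 w1 w2 w3 w4 w5 : FreeMagma ℕ,
    v = cc (wdM w0) (wdM w1) (wdM w2) (wdM w3) (wdM w4) (wdM w5)}

variable (F) in
/-- their products with words -/
def S7 : Set (FreeMalcev F ℕ) :=
  {v | ∃ w0 w1 w2 w3 w4 w5 b : FreeMagma ℕ,
    v = cc (wdM w0) (wdM w1) (wdM w2) (wdM w3) (wdM w4) (wdM w5) * wdM b}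

end SpanAux

open SpanAux in
/-- the structure of the ideal; `Qc` is the ideal generated by all values of `cc` (helper30's name) -/
theorem Qc_GM [C23 F]
    (s01 : ∀ x0 x1 x2 x3 x4 x5 : FreeMalcev F ℕ, cc x0 x1 x2 x3 x4 x5 = - cc x1 x0 x2 x3 x4 x5)
    (s12 : ∀ x0 x1 x2 x3 x4 x5 : FreeMalcev F ℕ, cc x0 x1 x2 x3 x4 x5 = - cc x0 x2 x1 x3 x4 x5)
    (s23 : ∀ x0 x1 x2 x3 x4 x5 : FreeMalcev F ℕ, cc x0 x1 x2 x3 x4 x5 = - cc x0 x1 x3 x2 x4 x5)
    (s34 : ∀ x0 x1 x2 x3 x4 x5 : FreeMalcev F ℕ, cc x0 x1 x2 x3 x4 x5 = - cc x0 x1 x2 x4 x3 x5)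
    (s45 : ∀ x0 x1 x2 x3 x4 x5 : FreeMalcev F ℕ, cc x0 x1 x2 x3 x4 x5 = - cc x0 x1 x2 x3 x5 x4)
    (z1 : ∀ u v x1 x2 x3 x4 x5 b : FreeMalcev F ℕ, cc (u * v) x1 x2 x3 x4 x5 * b = 0)
    (cR2 : ∀ x0 x1 x2 x3 x4 x5 a b : FreeMalcev F ℕ, cc x0 x1 x2 x3 x4 x5 * (a * b) = 0)
    (cRR : ∀ x0 x1 x2 x3 x4 x5 a b : FreeMalcev F ℕ, (cc x0 x1 x2 x3 x4 x5 * a) * b = 0)
    {I : Submodule F (FreeMalcev F ℕ)} (hI : ∀ J : Submodule F (FreeMalcev F ℕ), IsIdl J →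
      (∀ x0 x1 x2 x3 x4 x5, cc x0 x1 x2 x3 x4 x5 ∈ J) → I ≤ J)
    {m : Multiset ℕ} {q : FreeMalcev F ℕ} (hq : q ∈ I) (hm : q ∈ GM F m) :
    q ∈ W6 F m ⊔ W7 F m := by
  have z2 : ∀ u v x1 x2 x3 x4 x5 b : FreeMalcev F ℕ, cc x1 (u * v) x2 x3 x4 x5 * b = 0 := by
    intro u v x1 x2 x3 x4 x5 b
    rw [s01, neg_mul, z1, neg_zero]
  have z3 : ∀ u v x1 x2 x3 x4 x5 b : FreeMalcev F ℕ, cc x1 x2 (u * v) x3 x4 x5 * b = 0 := by
    intro u v x1 x2 x3 x4 x5 b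
    rw [s12, neg_mul, z2, neg_zero]
  have z4 : ∀ u v x1 x2 x3 x4 x5 b : FreeMalcev F ℕ, cc x1 x2 x3 (u * v) x4 x5 * b = 0 := by
    intro u v x1 x2 x3 x4 x5 b
    rw [s23, neg_mul, z3, neg_zero]
  have z5 : ∀ u v x1 x2 x3 x4 x5 b : FreeMalcev F ℕ, cc x1 x2 x3 x4 (u * v) x5 * b = 0 := by
    intro u v x1 x2 x3 x4 x5 b
    rw [s34, neg_mul, z4, neg_zero]
  have z6 : ∀ u v x1 x2 x3 x4 x5 b : FreeMalcev F ℕ, cc x1 x2 x3 x4 x5 (u * v) * b = 0 := by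
    intro u v x1 x2 x3 x4 x5 b
    rw [s45, neg_mul, z5, neg_zero]
  have hJ : I ≤ Submodule.span F (S6 F ∪ S7 F) := by
    apply hI
    · intro a ha b
      have h1 : a * b ∈ Submodule.span F (S6 F ∪ S7 F) := by
        induction ha using Submodule.span_induction with
        | mem a ha =>
          rcases ha with ha | ha
          · obtain ⟨w0, w1, w2, w3, w4, w5, rfl⟩ := ha
            have h0 := red (LinearMap.mulLeft F
              (cc (wdM w0) (wdM w1) (wdM w2) (wdM w3) (wdM w4) (wdM w5) : FreeMalcev F ℕ))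
              (Submodule.span F (S6 F ∪ S7 F)) (fun w => by
              rw [LinearMap.mulLeft_apply]
              exact Submodule.subset_span (Or.inr ⟨w0, w1, w2, w3, w4, w5, w, rfl⟩)) b
            rwa [LinearMap.mulLeft_apply] at h0
          · obtain ⟨w0, w1, w2, w3, w4, w5, w, rfl⟩ := ha
            rw [cRR]
            exact Submodule.zero_mem _
        | zero => rw [zero_mul]; exact Submodule.zero_mem _
        | add x y _ _ hx hy => rw [add_mul]; exact Submodule.add_mem _ hx hy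
        | smul r x _ hx => rw [smul_mul_assoc]; exact Submodule.smul_mem _ _ hx
      refine ⟨h1, ?_⟩
      rw [(FreeMalcev.isMalcev (F := F) (X := ℕ)).anti]
      exact Submodule.neg_mem _ h1
    · intro x0 x1 x2 x3 x4 x5
      have h0 := cc_mem s01 s12 s23 s34 s45 (LinearMap.id : FreeMalcev F ℕ →ₗ[F] FreeMalcev F ℕ)
        (Submodule.span F (S6 F ∪ S7 F)) (fun w0 w1 w2 w3 w4 w5 => by
          rw [LinearMap.id_apply]
          exact Submodule.subset_span (Or.inl ⟨w0, w1, w2, w3, w4, w5, rfl⟩)) x0 x1 x2 x3 x4 x5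
      rwa [LinearMap.id_apply] at h0
  have h1 : piM F m q = q := by rw [piM_of_mem hm, if_pos rfl]
  rw [← h1]
  have h2 := hJ hq
  clear h1 hm hq
  induction h2 using Submodule.span_induction with
  | mem p hp =>
    rcases hp with hp | hp
    · obtain ⟨w0, w1, w2, w3, w4, w5, rfl⟩ := hp
      rw [piM_of_mem (cc_GM w0 w1 w2 w3 w4 w5)]
      split_ifs with hc
      · exact Submodule.mem_sup_left (Submodule.subset_span ⟨w0, w1, w2, w3, w4, w5, hc, rfl⟩)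
      · exact Submodule.zero_mem _
    · obtain ⟨w0, w1, w2, w3, w4, w5, b, rfl⟩ := hp
      have hb : (wdM b : FreeMalcev F ℕ) ∈ GM F (content b) := ⟨wd b, wd_mem b, rfl⟩
      rw [piM_of_mem (GM_mul (cc_GM w0 w1 w2 w3 w4 w5) hb)]
      split_ifs with hc
      · cases w0 with
        | mul u v => rw [← wdM_mul, z1]; exact Submodule.zero_mem _
        | of x0 =>
        cases w1 with
        | mul u v => rw [← wdM_mul, z2]; exact Submodule.zero_mem _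
        | of x1 =>
        cases w2 with
        | mul u v => rw [← wdM_mul, z3]; exact Submodule.zero_mem _
        | of x2 =>
        cases w3 with
        | mul u v => rw [← wdM_mul, z4]; exact Submodule.zero_mem _
        | of x3 =>
        cases w4 with
        | mul u v => rw [← wdM_mul, z5]; exact Submodule.zero_mem _
        | of x4 =>
        cases w5 with
        | mul u v => rw [← wdM_mul, z6]; exact Submodule.zero_mem _
        | of x5 =>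
        cases b with
        | mul u v => rw [← wdM_mul, cR2]; exact Submodule.zero_mem _
        | of b =>
        apply Submodule.mem_sup_right
        simp only [← of_eq_wdM]
        refine Submodule.subset_span ⟨x0, x1, x2, x3, x4, x5, b, ?_, rfl⟩
        rw [← hc]
        rfl
      · exact Submodule.zero_mem _
  | zero => rw [map_zero]; exact Submodule.zero_mem _
  | add x y _ _ hx hy => rw [map_add]; exact Submodule.add_mem _ hx hy
  | smul r x _ hx => rw [map_smul]; exact Submodule.smul_mem _ _ hx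

end Z5

end Pool.Agent.MalP
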