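import Pool.Agent.MalP.Z5.Words
import Pool.Agent.MalP.Z5.Span
import Pool.Agent.MalP.Z5.Lin
import Pool.Agent.MalP.Z5.Sgn
import Pool.Agent.MalP.Z5.BhC

/-! # Characteristic 5: (Z5) -/

set_option autoImplicit false

namespace Pool.Agent.MalP

namespace Z5

universe u

variable {F : Type u} [Field F]

namespace FinalAux

/-- a skew function vanishes at a list with two equal entries -/
theorem skew_zero {A B : Type*} [AddCommGroup B] [DecidableEq A] {n : ℕ} {f : List A → B}
    (h2 : ∀ v : B, 2 • v = 0 → v = 0) (hf : SkewL n f) {l : List A} (hl : l.length = n) {i : A}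
    (hi : 2 ≤ l.count i) : f l = 0 := by
  have h1 : i ∈ l := List.count_pos_iff.mp (by omega)
  have p1 := List.perm_cons_erase h1
  have c1 : 1 ≤ (l.erase i).count i := by
    rw [List.count_erase_self]; omega
  have h3 : i ∈ l.erase i := List.count_pos_iff.mp (by omega)
  have p2 := List.perm_cons_erase h3
  have p3 : l.Perm (i :: i :: (l.erase i).erase i) := p1.trans (p2.cons i)
  have h4 : f (i :: i :: (l.erase i).erase i) = 0 := by
    have h5 := hf [] i i ((l.erase i).erase i) (by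
      rw [List.nil_append, ← p3.length_eq, hl])
    rw [List.nil_append] at h5
    apply h2
    rw [two_nsmul]
    nth_rewrite 1 [h5]
    exact neg_add_cancel _
  rcases hf.perm p3 hl with h | h
  · rw [h, h4]
  · rw [h, h4, neg_zero]

theorem card_pos (w : FreeMagma ℕ) : 1 ≤ Multiset.card (content w) := by
  induction w using FreeMagma.rec with
  | of i => exact le_refl 1
  | mul a b iha ihb =>
    show 1 ≤ Multiset.card (content a + content b)
    rw [Multiset.card_add]
    omega

/-- letters in words -/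
theorem count_le (w : FreeMagma ℕ) (i : ℕ) :
    (content w).count i + 2 ≤ (if w = FreeMagma.of i then 1 else 0) + 2 * Multiset.card (content w) := by
  cases w with
  | of j =>
    show Multiset.count i {j} + 2 ≤ _ + 2 * Multiset.card {j}
    rw [Multiset.card_singleton, Multiset.count_singleton]
    by_cases h : i = j
    · subst h; simp
    · rw [if_neg h]; omega
  | mul a b =>
    rw [if_neg (by simp)]
    have h1 := Multiset.count_le_card i (content (FreeMagma.mul a b))
    have h2 := card_pos a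
    have h3 := card_pos b
    have h4 : Multiset.card (content (FreeMagma.mul a b)) = Multiset.card (content a) + Multiset.card (content b) := by
      show Multiset.card (content a + content b) = _
      rw [Multiset.card_add]
    omega

theorem count_sum (ws : List (FreeMagma ℕ)) (i : ℕ) :
    (ws.map content).sum.count i + 2 * ws.length ≤ ws.count (FreeMagma.of i) +
      2 * Multiset.card (ws.map content).sum := by
  induction ws with
  | nil => simp
  | cons w ws ih =>
    rw [List.map_cons, List.sum_cons, Multiset.count_add, Multiset.card_add, List.length_cons,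
      List.count_cons]
    have h1 := count_le w i
    by_cases h : w = FreeMagma.of i
    · rw [if_pos h] at h1
      have : (w == FreeMagma.of i) = true := by simpa using h
      rw [this]
      simp only [if_true]
      omega
    · rw [if_neg h] at h1
      omega

theorem length_le (ws : List (FreeMagma ℕ)) : ws.length ≤ Multiset.card (ws.map content).sum := by
  induction ws with
  | nil => simp
  | cons w ws ih =>
    rw [List.map_cons, List.sum_cons, Multiset.card_add, List.length_cons]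
    have := card_pos w
    omega

/-- all words are letters if the degree is the number of words -/
theorem letters (ws : List (FreeMagma ℕ)) (h : Multiset.card (ws.map content).sum = ws.length) :
    ∃ xs : List ℕ, ws = xs.map FreeMagma.of ∧ (xs : Multiset ℕ) = (ws.map content).sum := by
  induction ws with
  | nil => exact ⟨[], rfl, rfl⟩
  | cons w ws ih =>
    rw [List.map_cons, List.sum_cons, Multiset.card_add, List.length_cons] at h
    have h1 := card_pos w
    have h2 := length_le ws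
    obtain ⟨xs, h3, h4⟩ := ih (by omega)
    have h5 : Multiset.card (content w) = 1 := by omega
    cases w with
    | of j =>
      refine ⟨j :: xs, by rw [List.map_cons, h3], ?_⟩
      rw [List.map_cons, List.sum_cons, ← h4, ← Multiset.cons_coe, ← Multiset.singleton_add]
      rfl
    | mul a b =>
      have h6 : Multiset.card (content (FreeMagma.mul a b)) = Multiset.card (content a) + Multiset.card (content b) := by
        show Multiset.card (content a + content b) = _
        rw [Multiset.card_add]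
      have := card_pos a
      have := card_pos b
      omega

end FinalAux

open FinalAux WordsAux

/-- the identities of `c` in the free Malcev algebra -/
structure ZM (F : Type u) [Field F] : Prop where
  ca : CA (A := FreeMalcev F ℕ) cc
  z1 : ∀ u v x1 x2 x3 x4 x5 b : FreeMalcev F ℕ, cc (u * v) x1 x2 x3 x4 x5 * b = 0
  cR2 : ∀ x0 x1 x2 x3 x4 x5 a b : FreeMalcev F ℕ, cc x0 x1 x2 x3 x4 x5 * (a * b) = 0
  cRR : ∀ x0 x1 x2 x3 x4 x5 a b : FreeMalcev F ℕ, (cc x0 x1 x2 x3 x4 x5 * a) * b = 0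

variable [C23 F]

section

omit [C23 F]

theorem W6_fl (m : Multiset ℕ) : W6 F m = Submodule.span F {v | ∃ ws : List (FreeMagma ℕ), ws.length = 6 ∧
    (ws.map content).sum = m ∧ v = fl cc (wdM (F := F)) ws} := by
  unfold W6
  congr 1
  ext v
  constructor
  · rintro ⟨w0, w1, w2, w3, w4, w5, h, rfl⟩
    refine ⟨[w0, w1, w2, w3, w4, w5], rfl, ?_, rfl⟩
    rw [← h]
    simp only [List.map_cons, List.map_nil, List.sum_cons, List.sum_nil]
    abel
  · rintro ⟨ws, hl, h, rfl⟩
    match ws, hl with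
    | [w0, w1, w2, w3, w4, w5], _ =>
      refine ⟨w0, w1, w2, w3, w4, w5, ?_, rfl⟩
      rw [← h]
      simp only [List.map_cons, List.map_nil, List.sum_cons, List.sum_nil]
      abel

theorem W6_small {m : Multiset ℕ} (h : Multiset.card m < 6) : W6 F m = ⊥ := by
  rw [W6_fl, Submodule.span_eq_bot]
  rintro v ⟨ws, hl, rfl, rfl⟩
  have := length_le ws
  omega

theorem W7_ne {m : Multiset ℕ} (h : Multiset.card m ≠ 7) : W7 F m = ⊥ := by
  unfold W7
  rw [Submodule.span_eq_bot]
  rintro v ⟨x0, x1, x2, x3, x4, x5, b, rfl, rfl⟩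
  exact absurd rfl h

theorem W6_le (hZ : ZM F) (h2 : (2 : F) ≠ 0) {m : Multiset ℕ} (h : 8 ≤ Multiset.card m) :
    W6 F m ≤ SG F (cc (A := FreeMalcev F ℕ)) FreeMalcev.of m := by
  rw [W6_fl, Submodule.span_le]
  rintro v ⟨ws, hl, hm, rfl⟩
  have h1 := words (F := F) (W := wdM (F := F)) h2 hZ.ca (fun a b => (wdM_mul a b).symm) ws hl
    (by rw [hm]; exact h)
  rw [hm] at h1
  have e : (fun i => (wdM (FreeMagma.of i) : FreeMalcev F ℕ)) = FreeMalcev.of := by
    funext i
    exact (of_eq_wdM i).symm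
  rw [e] at h1
  exact h1

theorem two_of (h2 : (2 : F) ≠ 0) {V : Type*} [AddCommGroup V] [Module F V] (v : V) (hv : 2 • v = 0) :
    v = 0 := by
  rw [← Nat.cast_smul_eq_nsmul F, Nat.cast_ofNat] at hv
  exact (smul_eq_zero.1 hv).resolve_left h2

/-- (Z5') at degree at least 8 -/
theorem SG_high (hZ : ZM F) (h2 : (2 : F) ≠ 0) {m : Multiset ℕ} (h : 8 ≤ Multiset.card m) {i : ℕ}
    (hi : 4 ≤ m.count i) : SG F (cc (A := FreeMalcev F ℕ)) FreeMalcev.of m = ⊥ := by
  unfold SG
  rw [Submodule.span_eq_bot]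
  rintro v ⟨l, rfl, rfl⟩
  rw [Multiset.coe_card] at h
  rw [Multiset.coe_count] at hi
  have hG := hZ.ca.isG l.length h
  match l, h, hi, hG with
  | a :: b :: w :: z :: U, h, hi, hG =>
    simp only [List.map_cons]
    have hU : U.length + 4 = (a :: b :: w :: z :: U).length := by simp
    by_cases hab : a = b
    · subst hab
      have h3 := hG.g01 (FreeMalcev.of a) (FreeMalcev.of a) (FreeMalcev.of w) (FreeMalcev.of z)
        (U.map FreeMalcev.of) (by rw [List.length_map]; exact hU)
      apply two_of h2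
      rw [two_nsmul]
      nth_rewrite 1 [h3]
      exact neg_add_cancel _
    by_cases hwz : w = z
    · subst hwz
      have h3 := hG.g23 (FreeMalcev.of a) (FreeMalcev.of b) (FreeMalcev.of w) (FreeMalcev.of w)
        (U.map FreeMalcev.of) (by rw [List.length_map]; exact hU)
      apply two_of h2
      rw [two_nsmul]
      nth_rewrite 1 [h3]
      exact neg_add_cancel _
    have hc : 2 ≤ U.count i := by
      rw [List.count_cons, List.count_cons, List.count_cons, List.count_cons] at hi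
      have e1 : (if (a == i) = true then 1 else 0) + (if (b == i) = true then 1 else 0) ≤ 1 := by
        by_cases h1 : a = i
        · have h4 : ¬ b = i := fun h5 => hab (h1.trans h5.symm)
          simp [h4]; split_ifs <;> omega
        · simp [h1]; split_ifs <;> omega
      have e2 : (if (w == i) = true then 1 else 0) + (if (z == i) = true then 1 else 0) ≤ 1 := by
        by_cases h1 : w = i
        · have h4 : ¬ z = i := fun h5 => hwz (h1.trans h5.symm)
          simp [h4]; split_ifs <;> omega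
        · simp [h1]; split_ifs <;> omega
      omega
    have hsk : SkewL U.length (fun U : List ℕ => GF (cc (A := FreeMalcev F ℕ))
        (FreeMalcev.of a :: FreeMalcev.of b :: FreeMalcev.of w :: FreeMalcev.of z :: U.map FreeMalcev.of)) := by
      intro l1 x y l2 hl
      have h3 := hG.gU (FreeMalcev.of a) (FreeMalcev.of b) (FreeMalcev.of w) (FreeMalcev.of z)
        (l1.map FreeMalcev.of) (FreeMalcev.of x) (FreeMalcev.of y) (l2.map FreeMalcev.of) (by
          rw [← hU, ← hl]; simp)
      simp only [List.map_append, List.map_cons]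
      exact h3
    exact skew_zero (two_of h2) hsk rfl hc

/-- (Z5') -/
theorem W6_high (hZ : ZM F) (h2 : (2 : F) ≠ 0) {m : Multiset ℕ} {i : ℕ}
    (hi : 4 ≤ m.count i) : W6 F m = ⊥ := by
  rcases Nat.lt_or_ge (Multiset.card m) 6 with h6 | h6
  · exact W6_small h6
  rcases Nat.lt_or_ge (Multiset.card m) 8 with h8 | h8
  · rw [W6_fl, Submodule.span_eq_bot]
    rintro v ⟨ws, hl, rfl, rfl⟩
    have h3 := count_sum ws i
    exact skew_zero (two_of h2) (fl_skew hZ.ca) hl (i := FreeMagma.of i) (by omega)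
  · have h3 := W6_le hZ h2 h8
    rw [SG_high hZ h2 h8 hi] at h3
    exact le_bot_iff.mp h3

/-- (Z5') -/
theorem W7_high (hZ : ZM F) (h2 : (2 : F) ≠ 0) {m : Multiset ℕ} {i : ℕ}
    (hi : 4 ≤ m.count i) : W7 F m = ⊥ := by
  unfold W7
  rw [Submodule.span_eq_bot]
  rintro v ⟨x0, x1, x2, x3, x4, x5, b, rfl, rfl⟩
  have h3 : fl cc (wdM (F := F)) ([x0, x1, x2, x3, x4, x5].map FreeMagma.of) = 0 := by
    apply skew_zero (two_of h2) (fl_skew hZ.ca) (by simp) (i := FreeMagma.of i)
    rw [List.count_map_of_injective _ _ (fun a b h => by injection h)]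
    rw [Multiset.coe_count] at hi
    have e : [x0, x1, x2, x3, x4, x5, b] = [x0, x1, x2, x3, x4, x5] ++ [b] := rfl
    rw [e, List.count_append] at hi
    have := List.count_le_length (a := i) (l := [b])
    simp only [List.length_singleton] at this
    omega
  have h4 : cc (FreeMalcev.of x0) (FreeMalcev.of x1) (FreeMalcev.of x2) (FreeMalcev.of x3)
      (FreeMalcev.of x4) (FreeMalcev.of x5) = (0 : FreeMalcev F ℕ) := by
    simp only [of_eq_wdM]
    exact h3
  rw [h4, zero_mul]

end

/-- the ideal -/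
def IsQc (I : Submodule F (FreeMalcev F ℕ)) : Prop :=
  ∀ J : Submodule F (FreeMalcev F ℕ), IsIdl J → (∀ x0 x1 x2 x3 x4 x5, cc x0 x1 x2 x3 x4 x5 ∈ J) → I ≤ J

theorem Qc_mem (hZ : ZM F) {I : Submodule F (FreeMalcev F ℕ)} (hI : IsQc I) {m : Multiset ℕ}
    {q : FreeMalcev F ℕ} (hq : q ∈ I) (hm : q ∈ GM F m) : q ∈ W6 F m ⊔ W7 F m :=
  Qc_GM hZ.ca.s01 hZ.ca.s12 hZ.ca.s23 hZ.ca.s34 hZ.ca.s45 hZ.z1 hZ.cR2 hZ.cRR hI hq hm

/-- (Z5') -/
theorem Z5_high (hZ : ZM F) {I : Submodule F (FreeMalcev F ℕ)} (hI : IsQc I) {m : Multiset ℕ} {i : ℕ}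
    (hi : 4 ≤ m.count i) {q : FreeMalcev F ℕ} (hq : q ∈ I) (hm : q ∈ GM F m) : q = 0 := by
  have h1 := Qc_mem hZ hI hq hm
  rw [W6_high hZ two_ne_zero hi, W7_high hZ two_ne_zero hi, sup_bot_eq, Submodule.mem_bot] at h1
  exact h1

namespace FinalAux

variable (F) in
/-- the `z`-component -/
noncomputable def zcm (i j : ℕ) : Bh F →ₗ[F] Ex F where
  toFun x := x.z i j
  map_add' _ _ := rfl
  map_smul' _ _ := rfl

variable (F) in
/-- the value of the `z`-component -/
noncomputable def kap (L : Finset ℕ) (i j : ℕ) : Ex F :=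
  (-48 : ℤ) • (((-1) ^ L.card * sg (i :: j :: ((L.erase i).erase j).toList)) •
    pl F ((L.erase i).erase j).toList)

theorem c48 (h5 : (5 : F) = 0) {V : Type*} [AddCommGroup V] [Module F V] {v : V} (hv : v ≠ 0) :
    (-48 : ℤ) • v ≠ 0 := by
  rw [← Int.cast_smul_eq_zsmul F]
  refine smul_ne_zero ?_ hv
  have e : ((-48 : ℤ) : F) = 2 := by
    push_cast
    linear_combination (-10 : F) * h5
  rw [e]
  exact two_ne_zero

theorem unit_ne {V : Type*} [AddCommGroup V] {k : ℤ} (hk : k = 1 ∨ k = -1) {v : V} (hv : v ≠ 0) :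
    k • v ≠ 0 := by
  rcases hk with h | h <;> rw [h]
  · rwa [one_smul]
  · rw [neg_smul, one_smul]; exact neg_ne_zero.mpr hv

theorem kap_ne (h5 : (5 : F) = 0) (L : Finset ℕ) {i j : ℕ} (h : i ≠ j) : kap F L i j ≠ 0 := by
  unfold kap
  apply c48 h5
  apply unit_ne
  · have h1 : sg (i :: j :: ((L.erase i).erase j).toList) = 1 ∨
        sg (i :: j :: ((L.erase i).erase j).toList) = -1 := by
      apply sg_unit
      rw [List.nodup_cons, List.nodup_cons]
      refine ⟨?_, ?_, Finset.nodup_toList _⟩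
      · rw [List.mem_cons, Finset.mem_toList]
        simp [h]
      · rw [Finset.mem_toList]
        simp
    have h2 : ((-1 : ℤ) ^ L.card = 1) ∨ ((-1 : ℤ) ^ L.card = -1) := neg_one_pow_eq_or ℤ _
    rcases h1 with h1 | h1 <;> rcases h2 with h2 | h2 <;> rw [h1, h2] <;> simp
  · exact pl_ne (Finset.nodup_toList _)

/-- the element `K` -/
noncomputable abbrev KF (F : Type u) [Field F] (L : Finset ℕ) (a b w z : {x // x ∈ L}) : FreeMalcev F ℕ :=
  KK L (fun l => GF (cc (A := FreeMalcev F ℕ)) (l.map FreeMalcev.of)) a b w z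

theorem isG_map (hZ : ZM F) {n : ℕ} (hn : 8 ≤ n) :
    IsG n (- rs (n - 8)) (fun l : List ℕ => GF (cc (A := FreeMalcev F ℕ)) (l.map FreeMalcev.of)) := by
  have hG := hZ.ca.isG n hn
  refine ⟨?_, ?_, ?_, ?_, ?_⟩
  · intro a b w z U hU
    exact hG.g01 _ _ _ _ _ (by rw [List.length_map]; exact hU)
  · intro a b w z U hU
    exact hG.g23 _ _ _ _ _ (by rw [List.length_map]; exact hU)
  · intro a b w z l1 x y l2 hU
    simp only [List.map_append, List.map_cons]
    exact hG.gU _ _ _ _ _ _ _ _ (by rw [← hU]; simp)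
  · intro a b w z U hU
    exact hG.gs _ _ _ _ _ (by rw [List.length_map]; exact hU)
  · intro a b w z w' z' t ht
    exact hG.g4 _ _ _ _ _ _ _ (by rw [List.length_map]; exact ht)

theorem nodup_rest (L : Finset ℕ) {a b w z : {x // x ∈ L}} (h : [a, b, w, z].Nodup) :
    (a.1 :: b.1 :: w.1 :: z.1 :: rest L a.1 b.1 w.1 z.1).Nodup := by
  rw [← Multiset.coe_nodup, SgnAux.rest_of h]
  exact L.nodup

theorem len_rest (L : Finset ℕ) (hL : 8 ≤ L.card) {a b w z : {x // x ∈ L}} (h : [a, b, w, z].Nodup) :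
    4 ≤ (rest L a.1 b.1 w.1 z.1).length := by
  have h1 := congrArg Multiset.card (SgnAux.rest_of h)
  rw [Multiset.coe_card] at h1
  simp only [List.length_cons, Finset.card_val] at h1
  omega

theorem phi_zsmul (k : ℤ) (q : FreeMalcev F ℕ) (i j : ℕ) :
    (phi F (k • q)).z i j = k • (phi F q).z i j := by
  have h1 : phi F (k • q) = k • phi F q := map_zsmul (phi F : FreeMalcev F ℕ →ₙₐ[F] Bh F) k q
  rw [h1]
  exact map_zsmul (zcm F i j) k (phi F q)

theorem z_KF1 (L : Finset ℕ) (hL : 8 ≤ L.card) {a b w z : {x // x ∈ L}} (h : [a, b, w, z].Nodup) :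
    (phi F (KF F L a b w z)).z a.1 w.1 = kap F L a.1 w.1 := by
  unfold KF KK
  rw [phi_zsmul, phi_GF_z _ _ _ _ _ (len_rest L hL h) (nodup_rest L h), smul_comm,
    sg_px L (pl F) pl_skew _ _ _ _ _ (SgnAux.rest_of h)]
  rfl

theorem z_KF0 (L : Finset ℕ) (hL : 8 ≤ L.card) {a b w z : {x // x ∈ L}} (h : [a, b, w, z].Nodup)
    (i j : ℕ) (h1 : ¬ ((i = a.1 ∨ i = b.1) ∧ (j = w.1 ∨ j = z.1)))
    (h2 : ¬ ((i = w.1 ∨ i = z.1) ∧ (j = a.1 ∨ j = b.1))) :
    (phi F (KF F L a b w z)).z i j = 0 := by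
  unfold KF KK
  rw [phi_zsmul, phi_GF_z0 _ _ _ _ _ (len_rest L hL h) (nodup_rest L h) i j h1 h2, smul_zero]

theorem nd {N : Type*} {a b w z : N} (h : [a, b, w, z].Nodup) :
    a ≠ b ∧ a ≠ w ∧ a ≠ z ∧ b ≠ w ∧ b ≠ z ∧ w ≠ z := by
  simp only [List.nodup_cons, List.mem_cons, List.not_mem_nil, or_false, not_or, not_false_eq_true,
    List.nodup_nil, and_true] at h
  tauto

theorem dn {N : Type*} {a b w z : N} (h : a ≠ b ∧ a ≠ w ∧ a ≠ z ∧ b ≠ w ∧ b ≠ z ∧ w ≠ z) :
    [a, b, w, z].Nodup := by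
  simp only [List.nodup_cons, List.mem_cons, List.not_mem_nil, or_false, not_or, not_false_eq_true,
    List.nodup_nil, and_true]
  tauto

/-- all `z`-components of `K` -/
theorem z_KF (hZ : ZM F) (L : Finset ℕ) (hL : 8 ≤ L.card) {a b w z : {x // x ∈ L}}
    (h : [a, b, w, z].Nodup) (i j : {x // x ∈ L}) :
    zcm F i.1 j.1 (phi F (KF F L a b w z)) =
      (if (i = a ∨ i = b) ∧ (j = w ∨ j = z) then kap F L i.1 j.1 else 0) +
        (if (i = w ∨ i = z) ∧ (j = a ∨ j = b) then (- rs (L.card - 8)) • kap F L i.1 j.1 else 0) := by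
  have hs : - rs (L.card - 8) = 1 ∨ - rs (L.card - 8) = -1 := by
    rcases rs_unit (L.card - 8) with h | h <;> rw [h] <;> simp
  have hK := isK_KK L (by omega) hs (isG_map hZ hL)
  show (phi F (KF F L a b w z)).z i.1 j.1 = _
  obtain ⟨n1, n2, n3, n4, n5, n6⟩ := nd h
  have key : ∀ a b w z : {x // x ∈ L}, [a, b, w, z].Nodup → (i = a ∨ i = b) → (j = w ∨ j = z) →
      (phi F (KF F L a b w z)).z i.1 j.1 = kap F L i.1 j.1 := by
    intro a b w z h hi hj
    obtain ⟨n1, n2, n3, n4, n5, n6⟩ := nd h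
    rcases hi with rfl | rfl <;> rcases hj with rfl | rfl
    · exact z_KF1 L hL h
    · have h1 : [i, b, j, w].Nodup := dn ⟨n1, n3, n2, n5, n4, n6.symm⟩
      have h2 := hK.k2 i b w j h
      rw [show KF F L i b w j = KF F L i b j w from h2.symm]
      exact z_KF1 L hL h1
    · have h1 : [i, a, j, z].Nodup := dn ⟨n1.symm, n4, n5, n2, n3, n6⟩
      have h2 := hK.k1 a i j z h
      rw [show KF F L a i j z = KF F L i a j z from h2.symm]
      exact z_KF1 L hL h1
    · have h1 : [i, a, j, w].Nodup := dn ⟨n1.symm, n5, n4, n3, n2, n6.symm⟩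
      have h3 : [i, a, w, j].Nodup := dn ⟨n1.symm, n4, n5, n2, n3, n6⟩
      have h2 := hK.k1 a i w j h
      have h4 := hK.k2 i a w j h3
      rw [show KF F L a i w j = KF F L i a j w from (h4.trans h2).symm]
      exact z_KF1 L hL h1
  by_cases c1 : (i = a ∨ i = b) ∧ (j = w ∨ j = z)
  · have c2 : ¬ ((i = w ∨ i = z) ∧ (j = a ∨ j = b)) := by
      rintro ⟨c3, c4⟩
      rcases c1.1 with rfl | rfl <;> rcases c3 with h | h <;> first | exact n2 h | exact n3 h | exact n4 h | exact n5 h
    rw [if_pos c1, if_neg c2, add_zero]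
    exact key a b w z h c1.1 c1.2
  · by_cases c2 : (i = w ∨ i = z) ∧ (j = a ∨ j = b)
    · rw [if_neg c1, if_pos c2, zero_add]
      have h1 : [w, z, a, b].Nodup := dn ⟨n6, n2.symm, n4.symm, n3.symm, n5.symm, n1⟩
      have h2 := hK.k3 w z a b h1
      rw [show KF F L a b w z = (- rs (L.card - 8)) • KF F L w z a b from h2, phi_zsmul,
        key w z a b h1 c2.1 c2.2]
    · rw [if_neg c1, if_neg c2, add_zero]
      apply z_KF0 L hL h
      · rintro ⟨c3, c4⟩
        exact c1 ⟨c3.imp Subtype.ext Subtype.ext, c4.imp Subtype.ext Subtype.ext⟩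
      · rintro ⟨c3, c4⟩
        exact c2 ⟨c3.imp Subtype.ext Subtype.ext, c4.imp Subtype.ext Subtype.ext⟩

end FinalAux

open FinalAux

/-- (Z5) for at least eight letters -/
theorem Z5_eight (hZ : ZM F) (h5 : (5 : F) = 0) {L : Finset ℕ} (hL : 8 ≤ L.card) {q : FreeMalcev F ℕ}
    (hq : q ∈ SG F (cc (A := FreeMalcev F ℕ)) FreeMalcev.of L.val) (h0 : phi F q = 0) : q = 0 := by
  have hs : - rs (L.card - 8) = 1 ∨ - rs (L.card - 8) = -1 := by
    rcases rs_unit (L.card - 8) with h | h <;> rw [h] <;> simp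
  have hG := isG_map hZ hL
  have hK := isK_KK L (by omega) hs hG
  have hN : 8 ≤ Fintype.card {x // x ∈ L} := by
    rw [Fintype.card_coe]
    exact hL
  refine inj_of_K (N := {x // x ∈ L}) (F := F) two_ne_zero hN hs hK
    ((phi F : FreeMalcev F ℕ →ₙₐ[F] Bh F) : FreeMalcev F ℕ →ₗ[F] Bh F)
    (fun i j => zcm F i.1 j.1) (fun i j => kap F L i.1 j.1) ?_ ?_ ?_ h0
  · intro i j hij
    exact kap_ne h5 L (fun h => (ne_of_lt hij) (Subtype.ext h))
  · intro a b w z h i j _
    exact z_KF hZ L hL h i j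
  · refine (Submodule.span_le.mpr ?_) hq
    rintro v ⟨l, hl, rfl⟩
    obtain ⟨a, b, w, z, hn, h1⟩ := G_eq_KK L (by omega) hG l hl
    have h2 : KF F L a b w z ∈ Submodule.span F {v | ∃ a b w z, [a, b, w, z].Nodup ∧
        v = KF F L a b w z} := Submodule.subset_span ⟨a, b, w, z, hn, rfl⟩
    rcases h1 with h1 | h1
    · have h3 : GF (cc (A := FreeMalcev F ℕ)) (l.map FreeMalcev.of) = KF F L a b w z := h1
      rw [h3]
      exact h2
    · have h3 : GF (cc (A := FreeMalcev F ℕ)) (l.map FreeMalcev.of) = - KF F L a b w z := h1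
      rw [h3]
      exact Submodule.neg_mem _ h2

/-- (Z5) for six letters -/
theorem Z5_six (hZ : ZM F) (h5 : (5 : F) = 0) {L : Finset ℕ} (hL : L.card = 6) {q : FreeMalcev F ℕ}
    (hq : q ∈ W6 F L.val) (h0 : phi F q = 0) : q = 0 := by
  obtain ⟨n0, n1, n2, n3, n4, n5, hl⟩ : ∃ n0 n1 n2 n3 n4 n5, L.toList = [n0, n1, n2, n3, n4, n5] := by
    have h1 : L.toList.length = 6 := by rw [Finset.length_toList, hL]
    match hh : L.toList, h1 with
    | [n0, n1, n2, n3, n4, n5], _ => exact ⟨n0, n1, n2, n3, n4, n5, rfl⟩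
  have hnd : [n0, n1, n2, n3, n4, n5].Nodup := by
    rw [← hl]
    exact Finset.nodup_toList _
  have hv0 : fl cc (wdM (F := F)) ([n0, n1, n2, n3, n4, n5].map FreeMagma.of) =
      cc (FreeMalcev.of n0) (FreeMalcev.of n1) (FreeMalcev.of n2) (FreeMalcev.of n3)
        (FreeMalcev.of n4) (FreeMalcev.of n5) := by
    simp only [of_eq_wdM]
    rfl
  have h1 : W6 F L.val ≤ Submodule.span F
      {fl cc (wdM (F := F)) ([n0, n1, n2, n3, n4, n5].map FreeMagma.of)} := by
    rw [W6_fl, Submodule.span_le]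
    rintro v ⟨ws, hws, hm, rfl⟩
    obtain ⟨xs, rfl, hx⟩ := letters ws (by rw [hm, hws]; exact hL)
    have hp : (xs.map FreeMagma.of).Perm ([n0, n1, n2, n3, n4, n5].map FreeMagma.of) := by
      apply List.Perm.map
      rw [← Multiset.coe_eq_coe, hx, hm, ← hl, Finset.coe_toList]
    have h2 : fl cc (wdM (F := F)) ([n0, n1, n2, n3, n4, n5].map FreeMagma.of) ∈ Submodule.span F
      {fl cc (wdM (F := F)) ([n0, n1, n2, n3, n4, n5].map FreeMagma.of)} :=
        Submodule.subset_span rfl
    rcases (fl_skew (W := wdM (F := F)) hZ.ca).perm hp hws with h | h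
    · rw [h]; exact h2
    · rw [h]; exact Submodule.neg_mem _ h2
  obtain ⟨r, rfl⟩ := Submodule.mem_span_singleton.mp (h1 hq)
  rw [hv0] at h0 ⊢
  have h3 := congrArg (fun x : Bh F => x.z n0 n1) h0
  simp only [map_smul, Bh.z_smul, Bh.z_zero, phi_cc6 n0 n1 n2 n3 n4 n5 hnd] at h3
  have h4 : (-48 : ℤ) • pl F [n2, n3, n4, n5] ≠ 0 := by
    apply c48 h5
    apply pl_ne
    exact (List.nodup_cons.mp (List.nodup_cons.mp hnd).2).2
  rw [(smul_eq_zero.mp h3).resolve_right h4, zero_smul]

/-- (Z5) -/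
theorem Z5_main (hZ : ZM F) (h5 : (5 : F) = 0) {I : Submodule F (FreeMalcev F ℕ)} (hI : IsQc I)
    {L : Finset ℕ} {q : FreeMalcev F ℕ} (hq : q ∈ I) (hm : q ∈ GM F L.val) (h7 : L.card ≠ 7)
    (h0 : phi F q = 0) : q = 0 := by
  have h1 := Qc_mem hZ hI hq hm
  rw [W7_ne (show Multiset.card L.val ≠ 7 from h7), sup_bot_eq] at h1
  rcases Nat.lt_or_ge L.card 6 with h6 | h6
  · rw [W6_small (show Multiset.card L.val < 6 from h6), Submodule.mem_bot] at h1
    exact h1
  rcases Nat.lt_or_ge L.card 7 with h6' | h6'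
  · exact Z5_six hZ h5 (by omega) h1 h0
  · exact Z5_eight hZ h5 (by omega) (W6_le hZ two_ne_zero (show 8 ≤ Multiset.card L.val by
      rw [Finset.card_val]; omega) h1) h0

end Z5

end Pool.Agent.MalP
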