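import Pool.Agent.MalP.Z5.CA

/-! # Characteristic 5: `GF c` has the properties `IsG` -/

set_option autoImplicit false

namespace Pool.Agent.MalP

namespace Z5

universe v w

variable {A : Type v} {B : Type w} [NonUnitalNonAssocRing A] [AddCommGroup B]
  {c : A → A → A → A → A → A → B}

/-- the sign of the reversal of a list of length `r` -/
def rs : ℕ → ℤ
  | 0 => 1
  | r + 1 => (-1) ^ r * rs r

theorem rs_unit (r : ℕ) : rs r = 1 ∨ rs r = -1 := by
  induction r with
  | zero => exact Or.inl rfl
  | succ r ih =>
    have h1 : ((-1 : ℤ) ^ r = 1) ∨ ((-1 : ℤ) ^ r = -1) := neg_one_pow_eq_or ℤ r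
    show (-1) ^ r * rs r = 1 ∨ (-1) ^ r * rs r = -1
    rcases ih with h | h <;> rcases h1 with h1 | h1 <;> rw [h, h1] <;> simp

theorem mr_prod (a b : A) (t : List A) : ∃ u v : A, mr a b t = u * v := by
  cases t with
  | nil => exact ⟨a, b, rfl⟩
  | cons x t => exact ⟨mr a b t, x, rfl⟩

/-- skew in `t` -/
theorem CA.skew_t (h : CA c) (n : ℕ) (a b u v p q r s : A) :
    SkewL n (fun t => c (mr a b t) (u * v) p q r s) := by
  intro l1 x y l2 hl
  clear hl
  induction l1 generalizing u v with
  | nil =>
    obtain ⟨m, k, hm⟩ := mr_prod a b l2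
    show c (mr a b (x :: y :: l2)) _ _ _ _ _ = - c (mr a b (y :: x :: l2)) _ _ _ _ _
    rw [mr_cons, mr_cons, mr_cons, mr_cons, hm]
    exact eq_neg_of_add_eq_zero_left (h.F4b m k u v y x p q r s)
  | cons z l1 ih =>
    obtain ⟨m, k, hm⟩ := mr_prod a b (l1 ++ x :: y :: l2)
    obtain ⟨m', k', hm'⟩ := mr_prod a b (l1 ++ y :: x :: l2)
    have ih' := ih (u * v) z
    simp only at ih' ⊢
    rw [List.cons_append, List.cons_append, mr_cons, mr_cons]
    rw [hm, hm'] at ih' ⊢
    have e1 := h.F2 m k u v z p q r s
    have e2 := h.F2 m' k' u v z p q r s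
    linear_combination (norm := abel) e1 + e2 + ih'

/-- move all factors to the second argument -/
theorem CA.move_t (h : CA c) (a b : A) (t : List A) : ∀ u v p q r s : A,
    c (mr a b t) (u * v) p q r s = c (a * b) (t.foldl (· * ·) (u * v)) p q r s := by
  induction t with
  | nil => intro u v p q r s; rfl
  | cons x t ih =>
    intro u v p q r s
    obtain ⟨m, k, hm⟩ := mr_prod a b t
    have e1 := h.F2 m k u v x p q r s
    rw [List.foldl_cons, ← ih (u * v) x, mr_cons, hm]
    linear_combination (norm := abel) e1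

theorem foldl_eq_mr (w z : A) (t : List A) : t.foldl (· * ·) (w * z) = mr w z t.reverse := by
  unfold mr
  rw [List.foldr_reverse]

omit [NonUnitalNonAssocRing A] in
theorem skewL_reverse {f : List A → B} (hf : ∀ n, SkewL n f) (l : List A) :
    ∀ l0 : List A, f (l0 ++ l.reverse) = rs l.length • f (l0 ++ l) := by
  induction l with
  | nil => intro l0; simp [rs]
  | cons x l ih =>
    intro l0
    have h1 := (hf (l0 ++ x :: (l.reverse ++ [])).length).move l0 l.reverse [] x rfl
    rw [List.append_nil, List.length_reverse] at h1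
    have h2 := ih (l0 ++ [x])
    rw [List.append_assoc, List.singleton_append, List.append_assoc, List.singleton_append] at h2
    have h3 : l0 ++ (x :: l).reverse = l0 ++ l.reverse ++ [x] := by
      rw [List.reverse_cons, List.append_assoc]
    have h4 : f (l0 ++ l.reverse ++ [x]) = (-1 : ℤ) ^ l.length • f (l0 ++ x :: l.reverse) := by
      rw [h1, smul_smul, ← pow_add, ← two_mul, pow_mul]
      simp
    rw [h3, h4, h2, smul_smul, List.length_cons]
    rfl

/-- exchange the two products -/
theorem CA.swap_prod (h : CA c) (a b w z p q r s : A) (t : List A) :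
    c (mr w z t) (a * b) p q r s = (- rs t.length) • c (mr a b t) (w * z) p q r s := by
  rw [h.move_t w z t a b p q r s, foldl_eq_mr, h.s01]
  have h1 := skewL_reverse (fun n => h.skew_t n a b w z p q r s) t []
  simp only [List.nil_append] at h1
  rw [h1, neg_smul]

/-- (zA), polarised twice -/
theorem CA.zA2 (h : CA c) (u v x y x' y' a b : A) :
    c (u * v) (x * y) x' y' a b + c (u * v) (x * y') x' y a b + c (u * v) (x' * y) x y' a b +
      c (u * v) (x' * y') x y a b = 0 := by
  have h1 := h.zA1 u v x x' (y + y') a b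
  rw [mul_add, mul_add, h.a1, h.a1, h.a3, h.a3, h.a3, h.a3] at h1
  have h2 := h.zA1 u v x x' y a b
  have h3 := h.zA1 u v x x' y' a b
  linear_combination (norm := abel) h1 - h2 - h3

/-- skewness between the letters and the last factor -/
theorem CA.swap_st (h : CA c) (u v w z p q r s x : A) :
    c ((u * v) * x) (w * z) p q r s = - c ((u * v) * s) (w * z) p q r x := by
  have h1 := h.F31 w z u v p x s r q
  rw [h.s01 (u * v * x), h.s01 (u * v * s)]
  have e1 : ∀ y y' : A, c (w * z) (u * v * y) p q r y' = - c (w * z) (u * v * y) p y' r q := by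
    intro y y'
    rw [h.s34 (w * z) (u * v * y) p q r y', h.s45 (w * z) (u * v * y) p r q y',
      h.s34 (w * z) (u * v * y) p r y' q]
    simp only [neg_neg]
  rw [e1, e1]
  linear_combination (norm := abel) h1

theorem CA.isG (h : CA c) (n : ℕ) (hn : 8 ≤ n) : IsG n (- rs (n - 8)) (GF c) := by
  have key : ∀ U : List A, U.length + 4 = n → ∃ p q r s t, U = p :: q :: r :: s :: t ∧
      t.length = n - 8 := by
    intro U hU
    match U, hU with
    | p :: q :: r :: s :: t, hU =>
      exact ⟨p, q, r, s, t, rfl, by simp only [List.length_cons] at hU; omega⟩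
    | [], hU => simp at hU; omega
    | [_], hU => simp at hU; omega
    | [_, _], hU => simp at hU; omega
    | [_, _, _], hU => simp at hU; omega
  have hanti : ∀ (a b : A) (t : List A), mr b a t = - mr a b t := by
    intro a b t
    induction t with
    | nil => exact h.anti b a
    | cons x t ih => rw [mr_cons, mr_cons, ih, neg_mul]
  refine ⟨?_, ?_, ?_, ?_, ?_⟩
  · intro a b w z U hU
    obtain ⟨p, q, r, s, t, rfl, ht⟩ := key U hU
    show c (mr b a t) (w * z) p q r s = - c (mr a b t) (w * z) p q r s
    rw [hanti, h.n0]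
  · intro a b w z U hU
    obtain ⟨p, q, r, s, t, rfl, ht⟩ := key U hU
    show c (mr a b t) (z * w) p q r s = - c (mr a b t) (w * z) p q r s
    rw [h.anti, h.n1]
  · intro a b w z l1 x y l2 hU
    match l1, hU with
    | [], hU =>
      obtain ⟨p, q, r, s, t, h1, ht⟩ := key _ hU
      rw [List.nil_append] at h1
      simp only [List.cons.injEq] at h1
      obtain ⟨rfl, rfl, rfl⟩ := h1
      exact h.s23 _ _ _ _ _ _
    | [p], hU =>
      obtain ⟨p, q, r, s, t, h1, ht⟩ := key _ hU
      simp only [List.cons_append, List.nil_append, List.cons.injEq] at h1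
      obtain ⟨rfl, rfl, rfl, rfl⟩ := h1
      exact h.s34 _ _ _ _ _ _
    | [p, q], hU =>
      exact h.s45 _ _ _ _ _ _
    | [p, q, r], hU =>
      show c (mr a b (y :: l2)) (w * z) p q r x = - c (mr a b (x :: l2)) (w * z) p q r y
      obtain ⟨m, k, hm⟩ := mr_prod a b l2
      rw [mr_cons, mr_cons, hm]
      exact h.swap_st _ _ _ _ _ _ _ _ _
    | p :: q :: r :: s :: l1, hU =>
      exact h.skew_t _ a b w z p q r s l1 x y l2 rfl
  · intro a b w z U hU
    obtain ⟨p, q, r, s, t, rfl, ht⟩ := key U hU
    rw [← ht]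
    exact h.swap_prod a b w z p q r s t
  · intro a b w z w' z' t ht
    match t, ht with
    | r :: s :: t, ht =>
      obtain ⟨m, k, hm⟩ := mr_prod a b t
      show c (mr a b t) (w * z) w' z' r s + c (mr a b t) (w * z') w' z r s +
        c (mr a b t) (w' * z) w z' r s + c (mr a b t) (w' * z') w z r s = 0
      rw [hm]
      exact h.zA2 _ _ _ _ _ _ _ _
    | [], ht => simp at ht; omega
    | [_], ht => simp at ht; omega

end Z5

end Pool.Agent.MalP
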