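import Pool.Agent.MalP.Z5.KL
import Pool.Agent.MalP.Words

/-! # Characteristic 5: the values of `c` at words of degree `≥ 8` are combinations of values of `GF c` -/

set_option autoImplicit false

namespace Pool.Agent.MalP

namespace Z5

universe u v w

variable {A : Type v} {B : Type w} [NonUnitalNonAssocRing A] [AddCommGroup B]

/-- the span of the values of `GF c` at the letters -/
def SG (F : Type u) [Field F] [Module F B] (c : A → A → A → A → A → A → B) (X : ℕ → A)
    (m : Multiset ℕ) : Submodule F B :=
  Submodule.span F {v | ∃ l : List ℕ, (l : Multiset ℕ) = m ∧ v = GF c (l.map X)}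

/-- words which are letters -/
def isL : FreeMagma ℕ → Bool
  | .of _ => true
  | .mul _ _ => false

theorem isL_true {w : FreeMagma ℕ} (h : isL w = true) : ∃ i, w = FreeMagma.of i := by
  cases w with
  | of i => exact ⟨i, rfl⟩
  | mul a b => simp [isL] at h

theorem isL_false {w : FreeMagma ℕ} (h : isL w = false) : ∃ a b, w = FreeMagma.mul a b := by
  cases w with
  | of i => simp [isL] at h
  | mul a b => exact ⟨a, b, rfl⟩

namespace WordsAux

variable {c : A → A → A → A → A → A → B} {W : FreeMagma ℕ → A}

theorem mr_neg (h : CA c) (m x : A) : (-m) * x = - (m * x) := neg_mul m x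

/-- left normed words, or `c` vanishes -/
theorem lnorm (h : CA c) (hW : ∀ a b, W (FreeMagma.mul a b) = W a * W b) (P : FreeMagma ℕ)
    (hP : isL P = false) :
    (∃ (a b : ℕ) (t : List ℕ), content P = (((a :: b :: t : List ℕ)) : Multiset ℕ) ∧
      (W P = mr (W (.of a)) (W (.of b)) (t.map fun i => W (.of i)) ∨
        W P = - mr (W (.of a)) (W (.of b)) (t.map fun i => W (.of i)))) ∨
      (∀ u v x1 x2 x3 x4 : A, c (W P) (u * v) x1 x2 x3 x4 = 0) := by
  have step : ∀ (P : FreeMagma ℕ) (j : ℕ), isL P = false →
      ((∃ (a b : ℕ) (t : List ℕ), content P = (((a :: b :: t : List ℕ)) : Multiset ℕ) ∧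
      (W P = mr (W (.of a)) (W (.of b)) (t.map fun i => W (.of i)) ∨
        W P = - mr (W (.of a)) (W (.of b)) (t.map fun i => W (.of i)))) ∨
      (∀ u v x1 x2 x3 x4 : A, c (W P) (u * v) x1 x2 x3 x4 = 0)) →
      ((∃ (a b : ℕ) (t : List ℕ), content P + {j} = (((a :: b :: t : List ℕ)) : Multiset ℕ) ∧
      (W P * W (.of j) = mr (W (.of a)) (W (.of b)) (t.map fun i => W (.of i)) ∨
        W P * W (.of j) = - mr (W (.of a)) (W (.of b)) (t.map fun i => W (.of i)))) ∨
      (∀ u v x1 x2 x3 x4 : A, c (W P * W (.of j)) (u * v) x1 x2 x3 x4 = 0)) := by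
    intro P j hP h1
    rcases h1 with ⟨a, b, t, hc, h1⟩ | h1
    · left
      refine ⟨a, b, j :: t, ?_, ?_⟩
      · rw [hc, add_comm, Multiset.singleton_add]
        simp only [← Multiset.cons_coe]
        rw [Multiset.cons_swap j a, Multiset.cons_swap j b]
      · rw [List.map_cons, mr_cons]
        rcases h1 with h1 | h1
        · left; rw [h1]
        · right; rw [h1, neg_mul]
    · right
      intro u v x1 x2 x3 x4
      obtain ⟨P1, P2, rfl⟩ := isL_false hP
      have e1 := h.F2 (W P1) (W P2) u v (W (.of j)) x1 x2 x3 x4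
      have e2 := h1 (u * v) (W (.of j)) x1 x2 x3 x4
      rw [hW] at e2 ⊢
      rw [e2] at e1
      simpa using e1
  induction P using FreeMagma.rec with
  | of i => simp [isL] at hP
  | mul P1 P2 ih1 ih2 =>
    rcases hb1 : isL P1 with _ | _ <;> rcases hb2 : isL P2 with _ | _
    · right
      intro u v x1 x2 x3 x4
      obtain ⟨a, b, rfl⟩ := isL_false hb1
      obtain ⟨a', b', rfl⟩ := isL_false hb2
      rw [hW, hW, hW]
      exact h.F5a _ _ _ _ _ _ _ _ _ _
    · obtain ⟨j, rfl⟩ := isL_true hb2
      rw [hW]
      exact step P1 j hb1 (ih1 hb1)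
    · obtain ⟨j, rfl⟩ := isL_true hb1
      have h2 := step P2 j hb2 (ih2 hb2)
      rw [hW, h.anti]
      have e : content (FreeMagma.mul (FreeMagma.of j) P2) = content P2 + {j} := by
        show {j} + content P2 = _
        rw [add_comm]
      rw [e]
      rcases h2 with ⟨a, b, t, hc, h1⟩ | h2
      · left
        refine ⟨a, b, t, hc, ?_⟩
        rcases h1 with h1 | h1
        · right; rw [h1]
        · left; rw [h1, neg_neg]
      · right
        intro u v x1 x2 x3 x4
        rw [h.n0, h2, neg_zero]
    · obtain ⟨i, rfl⟩ := isL_true hb1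
      obtain ⟨j, rfl⟩ := isL_true hb2
      left
      exact ⟨i, j, [], rfl, Or.inl (hW _ _)⟩

variable {F : Type u} [Field F] [Module F B]

theorem two_prod (h : CA c) (hW : ∀ a b, W (FreeMagma.mul a b) = W a * W b) (S : FreeMagma ℕ)
    (hS : isL S = false) : ∀ P : FreeMagma ℕ, isL P = false → ∀ p q r s : ℕ,
    c (W P) (W S) (W (.of p)) (W (.of q)) (W (.of r)) (W (.of s)) ∈
      SG F c (fun i => W (.of i)) (content P + content S + {p} + {q} + {r} + {s}) := by
  induction S using FreeMagma.rec with
  | of i => simp [isL] at hS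
  | mul S1 S2 ih1 ih2 =>
    intro P hP p q r s
    rcases hb1 : isL S1 with _ | _ <;> rcases hb2 : isL S2 with _ | _
    · obtain ⟨a, b, rfl⟩ := isL_false hb1
      obtain ⟨a', b', rfl⟩ := isL_false hb2
      obtain ⟨P1, P2, rfl⟩ := isL_false hP
      rw [hW, hW, hW, hW, h.s01, h.F5a, neg_zero]
      exact Submodule.zero_mem _
    · obtain ⟨j, rfl⟩ := isL_true hb2
      obtain ⟨a, b, rfl⟩ := isL_false hb1
      obtain ⟨P1, P2, rfl⟩ := isL_false hP
      have h1 := ih1 rfl (FreeMagma.mul (FreeMagma.mul P1 P2) (.of j)) rfl p q r s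
      have e1 := h.F2 (W P1) (W P2) (W a) (W b) (W (.of j)) (W (.of p)) (W (.of q)) (W (.of r))
        (W (.of s))
      have e2 : c (W (P1.mul P2)) (W ((a.mul b).mul (FreeMagma.of j))) (W (.of p)) (W (.of q)) (W (.of r)) (W (.of s)) =
          c (W ((P1.mul P2).mul (FreeMagma.of j))) (W (a.mul b)) (W (.of p)) (W (.of q)) (W (.of r)) (W (.of s)) := by
        rw [hW, hW, hW, hW, hW]
        linear_combination (norm := abel) - e1
      rw [e2]
      have e3 : content ((P1.mul P2).mul (FreeMagma.of j)) + content (a.mul b) + {p} + {q} + {r} + {s} =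
          content (P1.mul P2) + content ((a.mul b).mul (FreeMagma.of j)) + {p} + {q} + {r} + {s} := by
        show content (P1.mul P2) + {j} + content (a.mul b) + {p} + {q} + {r} + {s} =
          content (P1.mul P2) + (content (a.mul b) + {j}) + {p} + {q} + {r} + {s}
        abel
      rw [e3] at h1
      exact h1
    · obtain ⟨j, rfl⟩ := isL_true hb1
      obtain ⟨a, b, rfl⟩ := isL_false hb2
      obtain ⟨P1, P2, rfl⟩ := isL_false hP
      have h1 := ih2 rfl (FreeMagma.mul (FreeMagma.mul P1 P2) (.of j)) rfl p q r s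
      have e1 := h.F2 (W P1) (W P2) (W a) (W b) (W (.of j)) (W (.of p)) (W (.of q)) (W (.of r))
        (W (.of s))
      have e2 : c (W (P1.mul P2)) (W ((FreeMagma.of j).mul (a.mul b))) (W (.of p)) (W (.of q)) (W (.of r)) (W (.of s)) =
          - c (W ((P1.mul P2).mul (FreeMagma.of j))) (W (a.mul b)) (W (.of p)) (W (.of q)) (W (.of r)) (W (.of s)) := by
        rw [hW (FreeMagma.of j), h.anti, h.n1]
        simp only [hW]
        linear_combination (norm := abel) e1
      rw [e2]
      have e3 : content ((P1.mul P2).mul (FreeMagma.of j)) + content (a.mul b) + {p} + {q} + {r} + {s} =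
          content (P1.mul P2) + content ((FreeMagma.of j).mul (a.mul b)) + {p} + {q} + {r} + {s} := by
        show content (P1.mul P2) + {j} + content (a.mul b) + {p} + {q} + {r} + {s} =
          content (P1.mul P2) + ({j} + content (a.mul b)) + {p} + {q} + {r} + {s}
        abel
      rw [e3] at h1
      exact Submodule.neg_mem _ h1
    · obtain ⟨w, rfl⟩ := isL_true hb1
      obtain ⟨z, rfl⟩ := isL_true hb2
      rw [hW]
      rcases lnorm h hW P hP with ⟨a, b, t, hc, h1⟩ | h1
      · have hm : GF c ((a :: b :: w :: z :: p :: q :: r :: s :: t).map fun i => W (.of i)) ∈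
            SG F c (fun i => W (.of i)) (content P + content ((FreeMagma.of w).mul (FreeMagma.of z)) +
              {p} + {q} + {r} + {s}) := by
          apply Submodule.subset_span
          refine ⟨_, ?_, rfl⟩
          rw [hc]
          show _ = _ + ({w} + {z}) + {p} + {q} + {r} + {s}
          simp only [← Multiset.cons_coe, ← Multiset.singleton_add]
          abel
        have e : GF c ((a :: b :: w :: z :: p :: q :: r :: s :: t).map fun i => W (.of i)) =
          c (mr (W (.of a)) (W (.of b)) (t.map fun i => W (.of i))) (W (.of w) * W (.of z))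
            (W (.of p)) (W (.of q)) (W (.of r)) (W (.of s)) := rfl
        rw [e] at hm
        rcases h1 with h1 | h1
        · rw [h1]; exact hm
        · rw [h1, h.n0]; exact Submodule.neg_mem _ hm
      · rw [h1]
        exact Submodule.zero_mem _

theorem one_prod (h2 : (2 : F) ≠ 0) (h : CA c) (hW : ∀ a b, W (FreeMagma.mul a b) = W a * W b)
    (P : FreeMagma ℕ) (hP : 3 ≤ Multiset.card (content P)) (x0 x1 x2 x3 x4 : ℕ) :
    c (W P) (W (.of x0)) (W (.of x1)) (W (.of x2)) (W (.of x3)) (W (.of x4)) ∈
      SG F c (fun i => W (.of i)) (content P + {x0} + {x1} + {x2} + {x3} + {x4}) := by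
  have half : ∀ (S : Submodule F B) (v : B), 2 • v ∈ S → v ∈ S := by
    intro S v hv
    have h3 : (2 : F)⁻¹ • (2 • v) ∈ S := S.smul_mem _ hv
    have h4 : (2 : F)⁻¹ • (2 • v) = v := by
      rw [← Nat.cast_smul_eq_nsmul F, smul_smul]
      push_cast
      rw [inv_mul_cancel₀ h2, one_smul]
    rwa [h4] at h3
  have step : ∀ (P : FreeMagma ℕ) (j : ℕ), isL P = false →
      c (W P * W (.of j)) (W (.of x0)) (W (.of x1)) (W (.of x2)) (W (.of x3)) (W (.of x4)) ∈
      SG F c (fun i => W (.of i)) (content P + {j} + {x0} + {x1} + {x2} + {x3} + {x4}) := by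
    intro P j hP
    obtain ⟨P1, P2, rfl⟩ := isL_false hP
    have e1 := h.zC (W P1) (W P2) (W (.of j)) (W (.of x0)) (W (.of x1)) (W (.of x2)) (W (.of x3))
      (W (.of x4))
    rw [← hW] at e1
    have t : ∀ a b p q r : ℕ, c (W (P1.mul P2)) (W (.of a) * W (.of b)) (W (.of j)) (W (.of p))
        (W (.of q)) (W (.of r)) ∈
        SG F c (fun i => W (.of i)) (content (P1.mul P2) + ({a} + {b}) + {j} + {p} + {q} + {r}) := by
      intro a b p q r
      have := two_prod (F := F) h hW (FreeMagma.mul (.of a) (.of b)) rfl (P1.mul P2) hP j p q r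
      rw [hW (.of a)] at this
      exact this
    have t0 := t x0 x1 x2 x3 x4
    have t1 := t x1 x2 x0 x3 x4
    have t2 := t x2 x3 x0 x1 x4
    have t3 := t x3 x4 x0 x1 x2
    have t4 := t x4 x0 x1 x2 x3
    have c0 : content (P1.mul P2) + ({x0} + {x1}) + {j} + {x2} + {x3} + {x4} =
      content (P1.mul P2) + {j} + {x0} + {x1} + {x2} + {x3} + {x4} := by abel
    have c1 : content (P1.mul P2) + ({x1} + {x2}) + {j} + {x0} + {x3} + {x4} =
      content (P1.mul P2) + {j} + {x0} + {x1} + {x2} + {x3} + {x4} := by abel
    have c2 : content (P1.mul P2) + ({x2} + {x3}) + {j} + {x0} + {x1} + {x4} =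
      content (P1.mul P2) + {j} + {x0} + {x1} + {x2} + {x3} + {x4} := by abel
    have c3 : content (P1.mul P2) + ({x3} + {x4}) + {j} + {x0} + {x1} + {x2} =
      content (P1.mul P2) + {j} + {x0} + {x1} + {x2} + {x3} + {x4} := by abel
    have c4 : content (P1.mul P2) + ({x4} + {x0}) + {j} + {x1} + {x2} + {x3} =
      content (P1.mul P2) + {j} + {x0} + {x1} + {x2} + {x3} + {x4} := by abel
    rw [c0] at t0
    rw [c1] at t1
    rw [c2] at t2
    rw [c3] at t3
    rw [c4] at t4
    apply half
    have e2 : 2 • c (W (P1.mul P2) * W (.of j)) (W (.of x0)) (W (.of x1)) (W (.of x2)) (W (.of x3)) (W (.of x4)) =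
      -(c (W (P1.mul P2)) (W (.of x0) * W (.of x1)) (W (.of j)) (W (.of x2)) (W (.of x3)) (W (.of x4)) +
        c (W (P1.mul P2)) (W (.of x1) * W (.of x2)) (W (.of j)) (W (.of x0)) (W (.of x3)) (W (.of x4)) +
        c (W (P1.mul P2)) (W (.of x2) * W (.of x3)) (W (.of j)) (W (.of x0)) (W (.of x1)) (W (.of x4)) +
        c (W (P1.mul P2)) (W (.of x3) * W (.of x4)) (W (.of j)) (W (.of x0)) (W (.of x1)) (W (.of x2)) +
        c (W (P1.mul P2)) (W (.of x4) * W (.of x0)) (W (.of j)) (W (.of x1)) (W (.of x2)) (W (.of x3))) := by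
      linear_combination (norm := abel) e1
    rw [e2]
    exact Submodule.neg_mem _ (Submodule.add_mem _ (Submodule.add_mem _ (Submodule.add_mem _
      (Submodule.add_mem _ t0 t1) t2) t3) t4)
  cases P with
  | of i =>
    have : Multiset.card (content (FreeMagma.of i)) = 1 := rfl
    omega
  | mul P1 P2 =>
    rcases hb1 : isL P1 with _ | _ <;> rcases hb2 : isL P2 with _ | _
    · obtain ⟨a, b, rfl⟩ := isL_false hb1
      obtain ⟨a', b', rfl⟩ := isL_false hb2
      rw [hW, hW, hW, h.F5b]
      exact Submodule.zero_mem _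
    · obtain ⟨j, rfl⟩ := isL_true hb2
      rw [hW]
      exact step P1 j hb1
    · obtain ⟨j, rfl⟩ := isL_true hb1
      have h3 := step P2 j hb2
      rw [hW, h.anti, h.n0]
      have e : content (FreeMagma.mul (FreeMagma.of j) P2) = content P2 + {j} := by
        show {j} + content P2 = _
        rw [add_comm]
      rw [e]
      exact Submodule.neg_mem _ h3
    · obtain ⟨i, rfl⟩ := isL_true hb1
      obtain ⟨j, rfl⟩ := isL_true hb2
      have : Multiset.card (content ((FreeMagma.of i).mul (FreeMagma.of j))) = 2 := rfl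
      omega

/-- the values on lists of words -/
def fl (c : A → A → A → A → A → A → B) (W : FreeMagma ℕ → A) : List (FreeMagma ℕ) → B
  | [w0, w1, w2, w3, w4, w5] => c (W w0) (W w1) (W w2) (W w3) (W w4) (W w5)
  | _ => 0

theorem fl_skew (h : CA c) : SkewL 6 (fl c W) := by
  intro l1 x y l2 hl
  match l1, l2, hl with
  | [], [a, b, d, e], _ => exact h.s01 _ _ _ _ _ _
  | [a], [b, d, e], _ => exact h.s12 _ _ _ _ _ _
  | [a, b], [d, e], _ => exact h.s23 _ _ _ _ _ _
  | [a, b, d], [e], _ => exact h.s34 _ _ _ _ _ _
  | [a, b, d, e], [], _ => exact h.s45 _ _ _ _ _ _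
  | [], [], h => simp at h
  | [], [_], h => simp at h
  | [], [_, _], h => simp at h
  | [], [_, _, _], h => simp at h
  | [], _ :: _ :: _ :: _ :: _ :: _, h => simp at h
  | [_], [], h => simp at h
  | [_], [_], h => simp at h
  | [_], [_, _], h => simp at h
  | [_], _ :: _ :: _ :: _ :: _, h => simp at h
  | [_, _], [], h => simp at h
  | [_, _], [_], h => simp at h
  | [_, _], _ :: _ :: _ :: _, h => simp at h
  | [_, _, _], [], h => simp at h
  | [_, _, _], _ :: _ :: _, h => simp at h
  | [_, _, _, _], _ :: _, h => simp at h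
  | _ :: _ :: _ :: _ :: _ :: _, _, h =>
    simp only [List.length_append, List.length_cons] at h
    omega

end WordsAux

open WordsAux

variable {c : A → A → A → A → A → A → B} {W : FreeMagma ℕ → A} {F : Type u} [Field F] [Module F B]

/-- all letters -/
theorem sum_letters (l : List (FreeMagma ℕ)) (h : ∀ w ∈ l, isL w = true) :
    Multiset.card (l.map content).sum = l.length := by
  induction l with
  | nil => rfl
  | cons w l ih =>
    obtain ⟨i, rfl⟩ := isL_true (h w (List.mem_cons_self))
    rw [List.map_cons, List.sum_cons, Multiset.card_add, ih fun w hw => h w (List.mem_cons_of_mem _ hw),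
      List.length_cons, add_comm]
    rfl

/-- the values of `c` at words of total degree at least 8 -/
theorem words (h2 : (2 : F) ≠ 0) (h : CA c) (hW : ∀ a b, W (FreeMagma.mul a b) = W a * W b)
    (l : List (FreeMagma ℕ)) (hl : l.length = 6) (hd : 8 ≤ Multiset.card (l.map content).sum) :
    fl c W l ∈ SG F c (fun i => W (.of i)) (l.map content).sum := by
  have hperm : (l.filter (fun w => !isL w) ++ l.filter (fun w => !!isL w)).Perm l :=
    List.filter_append_perm _ l
  have h1 := (fl_skew (W := W) h).perm hperm.symm hl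
  have h3 : (l.map content).sum = ((l.filter (fun w => !isL w)).map content).sum +
      ((l.filter (fun w => !!isL w)).map content).sum := by
    rw [← List.sum_append, ← List.map_append]
    exact (hperm.symm.map content).sum_eq
  have hP : ∀ w ∈ l.filter (fun w => !isL w), isL w = false := by
    intro w hw
    have := (List.mem_filter.mp hw).2
    simpa using this
  have hQ : ∀ w ∈ l.filter (fun w => !!isL w), isL w = true := by
    intro w hw
    have := (List.mem_filter.mp hw).2
    simpa using this
  have hlen : (l.filter (fun w => !isL w)).length + (l.filter (fun w => !!isL w)).length = 6 := by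
    rw [← List.length_append, hperm.length_eq, hl]
  rw [h3] at hd ⊢
  have key : fl c W (l.filter (fun w => !isL w) ++ l.filter (fun w => !!isL w)) ∈
      SG F c (fun i => W (.of i)) (((l.filter (fun w => !isL w)).map content).sum +
      ((l.filter (fun w => !!isL w)).map content).sum) := by
    clear h1 hperm h3 hl
    generalize l.filter (fun w => !isL w) = P at *
    generalize l.filter (fun w => !!isL w) = Q at *
    match P, hP, hlen, hd with
    | [], hP, hlen, hd =>
      rw [Multiset.card_add, sum_letters Q hQ] at hd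
      simp at hd hlen
      omega
    | [a], hP, hlen, hd =>
      match Q, hQ, hlen, hd with
      | [x0, x1, x2, x3, x4], hQ, hlen, hd =>
        obtain ⟨x0, rfl⟩ := isL_true (hQ x0 (by simp))
        obtain ⟨x1, rfl⟩ := isL_true (hQ x1 (by simp))
        obtain ⟨x2, rfl⟩ := isL_true (hQ x2 (by simp))
        obtain ⟨x3, rfl⟩ := isL_true (hQ x3 (by simp))
        obtain ⟨x4, rfl⟩ := isL_true (hQ x4 (by simp))
        have e : (List.map content [a]).sum + (List.map content [FreeMagma.of x0, .of x1, .of x2, .of x3, .of x4]).sum =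
          content a + {x0} + {x1} + {x2} + {x3} + {x4} := by
          simp only [List.map_cons, List.map_nil, List.sum_cons, List.sum_nil, content]
          abel
        rw [e] at hd ⊢
        apply one_prod h2 h hW a
        simp only [Multiset.card_add, Multiset.card_singleton] at hd
        omega
      | _ :: _ :: _ :: _ :: _ :: _ :: _, hQ, hlen, hd =>
        simp only [List.length_cons, List.length_nil] at hlen
        omega
    | [a, b], hP, hlen, hd =>
      match Q, hQ, hlen, hd with
      | [x0, x1, x2, x3], hQ, hlen, hd =>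
        obtain ⟨x0, rfl⟩ := isL_true (hQ x0 (by simp))
        obtain ⟨x1, rfl⟩ := isL_true (hQ x1 (by simp))
        obtain ⟨x2, rfl⟩ := isL_true (hQ x2 (by simp))
        obtain ⟨x3, rfl⟩ := isL_true (hQ x3 (by simp))
        have e : (List.map content [a, b]).sum + (List.map content [FreeMagma.of x0, .of x1, .of x2, .of x3]).sum =
          content a + content b + {x0} + {x1} + {x2} + {x3} := by
          simp only [List.map_cons, List.map_nil, List.sum_cons, List.sum_nil, content]
          abel
        rw [e]
        exact two_prod h hW b (hP b (by simp)) a (hP a (by simp)) _ _ _ _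
      | _ :: _ :: _ :: _ :: _ :: _, hQ, hlen, hd =>
        simp only [List.length_cons, List.length_nil] at hlen
        omega
    | a :: b :: d :: P, hP, hlen, hd =>
      obtain ⟨a1, a2, rfl⟩ := isL_false (hP a (by simp))
      obtain ⟨b1, b2, rfl⟩ := isL_false (hP b (by simp))
      obtain ⟨d1, d2, rfl⟩ := isL_false (hP d (by simp))
      have hlen' : (P ++ Q).length = 3 := by
        simp only [List.length_cons, List.length_append] at hlen ⊢
        omega
      show fl c W (a1.mul a2 :: b1.mul b2 :: d1.mul d2 :: (P ++ Q)) ∈ _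
      generalize P ++ Q = R at hlen' ⊢
      match R, hlen' with
      | [x, y, z], _ =>
        show c (W (a1.mul a2)) (W (b1.mul b2)) (W (d1.mul d2)) (W x) (W y) (W z) ∈ _
        rw [hW, hW, hW, h.F1]
        exact Submodule.zero_mem _
  rcases h1 with h1 | h1
  · rw [h1]; exact key
  · rw [h1]; exact Submodule.neg_mem _ key

end Z5

end Pool.Agent.MalP
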